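import Pool.Agent.Helper86.MT.Defs

/-!
# Chains of partial places
-/

open Finset

set_option linter.unusedSectionVars false

namespace Pool.Agent.Helper86.MT

variable {Ω : Type} [Field Ω] {Φ : Frame Ω}

theorem IsPl.mono {F F' : Set ℤ} {Y Y' : Set Ω} {ρ : Ω → Option Ω} (h : IsPl Φ F Y ρ)
    (hF : F' ⊆ F) (hY : Y' ⊆ Y) : IsPl Φ F' Y' ρ where
  add x hx y hy z hz := h.add x (hY hx) y (hY hy) z (hY hz)
  sub x hx y hy z hz := h.sub x (hY hx) y (hY hy) z (hY hz)
  mul x hx y hy z hz := h.mul x (hY hx) y (hY hy) z (hY hz)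
  inv x hx y hy := h.inv x (hY hx) y (hY hy)
  const n hn hY' := h.const n (hF hn) (hY hY')
  filt := by
    obtain ⟨σ, h1, h2⟩ := h.filt
    exact ⟨σ, fun i y hy => h1 i y (hY hy), fun i hi => h2 i (hY hi)⟩

theorem isPl_some (F : Set ℤ) (Y : Set Ω) : IsPl Φ F Y (fun x => some x) where
  add x _ y _ z _ hxy a b ha hb := by
    simp only [Option.some.injEq] at ha hb ⊢
    rw [← ha, ← hb, hxy]
  sub x _ y _ z _ hxy a b ha hb := by
    simp only [Option.some.injEq] at ha hb ⊢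
    rw [← ha, ← hb, ← hxy]
    ring
  mul x _ y _ z _ hxy a b ha hb := by
    simp only [Option.some.injEq] at ha hb ⊢
    rw [← ha, ← hb, hxy]
  inv x _ y _ hxy := Or.inr (Or.inr ⟨x, y, rfl, rfl, hxy⟩)
  const n _ _ := rfl
  filt := ⟨id, fun i y _ hy a ha => by
    simp only [Option.some.injEq] at ha
    rw [← ha]
    exact hy, fun i _ => rfl⟩

theorem IsPl.comp {F : Set ℤ} {Y : Set Ω} {ρ ρ' : Ω → Option Ω} (h0 : (0 : ℤ) ∈ F)
    (h : IsPl Φ F Y ρ) (h' : IsPl Φ F {y | ∃ x ∈ Y, ρ x = some y} ρ') :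
    IsPl Φ F Y (fun x => (ρ x).bind ρ') := by
  have key : ∀ x a', (ρ x).bind ρ' = some a' → ∃ a, ρ x = some a ∧ ρ' a = some a' := by
    intro x a' hx
    exact Option.bind_eq_some_iff.1 hx
  have zero : ∀ x ∈ Y, ρ x = some 0 → ρ' 0 = some 0 := by
    intro x hx h1
    have := h'.const 0 h0 ⟨x, hx, by simpa using h1⟩
    simpa using this
  refine ⟨?_, ?_, ?_, ?_, ?_, ?_⟩
  · intro x hx y hy z hz hxy a' b' ha hb
    obtain ⟨a, ha1, ha2⟩ := key x a' ha
    obtain ⟨b, hb1, hb2⟩ := key y b' hb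
    have h1 := h.add x hx y hy z hz hxy a b ha1 hb1
    simp only [h1, Option.bind_some]
    exact h'.add a ⟨x, hx, ha1⟩ b ⟨y, hy, hb1⟩ (a + b) ⟨z, hz, h1⟩ rfl a' b' ha2 hb2
  · intro x hx y hy z hz hxy a' c' ha hc
    obtain ⟨a, ha1, ha2⟩ := key x a' ha
    obtain ⟨c, hc1, hc2⟩ := key z c' hc
    have h1 := h.sub x hx y hy z hz hxy a c ha1 hc1
    simp only [h1, Option.bind_some]
    exact h'.sub a ⟨x, hx, ha1⟩ (c - a) ⟨y, hy, h1⟩ c ⟨z, hz, hc1⟩ (by ring) a' c' ha2 hc2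
  · intro x hx y hy z hz hxy a' b' ha hb
    obtain ⟨a, ha1, ha2⟩ := key x a' ha
    obtain ⟨b, hb1, hb2⟩ := key y b' hb
    have h1 := h.mul x hx y hy z hz hxy a b ha1 hb1
    simp only [h1, Option.bind_some]
    exact h'.mul a ⟨x, hx, ha1⟩ b ⟨y, hy, hb1⟩ (a * b) ⟨z, hz, h1⟩ rfl a' b' ha2 hb2
  · intro x hx y hy hxy
    rcases h.inv x hx y hy hxy with ⟨h1, h2⟩ | ⟨h1, h2⟩ | ⟨a, b, h1, h2, h3⟩
    · left
      simp only [h1, h2, Option.bind_none, Option.bind_some, true_and]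
      exact zero y hy h2
    · right; left
      simp only [h1, h2, Option.bind_none, Option.bind_some, and_true]
      exact zero x hx h1
    · simp only [h1, h2, Option.bind_some]
      exact h'.inv a ⟨x, hx, h1⟩ b ⟨y, hy, h2⟩ h3
  · intro n hn hY
    have h1 := h.const n hn hY
    simp only [h1, Option.bind_some]
    exact h'.const n hn ⟨_, hY, h1⟩
  · obtain ⟨σ, h1, h2⟩ := h.filt
    obtain ⟨σ', h1', h2'⟩ := h'.filt
    refine ⟨fun i => σ' (σ i), ?_, ?_⟩
    · intro i y hy hyi a' ha'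
      obtain ⟨a, ha1, ha2⟩ := key y a' ha'
      exact h1' (σ i) a ⟨y, hy, ha1⟩ (h1 i y hy hyi a ha1) a' ha2
    · intro i hi
      simp only [h2 i hi, Option.bind_some]
      exact h2' (σ i) ⟨_, hi, h2 i hi⟩

theorem tr_self (ρ : ℕ → Ω → Option Ω) {s t : ℕ} (h : t ≤ s) (x : Ω) : tr ρ s t x = some x := by
  cases t with
  | zero => rfl
  | succ t => simp [tr, show ¬ s ≤ t by omega]

theorem tr_succ (ρ : ℕ → Ω → Option Ω) {s t : ℕ} (h : s ≤ t) (x : Ω) :
    tr ρ s (t + 1) x = (ρ t x).bind (tr ρ s t) := by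
  simp [tr, h]

theorem tr_trans (ρ : ℕ → Ω → Option Ω) {s u t : ℕ} (h : s ≤ u) (h' : u ≤ t) (x : Ω) :
    tr ρ s t x = (tr ρ u t x).bind (tr ρ s u) := by
  induction t, h' using Nat.le_induction generalizing x with
  | base => rw [tr_self ρ le_rfl]; rfl
  | succ t ht ih =>
    rw [tr_succ ρ (h.trans ht), tr_succ ρ ht]
    cases hx : ρ t x with
    | none => rfl
    | some y => simp only [Option.bind_some]; exact ih y

theorem tr_congr {ρ ρ' : ℕ → Ω → Option Ω} {s t : ℕ} (h : ∀ u, s ≤ u → u < t → ρ u = ρ' u) :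
    tr ρ s t = tr ρ' s t := by
  induction t with
  | zero => rfl
  | succ t ih =>
    funext x
    by_cases hs : s ≤ t
    · rw [tr_succ ρ hs, tr_succ ρ' hs, h t hs (Nat.lt_succ_self t),
        ih (fun u h1 h2 => h u h1 (by omega))]
    · rw [tr_self ρ (by omega), tr_self ρ' (by omega)]

theorem tr_one (ρ : ℕ → Ω → Option Ω) (s : ℕ) (x : Ω) : tr ρ s (s + 1) x = ρ s x := by
  rw [tr_succ ρ le_rfl]
  cases ρ s x with
  | none => rfl
  | some y => simp only [Option.bind_some]; exact tr_self ρ le_rfl y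

/-- the last step at the bottom -/
theorem tr_bot (ρ : ℕ → Ω → Option Ω) {s t : ℕ} (h : s < t) (x : Ω) :
    tr ρ s t x = (tr ρ (s + 1) t x).bind (ρ s) := by
  rw [tr_trans ρ (Nat.le_succ s) h]
  congr 1
  funext y
  exact tr_one ρ s y

variable {S : Sys Φ} {u t : ℕ} {X : Finset (Ω × ℕ)} {ρ : ℕ → Ω → Option Ω}

theorem Tk_mono {X' : Finset (Ω × ℕ)} (hX : X' ⊆ X) (s : ℕ) : Tk ρ t X' s ⊆ Tk ρ t X s := by
  rintro y ⟨p, hp, h1, h2⟩
  exact ⟨p, hX hp, h1, h2⟩

theorem Mod.mono (h : Mod S u t X ρ) {u' : ℕ} (hu : u ≤ u') {X' : Finset (Ω × ℕ)} (hX : X' ⊆ X) :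
    Mod S u' t X' ρ where
  pl s h1 h2 := (h.pl s (hu.trans h1) h2).mono le_rfl (Tk_mono hX s)
  var s h1 h2 h3 := h.var s (hu.trans h1) h2 (Tk_mono hX s h3)

theorem Mod.congr (h : Mod S u t X ρ) {ρ' : ℕ → Ω → Option Ω}
    (hρ : ∀ s, u ≤ s → s < t → ρ s = ρ' s) : Mod S u t X ρ' := by
  have key : ∀ s, u ≤ s → Tk ρ' t X s = Tk ρ t X s := by
    intro s hs
    simp only [Tk]
    rw [tr_congr (ρ := ρ) (ρ' := ρ') (s := s + 1) (t := t)
      (fun w h1 h2 => hρ w (by omega) h2)]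
  refine ⟨fun s h1 h2 => ?_, fun s h1 h2 h3 => ?_⟩
  · rw [key s h1, ← hρ s h1 h2]
    exact h.pl s h1 h2
  · rw [key s h1] at h3
    rw [← hρ s h1 h2]
    exact h.var s h1 h2 h3

theorem zero_mem_Fin' (H : ℕ) : (0 : ℤ) ∈ Fin' H := by
  simp [Fin']

theorem Fin'_mono {H H' : ℕ} (h : H ≤ H') : Fin' H ⊆ Fin' H' := by
  intro n hn
  simp only [Fin', Set.mem_ofPred_eq] at hn ⊢
  exact hn.trans (by exact_mod_cast h)

/-- the composite of the partial places is a partial place -/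
theorem Mod.isPl (h : Mod S u t X ρ) {w : ℕ} (hu : u ≤ w) :
    IsPl Φ (Fin' (S.H w)) {x | ∃ b ≤ w, (x, b) ∈ X} (tr ρ w t) := by
  by_cases hw : t ≤ w
  · have : tr ρ w t = fun x => some x := by
      funext x
      exact tr_self ρ hw x
    rw [this]
    exact isPl_some _ _
  · push Not at hw
    obtain ⟨n, hn⟩ : ∃ n, w + n = t := ⟨t - w, by omega⟩
    induction n generalizing w with
    | zero => omega
    | succ n ih =>
      have h1 : IsPl Φ (Fin' (S.H (w + 1))) {x | ∃ b ≤ w + 1, (x, b) ∈ X} (tr ρ (w + 1) t) := by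
        by_cases hw1 : w + 1 < t
        · exact ih (by omega) hw1 (by omega)
        · have : tr ρ (w + 1) t = fun x => some x := by
            funext x
            exact tr_self ρ (by omega) x
          rw [this]
          exact isPl_some _ _
      have h2 := h.pl w hu hw
      have h3 : tr ρ w t = fun x => (tr ρ (w + 1) t x).bind (ρ w) := by
        funext x
        exact tr_bot ρ hw x
      rw [h3]
      refine IsPl.comp (zero_mem_Fin' _) (h1.mono (Fin'_mono (S.H_mono _ _ (by omega))) ?_) ?_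
      · rintro x ⟨b, hb, hx⟩
        exact ⟨b, by omega, hx⟩
      · refine h2.mono le_rfl ?_
        rintro y ⟨x, ⟨b, hb, hx⟩, hxy⟩
        exact ⟨(x, b), hx, hb, hxy⟩

/-- small integers are fixed -/
theorem Mod.tr_const (h : Mod S u t X ρ) {w b : ℕ} (hu : u ≤ w) {n : ℤ} (hn : |n| ≤ (S.H w : ℤ))
    (hX : ((n : Ω), b) ∈ X) (hb : b ≤ w) : tr ρ w t (n : Ω) = some (n : Ω) :=
  (h.isPl hu).const n hn ⟨b, hb, hX⟩

/-- the image of the variable of the block `s` -/
theorem Mod.tr_var (h : Mod S u t X ρ) {s b : ℕ} (hu : u ≤ s) (hs : s < t)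
    (hX : ((S.v s : Ω), b) ∈ X) (hb : b ≤ s) :
    tr ρ s t (S.v s : Ω) = target Φ S.A S.l S.f S.v s := by
  have h1 : tr ρ (s + 1) t (S.v s : Ω) = some (S.v s : Ω) :=
    h.tr_const (by omega) (S.v_le s (s + 1) (Nat.lt_succ_self s)) hX (by omega)
  rw [tr_bot ρ hs, h1, Option.bind_some]
  exact h.var s hu hs ⟨_, hX, hb, h1⟩

/-- zero stays zero -/
theorem Mod.tr_zero (h : Mod S u t X ρ) {x : Ω} {b w w' : ℕ} (hX : (x, b) ∈ X) (hu : u ≤ w')
    (hb : b ≤ w') (hw : w' ≤ w) (hx : tr ρ w t x = some 0) : tr ρ w' t x = some 0 := by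
  induction w, hw using Nat.le_induction with
  | base => exact hx
  | succ w hw ih =>
    apply ih
    by_cases ht : w < t
    · rw [tr_bot ρ ht, hx, Option.bind_some]
      have := (h.pl w (hu.trans hw) ht).const 0 (zero_mem_Fin' _)
        ⟨(x, b), hX, hb.trans hw, by simpa using hx⟩
      simpa using this
    · rw [tr_self ρ (by omega)] at hx ⊢
      exact hx

/-- the same tracked elements at a smaller top level -/
theorem Mod.merge (h : Mod S u t X ρ) {t' : ℕ} (h1 : u < t') (h2 : t' ≤ t) :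
    ∃ ρ', Mod S u t' X ρ' ∧ (∀ x, tr ρ' u t' x = tr ρ u t x) ∧
      ∀ s, s < t' → ∀ w x, tr ρ' w s x = tr ρ w s x := by
  obtain ⟨k, rfl⟩ : ∃ k, t' = k + 1 := ⟨t' - 1, by omega⟩
  set ρ' : ℕ → Ω → Option Ω := fun s => if s = k then tr ρ k t else ρ s with hρ'
  have h3 : ∀ s, s < k + 1 → ∀ w, tr ρ' w s = tr ρ w s := by
    intro s hs w
    refine tr_congr fun v _ hv => ?_
    simp only [hρ', show v ≠ k by omega, if_false]
  have h4 : ∀ w, w ≤ k → ∀ x, tr ρ' w (k + 1) x = tr ρ w t x := by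
    intro w hw x
    rw [tr_succ ρ' hw, h3 k (by omega), tr_trans ρ hw (by omega)]
    simp only [hρ', if_true]
  refine ⟨ρ', ⟨?_, ?_⟩, fun x => h4 u (by omega) x, fun s hs w x => by rw [h3 s hs w]⟩
  · intro s hs hsk
    by_cases hk : s = k
    · subst hk
      have h5 : Tk ρ' (s + 1) X s = {x | ∃ b ≤ s, (x, b) ∈ X} := by
        ext y
        simp only [Tk, Set.mem_ofPred_eq]
        constructor
        · rintro ⟨⟨x, b⟩, hp, hb, hy⟩
          rw [tr_self ρ' le_rfl] at hy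
          simp only [Option.some.injEq] at hy
          subst hy
          exact ⟨b, hb, hp⟩
        · rintro ⟨b, hb, hp⟩
          exact ⟨(y, b), hp, hb, tr_self ρ' le_rfl _⟩
      rw [h5]
      simp only [hρ', if_true]
      exact h.isPl hs
    · have h5 : Tk ρ' (k + 1) X s = Tk ρ t X s := by
        ext y
        simp only [Tk, Set.mem_ofPred_eq, h4 (s + 1) (by omega)]
      rw [h5]
      simp only [hρ', hk, if_false]
      exact h.pl s hs (by omega)
  · intro s hs hsk h6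
    by_cases hk : s = k
    · subst hk
      simp only [hρ', if_true]
      obtain ⟨⟨x, b⟩, hp, hb, hy⟩ := h6
      rw [tr_self ρ' le_rfl] at hy
      simp only [Option.some.injEq] at hy
      subst hy
      exact h.tr_var hs (by omega) hp hb
    · have h5 : Tk ρ' (k + 1) X s = Tk ρ t X s := by
        ext y
        simp only [Tk, Set.mem_ofPred_eq, h4 (s + 1) (by omega)]
      rw [h5] at h6
      simp only [hρ', hk, if_false]
      exact h.var s hs (by omega) h6

end Pool.Agent.Helper86.MT
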