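import Mathlib

/-!
# A minimal ring topology on `ℤ` without closed ideals: definitions

The construction: integers `v 0, v 1, ...` (the *blocks*), chosen one after another, extremely large.
A *partial place* is a map `Ω → Option Ω` (`none` is the value `∞`) which respects the field
operations on a finite set, fixes small integers and sends `v s` to a prescribed target. A *model*
is a chain of partial places, one for every block.
-/

open Finset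

namespace Pool.Agent.Helper86.MT

/-- A tower of algebraically closed subfields `Om i` with elements `bt i ∈ Om (i+1)`,
transcendental over `Om i`. -/
structure Frame (Ω : Type) [Field Ω] where
  Om : ℕ → Subfield Ω
  bt : ℕ → Ω
  closed : ∀ i, IsAlgClosed (Om i)
  mono : ∀ i j, i ≤ j → Om i ≤ Om j
  mem : ∀ i, bt i ∈ Om (i + 1)
  gen : ∀ i, Transcendental (Om i) (bt i)

/-- `ρ` behaves like a place on the set `Y`; it fixes the integers of `F` and respects the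
tower (with a shift `σ` of the indices). -/
structure IsPl {Ω : Type} [Field Ω] (Φ : Frame Ω) (F : Set ℤ) (Y : Set Ω)
    (ρ : Ω → Option Ω) : Prop where
  add : ∀ x ∈ Y, ∀ y ∈ Y, ∀ z ∈ Y, x + y = z →
    ∀ a b, ρ x = some a → ρ y = some b → ρ z = some (a + b)
  sub : ∀ x ∈ Y, ∀ y ∈ Y, ∀ z ∈ Y, x + y = z →
    ∀ a c, ρ x = some a → ρ z = some c → ρ y = some (c - a)
  mul : ∀ x ∈ Y, ∀ y ∈ Y, ∀ z ∈ Y, x * y = z →
    ∀ a b, ρ x = some a → ρ y = some b → ρ z = some (a * b)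
  inv : ∀ x ∈ Y, ∀ y ∈ Y, x * y = 1 →
    (ρ x = none ∧ ρ y = some 0) ∨ (ρ x = some 0 ∧ ρ y = none) ∨
      ∃ a b, ρ x = some a ∧ ρ y = some b ∧ a * b = 1
  const : ∀ n ∈ F, (n : Ω) ∈ Y → ρ (n : Ω) = some (n : Ω)
  filt : ∃ σ : ℕ → ℕ, (∀ i, ∀ y ∈ Y, y ∈ Φ.Om i → ∀ a, ρ y = some a → a ∈ Φ.Om (σ i)) ∧
    ∀ i, Φ.bt i ∈ Y → ρ (Φ.bt i) = some (Φ.bt (σ i))

/-- integers of absolute value at most `H` -/
def Fin' (H : ℕ) : Set ℤ := {n | |n| ≤ (H : ℤ)}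

/-- the elements tracked at the cost `e b` per element with depth `b` -/
noncomputable def e (b : ℕ) : ℝ := (1 / 4 : ℝ) ^ (b + 3)

/-- the size of the sets on which the partial places of the block `s` are defined -/
def Nb (s : ℕ) : ℕ := 4 ^ (s + 3)

/-- the length of the tuples -/
def R (m : ℕ) : ℕ := 2 ^ (3 ^ (m + 2))

open Classical in
/-- the target of `v s`: `∞`, or `1 / (c (c f + β₀))` with `c = v (l s)`, `f = f s` -/
noncomputable def target {Ω : Type} [Field Ω] (Φ : Frame Ω) (A : Set ℕ) (l : ℕ → ℕ) (f v : ℕ → ℤ)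
    (s : ℕ) : Option Ω :=
  if s ∈ A then some (((v (l s) : Ω) * ((v (l s) : Ω) * (f s : Ω) + Φ.bt 0))⁻¹) else none

/-- **A system of blocks.** -/
structure Sys {Ω : Type} [Field Ω] (Φ : Frame Ω) where
  /-- the blocks of the type `(f s, l s)`; the other blocks have the target `∞` -/
  A : Set ℕ
  l : ℕ → ℕ
  f : ℕ → ℤ
  v : ℕ → ℤ
  H : ℕ → ℕ
  l_lt : ∀ s ∈ A, l s < s
  l_notin : ∀ s ∈ A, l s ∉ A
  f_ne : ∀ s ∈ A, f s ≠ 0
  v_ne : ∀ s, v s ≠ 0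
  H_pos : ∀ s, 1 ≤ H s
  H_mono : ∀ s t, s ≤ t → H s ≤ H t
  v_le : ∀ s t, s < t → |v s| ≤ (H t : ℤ)
  f_le : ∀ s ∈ A, |f s| ≤ (H s : ℤ)
  v_dvd : ∀ n s : ℕ, 1 ≤ n → n ≤ s → (n : ℤ) ∣ v s
  exists_c : ∀ n, ∃ k, n ≤ k ∧ k ∉ A
  exists_a : ∀ k, k ∉ A → ∀ g : ℤ, g ≠ 0 → ∃ s ∈ A, l s = k ∧ f s = g
  pl : ∀ (s : ℕ) (Y : Finset Ω), Y.card ≤ Nb s →
    ∃ ρ : Ω → Option Ω, IsPl Φ (Fin' (H s)) Y ρ ∧
      ((v s : Ω) ∈ Y → ρ (v s : Ω) = target Φ A l f v s)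

section

variable {Ω : Type}

/-- `tr ρ s t x` is the image at the level `s` of the element `x` of the level `t` -/
def tr (ρ : ℕ → Ω → Option Ω) (s : ℕ) : ℕ → Ω → Option Ω
  | 0, x => some x
  | t + 1, x => if s ≤ t then (ρ t x).bind (tr ρ s t) else some x

/-- the images at the level `s + 1` of the tracked elements -/
def Tk (ρ : ℕ → Ω → Option Ω) (t : ℕ) (X : Finset (Ω × ℕ)) (s : ℕ) : Set Ω :=
  {y | ∃ p ∈ X, p.2 ≤ s ∧ tr ρ (s + 1) t p.1 = some y}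

/-- the cost of a set of tracked elements -/
noncomputable def costX (X : Finset (Ω × ℕ)) : ℝ := ∑ p ∈ X, e p.2

end

/-- the cost of a family of tuples; a tuple is `(T, j, m)`, where `T` is a set of blocks -/
noncomputable def costT (TT : Finset (Finset ℕ × ℕ × ℕ)) : ℝ := ∑ p ∈ TT, (1 / 3 : ℝ) ^ p.2.2

section

variable {Ω : Type} [Field Ω] {Φ : Frame Ω}

/-- `ρ` is a model on the blocks `[u, t)` -/
structure Mod (S : Sys Φ) (u t : ℕ) (X : Finset (Ω × ℕ)) (ρ : ℕ → Ω → Option Ω) : Prop where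
  pl : ∀ s, u ≤ s → s < t → IsPl Φ (Fin' (S.H s)) (Tk ρ t X s) (ρ s)
  var : ∀ s, u ≤ s → s < t → (S.v s : Ω) ∈ Tk ρ t X s →
    ρ s (S.v s : Ω) = target Φ S.A S.l S.f S.v s

/-- combinatorial conditions on a tuple -/
structure Tup (S : Sys Φ) (p : Finset ℕ × ℕ × ℕ) : Prop where
  sub : ∀ s ∈ p.1, s ∈ S.A
  disj : ∀ s ∈ p.1, ∀ s' ∈ p.1, s < s' → s ≤ S.l s'
  big : 3 ^ p.2.1 * R p.2.2 ≤ p.1.card

/-- `f s` does not become zero at the level `l s` -/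
def Alive (S : Sys Φ) (ρ : ℕ → Ω → Option Ω) (s : ℕ) : Prop :=
  tr ρ (S.l s) s (S.f s : Ω) ≠ some 0

/-- every tuple of the family has a member which is alive -/
def Kill (S : Sys Φ) (ρ : ℕ → Ω → Option Ω) (TT : Finset (Finset ℕ × ℕ × ℕ)) : Prop :=
  ∀ p ∈ TT, ∃ s ∈ p.1, Alive S ρ s

/-- the block `s` is `j`-legitimate -/
def Leg (S : Sys Φ) (s j : ℕ) : Prop :=
  ∀ (X : Finset (Ω × ℕ)) (TT : Finset (Finset ℕ × ℕ × ℕ)),
    (∀ p ∈ TT, Tup S p) → (∀ p ∈ TT, ∀ s' ∈ p.1, S.l s ≤ S.l s' ∧ s' < s) →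
    (∀ p ∈ TT, ∀ s' ∈ p.1, ∀ _ : s' < s, Leg S s' p.2.1) →
    costX X + costT TT < (1 / 3 : ℝ) ^ j →
    ∃ ρ, Mod S (S.l s) s X ρ ∧ Kill S ρ TT ∧ Alive S ρ s
termination_by s

/-- the family of tuples lives on the blocks `[u, t)` -/
def Fam (S : Sys Φ) (u t : ℕ) (TT : Finset (Finset ℕ × ℕ × ℕ)) : Prop :=
  ∀ p ∈ TT, Tup S p ∧ ∀ s ∈ p.1, u ≤ S.l s ∧ s < t ∧ Leg S s p.2.1

theorem leg_iff (S : Sys Φ) (s j : ℕ) : Leg S s j ↔
    ∀ (X : Finset (Ω × ℕ)) (TT : Finset (Finset ℕ × ℕ × ℕ)), Fam S (S.l s) s TT →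
      costX X + costT TT < (1 / 3 : ℝ) ^ j →
      ∃ ρ, Mod S (S.l s) s X ρ ∧ Kill S ρ TT ∧ Alive S ρ s := by
  rw [Leg]
  constructor
  · intro h X TT hF hc
    exact h X TT (fun p hp => (hF p hp).1)
      (fun p hp s' hs' => ⟨((hF p hp).2 s' hs').1, ((hF p hp).2 s' hs').2.1⟩)
      (fun p hp s' hs' _ => ((hF p hp).2 s' hs').2.2) hc
  · intro h X TT h1 h2 h3 hc
    exact h X TT (fun p hp => ⟨h1 p hp, fun s' hs' => ⟨(h2 p hp s' hs').1, (h2 p hp s' hs').2,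
      h3 p hp s' hs' (h2 p hp s' hs').2⟩⟩) hc

/-- **The neighbourhoods of zero**: `x ∈ U j` if there is a certificate of cost less than `3⁻ʲ`
such that `x` becomes zero at the level `j` in all models of the certificate. -/
def U (S : Sys Φ) (j : ℕ) : Set ℤ :=
  {x | ∃ (t : ℕ) (X : Finset (Ω × ℕ)) (TT : Finset (Finset ℕ × ℕ × ℕ)), j < t ∧ Fam S j t TT ∧
    costX X + costT TT < (1 / 3 : ℝ) ^ j ∧ ((x : Ω), j) ∈ X ∧
    ∀ ρ, Mod S j t X ρ → Kill S ρ TT → tr ρ j t (x : Ω) = some 0}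

end

end Pool.Agent.Helper86.MT
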