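import Mathlib

/-!
# Extension of homomorphisms to an algebraically closed field (Lang)
-/

namespace Pool.Agent.Helper86.MT

namespace ExtAux

open Polynomial

variable {K E : Type} [Field K] [Field E]

/-- the graph of a homomorphism defined on a subring -/
def Fun (G : Subring (K × E)) : Prop := ∀ e : E, ((0 : K), e) ∈ G → e = 0

/-- elements with a nonzero value are units -/
theorem inv_mem {G : Subring (K × E)} (hG : Maximal Fun G) {y : K} {c : E} (h : (y, c) ∈ G)
    (hc : c ≠ 0) : (y⁻¹, c⁻¹) ∈ G := by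
  have hy : y ≠ 0 := by
    rintro rfl
    exact hc (hG.prop c h)
  let G' : Subring (K × E) :=
    { carrier := {z | ∃ n : ℕ, ((y, c) : K × E) ^ n * z ∈ G}
      mul_mem' := by
        rintro a b ⟨n, hn⟩ ⟨m, hm⟩
        refine ⟨n + m, ?_⟩
        have := G.mul_mem hn hm
        convert this using 1
        rw [pow_add]; ring
      one_mem' := ⟨0, by simpa using G.one_mem⟩
      add_mem' := by
        rintro a b ⟨n, hn⟩ ⟨m, hm⟩
        refine ⟨n + m, ?_⟩
        have := G.add_mem (G.mul_mem (G.pow_mem h m) hn) (G.mul_mem (G.pow_mem h n) hm)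
        convert this using 1
        rw [pow_add]; ring
      zero_mem' := ⟨0, by simpa using G.zero_mem⟩
      neg_mem' := by
        rintro a ⟨n, hn⟩
        refine ⟨n, ?_⟩
        rw [mul_neg]
        exact G.neg_mem hn }
  have h1 : Fun G' := by
    rintro e ⟨n, hn⟩
    have h2 : ((y, c) : K × E) ^ n * (0, e) = (0, c ^ n * e) := by
      ext <;> simp
    rw [h2] at hn
    have := hG.prop _ hn
    rcases mul_eq_zero.1 this with h3 | h3
    · exact absurd h3 (pow_ne_zero _ hc)
    · exact h3
  have h2 : G ≤ G' := fun z hz => ⟨0, by simpa using hz⟩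
  have h3 : G' ≤ G := hG.le_of_ge h1 h2
  apply h3
  refine ⟨1, ?_⟩
  have : ((y, c) : K × E) ^ 1 * (y⁻¹, c⁻¹) = 1 := by
    ext <;> simp [hy, hc]
  rw [this]
  exact G.one_mem

variable (G : Subring (K × E))

/-- first projection -/
def pa : G →+* K := (RingHom.fst K E).comp G.subtype

/-- second projection -/
def pb : G →+* E := (RingHom.snd K E).comp G.subtype

theorem pa_inj {G : Subring (K × E)} (hG : Fun G) : Function.Injective (pa G) := by
  rw [injective_iff_map_eq_zero]
  rintro ⟨⟨x, e⟩, h⟩ h0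
  simp only [pa, RingHom.comp_apply, Subring.coe_subtype, RingHom.coe_fst] at h0
  subst h0
  have := hG e h
  subst this
  rfl

theorem isUnit_of {G : Subring (K × E)} (hG : Maximal Fun G) {g : G} (h : pb G g ≠ 0) :
    IsUnit g := by
  obtain ⟨⟨y, c⟩, hg⟩ := g
  have hc : c ≠ 0 := h
  have hy : y ≠ 0 := by
    rintro rfl
    exact hc (hG.prop c hg)
  refine isUnit_iff_exists_inv.2 ⟨⟨(y⁻¹, c⁻¹), inv_mem hG hg hc⟩, ?_⟩
  apply Subtype.ext
  show ((y, c) : K × E) * (y⁻¹, c⁻¹) = 1
  ext <;> simp [hy, hc]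

theorem ker_isMaximal {G : Subring (K × E)} (hG : Maximal Fun G) :
    (RingHom.ker (pb G)).IsMaximal := by
  rw [Ideal.isMaximal_iff]
  refine ⟨by simp [RingHom.mem_ker], ?_⟩
  intro J x hJ hx hxJ
  have h1 : pb G x ≠ 0 := fun h => hx (by simpa [RingHom.mem_ker] using h)
  exact (Ideal.eq_top_of_isUnit_mem J hxJ (isUnit_of hG h1)) ▸ Submodule.mem_top

/-- **Key fact**: if `x` is not in the domain then `1` is in the ideal generated by the kernel. -/
theorem key [IsAlgClosed E] {G : Subring (K × E)} (hG : Maximal Fun G) {x : K}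
    (hx : x ∉ (pa G).range) :
    ∃ p : G[X], eval₂ (pa G) x p = 0 ∧ pb G (p.coeff 0) = 1 ∧
      ∀ i, 1 ≤ i → pb G (p.coeff i) = 0 := by
  set m := RingHom.ker (pb G) with hm
  haveI : m.IsMaximal := ker_isMaximal hG
  letI : Field (G ⧸ m) := Ideal.Quotient.field m
  let ψ : (G ⧸ m) →+* E := Ideal.Quotient.lift m (pb G) (fun a ha => ha)
  let q : G[X] →+* (G ⧸ m)[X] := mapRingHom (Ideal.Quotient.mk m)
  have hq : Function.Surjective q := by
    apply Polynomial.map_surjective
    exact Ideal.Quotient.mk_surjective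
  let J : Ideal G[X] := RingHom.ker (eval₂RingHom (pa G) x)
  by_cases hJ : J.map q = ⊤
  · have h1 : (1 : (G ⧸ m)[X]) ∈ J.map q := by rw [hJ]; exact Submodule.mem_top
    rw [Ideal.mem_map_iff_of_surjective q hq] at h1
    obtain ⟨p, hp, hp1⟩ := h1
    refine ⟨p, hp, ?_, ?_⟩
    · have h2 := congrArg (fun r => ψ (coeff r 0)) hp1
      simp only [q, coe_mapRingHom, coeff_map, coeff_one_zero, map_one] at h2
      simpa [ψ] using h2
    · intro i hi
      have h2 := congrArg (fun r => ψ (coeff r i)) hp1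
      simp only [q, coe_mapRingHom, coeff_map] at h2
      rw [coeff_one, if_neg (by omega), map_zero] at h2
      simpa [ψ] using h2
  · exfalso
    obtain ⟨f, hf⟩ : ∃ f, J.map q = Ideal.span {f} :=
      (IsPrincipalIdealRing.principal (J.map q)).principal
    obtain ⟨ξ, hξ⟩ : ∃ ξ : E, eval₂ ψ ξ f = 0 := by
      by_cases hf0 : f = 0
      · exact ⟨0, by rw [hf0, eval₂_zero]⟩
      · apply IsAlgClosed.exists_eval₂_eq_zero ψ f
        intro hd
        apply hJ
        rw [hf, Ideal.span_singleton_eq_top]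
        exact Polynomial.isUnit_iff_degree_eq_zero.2 hd
    let g : G[X] →+* K × E := (eval₂RingHom (pa G) x).prod (eval₂RingHom (pb G) ξ)
    have hfun : Fun g.range := by
      rintro e ⟨p, hp⟩
      have h1 : eval₂ (pa G) x p = 0 := congrArg Prod.fst hp
      have h2 : eval₂ (pb G) ξ p = e := congrArg Prod.snd hp
      have h3 : q p ∈ J.map q := Ideal.mem_map_of_mem q h1
      rw [hf, Ideal.mem_span_singleton] at h3
      obtain ⟨r, hr⟩ := h3
      have h4 : eval₂ ψ ξ (q p) = eval₂ (pb G) ξ p := by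
        simp only [q, coe_mapRingHom]
        rw [eval₂_map]
        congr 1
      rw [hr, eval₂_mul, hξ, zero_mul] at h4
      rw [← h2, ← h4]
    have hle : G ≤ g.range := by
      intro z hz
      refine ⟨C ⟨z, hz⟩, ?_⟩
      simp [g, pa, pb]
    have h5 : g.range ≤ G := hG.le_of_ge hfun hle
    have h6 : (x, ξ) ∈ G := h5 ⟨X, by simp [g]⟩
    exact hx ⟨⟨(x, ξ), h6⟩, rfl⟩

theorem val_ring [IsAlgClosed E] {G : Subring (K × E)} (hG : Maximal Fun G) {x : K}
    (hx : x ∉ (pa G).range) : x⁻¹ ∈ (pa G).range := by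
  by_contra hx'
  have hx0 : x ≠ 0 := by
    rintro rfl
    exact hx (zero_mem _)
  obtain ⟨p, hp, hp0, hpi⟩ := key hG hx
  obtain ⟨p', hp', hp0', hpi'⟩ := key hG hx'
  letI : Algebra G K := (pa G).toAlgebra
  have halg : algebraMap G K = pa G := rfl
  have hu : IsUnit (p.coeff 0) := isUnit_of hG (by rw [hp0]; exact one_ne_zero)
  haveI : Nontrivial G := (pa G).domain_nontrivial
  have hint : IsIntegral G x⁻¹ := by
    obtain ⟨u, hu⟩ := hu
    refine ⟨C (↑u⁻¹ : G) * p.reverse, ?_, ?_⟩
    · have h1 : p.trailingCoeff = u := by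
        rw [hu]
        apply Polynomial.trailingCoeff_eq_coeff_zero
        rw [← hu]; exact u.ne_zero
      have h2 : p.reverse.leadingCoeff = u := by rw [reverse_leadingCoeff, h1]
      rw [Monic, leadingCoeff_mul' (by rw [leadingCoeff_C, h2]; simp), leadingCoeff_C, h2]
      simp
    · rw [halg, eval₂_mul]
      letI := invertibleOfNonzero hx0
      have h3 := (eval₂_reverse_eq_zero_iff (pa G) x p).2 hp
      rw [invOf_eq_inv] at h3
      rw [h3, mul_zero]
  set S := Algebra.adjoin G {x⁻¹} with hS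
  haveI : Algebra.IsIntegral G S := Algebra.IsIntegral.adjoin (by simpa using hint)
  set m := RingHom.ker (pb G) with hm
  haveI : m.IsMaximal := ker_isMaximal hG
  have hinj : Function.Injective (algebraMap G S) := by
    have h1 : Function.Injective ((algebraMap S K).comp (algebraMap G S)) := by
      have : (algebraMap S K).comp (algebraMap G S) = pa G := by
        rw [← halg]; exact (IsScalarTower.algebraMap_eq G S K).symm
      rw [this]; exact pa_inj hG.prop
    rw [RingHom.coe_comp] at h1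
    exact Function.Injective.of_comp h1
  obtain ⟨Q, hQ, hQm⟩ := Ideal.exists_ideal_over_maximal_of_isIntegral (S := S) m
    (by rw [(RingHom.injective_iff_ker_eq_bot _).1 hinj]; exact bot_le)
  let z : S := ⟨x⁻¹, Algebra.self_mem_adjoin_singleton _ _⟩
  have h1 : aeval z p' = 0 := by
    apply Subtype.val_injective
    have : (algebraMap S K) (aeval z p') = aeval x⁻¹ p' := by
      rw [← aeval_algebraMap_apply]; rfl
    show (algebraMap S K) (aeval z p') = _
    rw [this, aeval_def, halg, hp']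
    rfl
  have hmQ : ∀ a : G, pb G a = 0 → algebraMap G S a ∈ Q := by
    intro a ha
    have : a ∈ Q.comap (algebraMap G S) := by rw [hQm]; exact ha
    exact this
  have h2 : (aeval z p' : S) - 1 ∈ Q := by
    rw [aeval_eq_sum_range, Finset.sum_range_succ']
    simp only [pow_zero, Algebra.smul_def, mul_one]
    rw [add_sub_assoc]
    refine Q.add_mem (Q.sum_mem fun i _ => ?_) ?_
    · exact Q.mul_mem_right _ (hmQ _ (hpi' _ (by omega)))
    · have h3 : pb G (p'.coeff 0 - 1) = 0 := by rw [map_sub, hp0', map_one, sub_self]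
      have := hmQ _ h3
      rwa [map_sub, map_one] at this
  rw [h1, zero_sub] at h2
  exact hQ.ne_top ((Ideal.eq_top_iff_one _).2 (by simpa using Q.neg_mem h2))

end ExtAux

open ExtAux in
/-- **A1** (Lang). A homomorphism from a subring of a field to an algebraically closed field
extends to a valuation ring. -/
theorem exists_extension {K E : Type} [Field K] [Field E] [IsAlgClosed E] (A : Subring K)
    (φ : A →+* E) : ∃ (B : Subring K) (ψ : B →+* E), A ≤ B ∧
      (∀ (x : A) (y : B), (x : K) = y → ψ y = φ x) ∧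
      (∀ x : K, x ∉ B → x⁻¹ ∈ B) ∧ ∀ y : B, ψ y = 0 → (y : K) ≠ 0 → (y : K)⁻¹ ∉ B := by
  let G0 : Subring (K × E) := (A.subtype.prod φ).range
  have hG0 : Fun G0 := by
    rintro e ⟨a, ha⟩
    have h1 : (a : K) = 0 := congrArg Prod.fst ha
    have h2 : φ a = e := congrArg Prod.snd ha
    have h3 : a = 0 := Subtype.ext h1
    rw [← h2, h3, map_zero]
  obtain ⟨G, hle, hG⟩ := zorn_le_nonempty₀ {G : Subring (K × E) | Fun G} (by
    intro c hc hchain y hy
    have hdir : DirectedOn (· ≤ ·) c := hchain.directedOn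
    refine ⟨sSup c, ?_, fun z hz => le_sSup hz⟩
    intro e he
    rw [Subring.mem_sSup_of_directedOn ⟨y, hy⟩ hdir] at he
    obtain ⟨g, hg, hg'⟩ := he
    exact hc hg e hg') G0 hG0
  have hG : Maximal Fun G := hG
  have hinj := pa_inj hG.prop
  let eq : G ≃+* (pa G).range := RingEquiv.ofBijective (pa G).rangeRestrict
    ⟨fun a b h => hinj (congrArg Subtype.val h), (pa G).rangeRestrict_surjective⟩
  have heq : ∀ (g : G) (y : (pa G).range), pa G g = y → eq.symm y = g := by
    intro g y h
    rw [RingEquiv.symm_apply_eq]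
    exact Subtype.ext h.symm
  refine ⟨(pa G).range, (pb G).comp eq.symm.toRingHom, ?_, ?_, ?_, ?_⟩
  · intro a ha
    exact ⟨⟨(a, φ ⟨a, ha⟩), hle ⟨⟨a, ha⟩, rfl⟩⟩, rfl⟩
  · intro x y hxy
    have h1 : ((x : K), φ x) ∈ G := hle ⟨x, rfl⟩
    have h2 : eq.symm y = ⟨((x : K), φ x), h1⟩ := heq _ _ hxy
    show pb G (eq.symm y) = _
    rw [h2]; rfl
  · intro x hx
    exact val_ring hG hx
  · intro y hy hy0 hy1
    obtain ⟨g, hg⟩ := y.2
    obtain ⟨g', hg'⟩ := hy1
    have h1 : eq.symm y = g := heq _ _ hg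
    have h2 : pb G g = 0 := by rw [← h1]; exact hy
    have h3 : g * g' = 1 := by
      apply hinj
      rw [map_mul, hg, hg', map_one, mul_inv_cancel₀ hy0]
    have h4 := congrArg (pb G) h3
    rw [map_mul, h2, zero_mul, map_one] at h4
    exact zero_ne_one h4

end Pool.Agent.Helper86.MT
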