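import Pool.Agent.Helper86.MT.Defs

/-!
# Block B: existence of the frame

`Ω = AlgebraicClosure (FractionRing (MvPolynomial ℕ ℚ))`, `bt i = X i` and `Om i` is the relative
algebraic closure in `Ω` of `ℚ(X j, j < i)`.
-/

namespace Pool.Agent.Helper86.MT

theorem exists_frame : ∃ (Ω : Type) (_ : Field Ω) (_ : CharZero Ω), Nonempty (Frame Ω) := by
  classical
  let F := FractionRing (MvPolynomial ℕ ℚ)
  let Ω := AlgebraicClosure F
  have : CharZero F := algebraRat.charZero F
  have : CharZero Ω := algebraRat.charZero Ω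
  let x : ℕ → Ω := fun i => algebraMap (MvPolynomial ℕ ℚ) Ω (MvPolynomial.X i)
  have hx : AlgebraicIndependent ℚ x := by
    have h1 := MvPolynomial.algebraicIndependent_X ℕ ℚ
    have hinj : Function.Injective (algebraMap (MvPolynomial ℕ ℚ) Ω) := by
      rw [IsScalarTower.algebraMap_eq (MvPolynomial ℕ ℚ) F Ω]
      exact (algebraMap F Ω).injective.comp (IsFractionRing.injective _ _)
    have h2 := h1.map' (f := Algebra.ofId (MvPolynomial ℕ ℚ) Ω |>.restrictScalars ℚ) hinj
    exact h2
  let K : ℕ → IntermediateField ℚ Ω := fun i => IntermediateField.adjoin ℚ (x '' {j | j < i})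
  have hK : ∀ i j, i ≤ j → K i ≤ K j := fun i j hij =>
    IntermediateField.adjoin.mono _ _ _ (Set.image_mono fun k (hk : k < i) => lt_of_lt_of_le hk hij)
  refine ⟨Ω, inferInstance, inferInstance, ⟨{
    Om := fun i => (algebraicClosure (K i) Ω).toSubfield
    bt := x
    closed := fun i => ?_
    mono := fun i j hij => ?_
    mem := fun i => ?_
    gen := fun i => ?_ }⟩⟩
  · exact (algebraicClosure.isAlgClosure (F := K i) (E := Ω)).isAlgClosed
  · intro y hy
    have hy' : IsAlgebraic (K i) y := mem_algebraicClosure_iff.1 hy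
    refine mem_algebraicClosure_iff.2 ?_
    let _ : Algebra (K i) (K j) := (IntermediateField.inclusion (hK i j hij)).toRingHom.toAlgebra
    have : IsScalarTower (K i) (K j) Ω := IsScalarTower.of_algebraMap_eq fun z => rfl
    exact hy'.tower_top (K j)
  · have h : x i ∈ K (i + 1) := IntermediateField.subset_adjoin _ _ ⟨i, Nat.lt_succ_self i, rfl⟩
    exact (algebraicClosure (K (i + 1)) Ω).algebraMap_mem ⟨x i, h⟩
  · have h1 : Transcendental (Algebra.adjoin ℚ (x '' {j | j < i})) (x i) :=
      hx.transcendental_adjoin (by simp)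
    have h2 : Transcendental (K i) (x i) := fun h => h1 (IntermediateField.isAlgebraic_adjoin_iff.1 h)
    exact h2.algebraicClosure

end Pool.Agent.Helper86.MT
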