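import Pool.Agent.Helper86.MT.Sel

/-!
# Existence of models (block F)
-/

open Finset

namespace Pool.Agent.Helper86.MT

namespace Gd

set_option linter.unusedSectionVars false

variable {Ω : Type}

theorem e_pos (b : ℕ) : 0 < e b := by unfold e; positivity

theorem e_succ (b : ℕ) : e (b + 1) = e b / 4 := by
  unfold e
  rw [show b + 1 + 3 = (b + 3) + 1 by ring, pow_succ]
  ring

theorem e_anti {b b' : ℕ} (h : b ≤ b') : e b' ≤ e b := by
  unfold e
  exact pow_le_pow_of_le_one (by norm_num) (by norm_num) (by omega)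

theorem tr_congr {ρ ρ' : ℕ → Ω → Option Ω} {s t : ℕ} (h : ∀ u, s ≤ u → u < t → ρ u = ρ' u) :
    tr ρ s t = tr ρ' s t := by
  induction t with
  | zero => rfl
  | succ t ih =>
    funext x
    by_cases hs : s ≤ t
    · simp only [tr, hs, if_true]
      rw [h t hs (Nat.lt_succ_self _), ih fun u h1 h2 => h u h1 (by omega)]
    · simp only [tr, hs, if_false]

theorem tr_of_le (ρ : ℕ → Ω → Option Ω) {s t : ℕ} (h : t ≤ s) (x : Ω) : tr ρ s t x = some x := by
  cases t with
  | zero => rfl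
  | succ t => simp [tr, show ¬ s ≤ t by omega]

theorem tr_trans (ρ : ℕ → Ω → Option Ω) {s u t : ℕ} (h : s ≤ u) (h' : u ≤ t) (x : Ω) :
    tr ρ s t x = (tr ρ u t x).bind (tr ρ s u) := by
  induction t generalizing x with
  | zero =>
    have : u = 0 := by omega
    subst this
    simp [tr]
  | succ t ih =>
    rcases Nat.lt_or_ge t u with hu | hu
    · have : u = t + 1 := by omega
      subst this
      rw [tr_of_le ρ le_rfl]
      rfl
    · simp only [tr, show s ≤ t by omega, hu, if_true]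
      rw [Option.bind_assoc]
      congr 1
      funext y
      exact ih hu y

section

variable [Field Ω] {Φ : Frame Ω}

theorem IsPl.mono' {F : Set ℤ} {Y Y' : Set Ω} {ρ : Ω → Option Ω} (h : IsPl Φ F Y ρ)
    (hY : Y' ⊆ Y) : IsPl Φ F Y' ρ where
  add x hx y hy z hz := h.add x (hY hx) y (hY hy) z (hY hz)
  sub x hx y hy z hz := h.sub x (hY hx) y (hY hy) z (hY hz)
  mul x hx y hy z hz := h.mul x (hY hx) y (hY hy) z (hY hz)
  inv x hx y hy := h.inv x (hY hx) y (hY hy)
  const n hn hy := h.const n hn (hY hy)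
  filt := by
    obtain ⟨σ, h1, h2⟩ := h.filt
    exact ⟨σ, fun i y hy => h1 i y (hY hy), fun i hi => h2 i (hY hi)⟩

theorem Tk_congr {ρ ρ' : ℕ → Ω → Option Ω} {s t : ℕ} {X : Finset (Ω × ℕ)}
    (h : ∀ u, s < u → u < t → ρ u = ρ' u) : Tk ρ t X s = Tk ρ' t X s := by
  unfold Tk
  rw [tr_congr (ρ := ρ) (ρ' := ρ') (s := s + 1) (t := t) fun u h1 h2 => h u (by omega) h2]

/-- the mass of a level -/
noncomputable def mu (X : Finset (Ω × ℕ)) (u : ℕ) : ℝ :=
  (e u - e (u + 1)) * ((X.filter fun p => p.2 ≤ u).card : ℝ)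

theorem mu_nonneg (X : Finset (Ω × ℕ)) (u : ℕ) : 0 ≤ mu X u :=
  mul_nonneg (sub_nonneg.2 (e_anti (Nat.le_succ u))) (Nat.cast_nonneg _)

theorem mu_eq (X : Finset (Ω × ℕ)) (u : ℕ) :
    mu X u = ∑ p ∈ X, if p.2 ≤ u then e u - e (u + 1) else 0 := by
  rw [mu, ← Finset.sum_filter, Finset.sum_const, nsmul_eq_mul, mul_comm]

theorem sum_Ico_ite {b u s : ℕ} (hu : u ≤ s) :
    ∑ v ∈ Ico u s, (if b ≤ v then e v - e (v + 1) else 0) =
      if b < s then e (max b u) - e s else 0 := by
  induction s, hu using Nat.le_induction with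
  | base =>
    simp only [Ico_self, sum_empty]
    split_ifs with h
    · rw [max_eq_right h.le, sub_self]
    · rfl
  | succ s hs ih =>
    rw [Finset.sum_Ico_succ_top hs, ih]
    by_cases h1 : b < s
    · simp only [h1, h1.le, show b < s + 1 by omega, if_true]
      ring
    · by_cases h2 : b = s
      · subst h2
        simp [max_eq_left hs]
      · simp [h1, show ¬ b ≤ s by omega, show ¬ b < s + 1 by omega]

theorem sum_mu (X : Finset (Ω × ℕ)) {u s : ℕ} (hu : u ≤ s) :
    ∑ v ∈ Ico u s, mu X v = ∑ p ∈ X, if p.2 < s then e (max p.2 u) - e s else 0 := by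
  simp_rw [mu_eq]
  rw [Finset.sum_comm]
  exact Finset.sum_congr rfl fun p _ => sum_Ico_ite hu

theorem sum_mu_le (X : Finset (Ω × ℕ)) (t : ℕ) : ∑ v ∈ range t, mu X v ≤ costX X := by
  rw [Finset.range_eq_Ico, sum_mu X (Nat.zero_le t)]
  unfold costX
  refine Finset.sum_le_sum fun p _ => ?_
  split_ifs with h
  · rw [Nat.max_zero]
    linarith [e_pos t]
  · exact (e_pos _).le

theorem sum_max_le (X : Finset (Ω × ℕ)) {u s : ℕ} (hu : u < s) :
    ∑ p ∈ X.filter (fun p => p.2 < s), e (max p.2 u) ≤ 4 / 3 * ∑ v ∈ Ico u s, mu X v := by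
  rw [sum_mu X hu.le, Finset.sum_filter, Finset.mul_sum]
  refine Finset.sum_le_sum fun p _ => ?_
  split_ifs with h
  · have h1 : e s ≤ e (max p.2 u) / 4 := by
      rw [← e_succ]
      exact e_anti (by omega)
    linarith
  · simp

open Classical in
/-- the tracked elements at the level `s`, seen from the level `u` -/
noncomputable def img (ρ : ℕ → Ω → Option Ω) (s t u : ℕ) (X : Finset (Ω × ℕ)) :
    Finset (Ω × ℕ) :=
  ((X.filter fun p => p.2 < s).biUnion fun p =>
    ((tr ρ s t p.1).toFinset).image fun y => (y, max p.2 u))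

theorem mem_img {ρ : ℕ → Ω → Option Ω} {s t u : ℕ} {X : Finset (Ω × ℕ)} {p : Ω × ℕ} {y : Ω}
    (hp : p ∈ X) (hs : p.2 < s) (hy : tr ρ s t p.1 = some y) :
    (y, max p.2 u) ∈ img ρ s t u X := by
  classical
  unfold img
  rw [Finset.mem_biUnion]
  refine ⟨p, Finset.mem_filter.2 ⟨hp, hs⟩, ?_⟩
  rw [Finset.mem_image]
  exact ⟨y, by simp [hy], rfl⟩

theorem sum_biUnion_le' {ι α : Type*} [DecidableEq α] (s : Finset ι) (g : ι → Finset α)
    (f : α → ℝ) (hf : ∀ a, 0 ≤ f a) : ∑ a ∈ s.biUnion g, f a ≤ ∑ i ∈ s, ∑ a ∈ g i, f a := by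
  classical
  induction s using Finset.induction_on with
  | empty => simp
  | insert i s hi ih =>
    rw [Finset.biUnion_insert, Finset.sum_insert hi]
    have h1 := Finset.sum_union_inter (s₁ := g i) (s₂ := s.biUnion g) (f := f)
    have h2 : 0 ≤ ∑ a ∈ g i ∩ s.biUnion g, f a := Finset.sum_nonneg fun a _ => hf a
    linarith

theorem costX_img_le (ρ : ℕ → Ω → Option Ω) {s t u : ℕ} (hu : u < s) (X : Finset (Ω × ℕ)) :
    costX (img ρ s t u X) ≤ 4 / 3 * ∑ v ∈ Ico u s, mu X v := by
  classical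
  refine le_trans ?_ (sum_max_le X hu)
  unfold costX img
  refine (sum_biUnion_le' _ _ _ fun a => (e_pos _).le).trans (Finset.sum_le_sum fun p _ => ?_)
  cases h : tr ρ s t p.1 with
  | none => simpa using (e_pos _).le
  | some y => simp

open Classical in
/-- truncated tuples -/
noncomputable def trc (l : ℕ → ℕ) (s : ℕ) (Q : Finset (Finset ℕ × ℕ × ℕ)) :
    Finset (Finset ℕ × ℕ × ℕ) :=
  Q.image fun q => (q.1.filter (fun s' => l s ≤ l s' ∧ s' < s), q.2.1, q.2.2 - 1)

theorem costT_trc_le (l : ℕ → ℕ) (s : ℕ) (Q : Finset (Finset ℕ × ℕ × ℕ))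
    (hQ : ∀ q ∈ Q, 1 ≤ q.2.2) :
    costT (trc l s Q) ≤ 3 * ∑ q ∈ Q, (1 / 3 : ℝ) ^ q.2.2 := by
  classical
  unfold costT trc
  have h1 : ∑ p ∈ Q.image (fun q : Finset ℕ × ℕ × ℕ =>
      (q.1.filter (fun s' => l s ≤ l s' ∧ s' < s), q.2.1, q.2.2 - 1)), (1 / 3 : ℝ) ^ p.2.2 ≤
      ∑ q ∈ Q, (1 / 3 : ℝ) ^ (q.2.2 - 1) := by
    rw [← Finset.biUnion_singleton]
    refine (sum_biUnion_le' _ _ _ fun a => by positivity).trans (Finset.sum_le_sum fun p _ => ?_)
    simp
  refine h1.trans ?_
  rw [Finset.mul_sum]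
  refine Finset.sum_le_sum fun q hq => ?_
  obtain ⟨n, hn⟩ : ∃ n, q.2.2 = n + 1 := ⟨q.2.2 - 1, by have := hQ q hq; omega⟩
  rw [hn, Nat.add_sub_cancel, pow_succ]
  linarith

/-- gluing -/
theorem glue {S : Sys Φ} {u s t : ℕ} {X : Finset (Ω × ℕ)} {ρ ρ' : ℕ → Ω → Option Ω}
    (hst : s ≤ t) (h : Mod S s t X ρ) (h' : Mod S u s (img ρ s t u X) ρ') :
    Mod S u t X (fun v => if v < s then ρ' v else ρ v) := by
  set τ : ℕ → Ω → Option Ω := fun v => if v < s then ρ' v else ρ v with hτ
  have h1 : ∀ v, s ≤ v → τ v = ρ v := fun v hv => by simp [hτ, hv]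
  have h2 : ∀ v, v < s → τ v = ρ' v := fun v hv => by simp [hτ, hv]
  have h3 : ∀ v, s ≤ v → Tk τ t X v = Tk ρ t X v := fun v hv =>
    Tk_congr fun w hw _ => h1 w (by omega)
  have h4 : ∀ v, u ≤ v → v < s → Tk τ t X v ⊆ Tk ρ' s (img ρ s t u X) v := by
    rintro v huv hvs y ⟨p, hp, hpv, hy⟩
    rw [tr_trans τ (show v + 1 ≤ s by omega) hst, tr_congr (s := s) (t := t)
      (fun w hw _ => h1 w hw)] at hy
    cases hx : tr ρ s t p.1 with
    | none => rw [hx] at hy; simp at hy
    | some x =>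
      rw [hx, Option.bind_some, tr_congr (s := v + 1) (t := s) (fun w _ hw => h2 w hw)] at hy
      exact ⟨(x, max p.2 u), mem_img hp (by omega) hx, by simp; omega, hy⟩
  refine ⟨fun v hv hvt => ?_, fun v hv hvt hm => ?_⟩
  · rcases Nat.lt_or_ge v s with hvs | hvs
    · rw [h2 v hvs]
      exact IsPl.mono' (h'.pl v hv hvs) (h4 v hv hvs)
    · rw [h1 v hvs, h3 v hvs]
      exact h.pl v hvs hvt
  · rcases Nat.lt_or_ge v s with hvs | hvs
    · rw [h2 v hvs]
      exact h'.var v hv hvs (h4 v hv hvs hm)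
    · rw [h1 v hvs]
      rw [h3 v hvs] at hm
      exact h.var v hvs hvt hm

/-- one step downwards -/
theorem step {S : Sys Φ} {u t : ℕ} {X : Finset (Ω × ℕ)} {ρ : ℕ → Ω → Option Ω}
    (h : Mod S (u + 1) t X ρ) (hX : costX X < 1) :
    ∃ ρ', Mod S u t X ρ' ∧ ∀ v, u < v → ρ' v = ρ v := by
  classical
  set Y : Finset Ω := (X.filter fun p => p.2 ≤ u).biUnion fun p =>
    (tr ρ (u + 1) t p.1).toFinset with hY
  have hYT : Tk ρ t X u = (Y : Set Ω) := by
    ext y
    simp only [Tk, Set.mem_ofPred_eq, hY, Finset.mem_coe, Finset.mem_biUnion, Finset.mem_filter,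
      Option.mem_toFinset, Option.mem_def]
    constructor
    · rintro ⟨p, h1, h2, h3⟩
      exact ⟨p, ⟨h1, h2⟩, h3⟩
    · rintro ⟨p, ⟨h1, h2⟩, h3⟩
      exact ⟨p, h1, h2, h3⟩
  have hcard : Y.card ≤ Nb u := by
    have h1 : Y.card ≤ (X.filter fun p => p.2 ≤ u).card := by
      refine Finset.card_biUnion_le.trans ?_
      rw [Finset.card_eq_sum_ones]
      refine Finset.sum_le_sum fun p _ => ?_
      cases tr ρ (u + 1) t p.1 <;> simp
    have h2 : ((X.filter fun p => p.2 ≤ u).card : ℝ) * e u < 1 := by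
      refine lt_of_le_of_lt ?_ hX
      rw [← nsmul_eq_mul, ← Finset.sum_const]
      refine (Finset.sum_le_sum fun p hp => e_anti (Finset.mem_filter.1 hp).2).trans ?_
      exact Finset.sum_le_sum_of_subset_of_nonneg (Finset.filter_subset _ _)
        fun p _ _ => (e_pos _).le
    have h3 : ((X.filter fun p => p.2 ≤ u).card : ℝ) < (4 : ℝ) ^ (u + 3) := by
      unfold e at h2
      rw [one_div, inv_pow, ← div_eq_mul_inv, div_lt_one (by positivity)] at h2
      exact h2
    have h4 : (X.filter fun p => p.2 ≤ u).card < 4 ^ (u + 3) := by exact_mod_cast h3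
    unfold Nb
    omega
  obtain ⟨r, hr, hv⟩ := S.pl u Y hcard
  refine ⟨Function.update ρ u r, ?_, fun v hv => Function.update_of_ne (by omega) _ _⟩
  have h1 : ∀ v, u < v → Function.update ρ u r v = ρ v :=
    fun v hv => Function.update_of_ne (by omega) _ _
  have h3 : ∀ v, u ≤ v → Tk (Function.update ρ u r) t X v = Tk ρ t X v := fun v hv =>
    Tk_congr fun w hw _ => h1 w (by omega)
  refine ⟨fun v hv hvt => ?_, fun v hv' hvt hm => ?_⟩
  · rw [h3 v hv]
    rcases Nat.eq_or_lt_of_le hv with rfl | hlt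
    · rw [Function.update_self, hYT]
      exact hr
    · rw [h1 v hlt]
      exact h.pl v (by omega) hvt
  · rw [h3 v hv'] at hm
    rcases Nat.eq_or_lt_of_le hv' with rfl | hlt
    · rw [Function.update_self]
      rw [hYT] at hm
      exact hv hm
    · rw [h1 v hlt]
      exact h.var v (by omega) hvt hm

theorem alive_congr {S : Sys Φ} {ρ ρ' : ℕ → Ω → Option Ω} {s : ℕ}
    (h : ∀ v, S.l s ≤ v → v < s → ρ v = ρ' v) (ha : Alive S ρ s) : Alive S ρ' s := by
  unfold Alive at *
  rwa [← tr_congr h]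

end

end Gd

open Gd in
theorem good {Ω : Type} [Field Ω] {Φ : Frame Ω} (S : Sys Φ) (t : ℕ) (X : Finset (Ω × ℕ))
    (TT : Finset (Finset ℕ × ℕ × ℕ)) (hF : Fam S 0 t TT) (hc : costX X + costT TT < 1) :
    ∃ ρ, Mod S 0 t X ρ ∧ Kill S ρ TT := by
  classical
  have hT0 : 0 ≤ costT TT := Finset.sum_nonneg fun _ _ => by positivity
  have hX1 : costX X < 1 := by linarith
  obtain ⟨sel, c, a, hsel, hcp, hcd, hap, hcost⟩ := selection S.A S.l S.l_lt TT
    (fun p hp => (hF p hp).1.sub) (fun p hp => (hF p hp).1.disj) (fun p hp => (hF p hp).1.big)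
    (mu X) (mu_nonneg X) t (fun p hp s hs => ((hF p hp).2 s hs).2.1)
    (lt_of_le_of_lt (add_le_add_left (sum_mu_le X t) _) hc)
  have hlc : ∀ p ∈ sel, S.l (c p) < c p := fun p hp =>
    S.l_lt _ ((hF p (hsel hp)).1.sub _ (hcp p hp))
  have hct : ∀ p ∈ sel, c p < t := fun p hp => ((hF p (hsel hp)).2 _ (hcp p hp)).2.1
  -- the main claim, by downward induction
  have key : ∀ n u, u + n = t → (∀ p ∈ sel, ¬ (S.l (c p) < u ∧ u < c p)) →
      ∃ ρ, Mod S u t X ρ ∧ ∀ p ∈ sel, u ≤ S.l (c p) → Alive S ρ (c p) ∧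
        ∀ q ∈ TT, q ∉ sel → a q = p → ∃ s' ∈ q.1, S.l (c p) ≤ S.l s' ∧ Alive S ρ s' := by
    intro n
    induction n using Nat.strong_induction_on with
    | _ n ih =>
      intro u hu hint
      rcases Nat.eq_zero_or_pos n with hn | hn
      · have hut : u = t := by omega
        subst hut
        refine ⟨fun _ _ => none, ⟨fun s h1 h2 => by omega, fun s h1 h2 => by omega⟩, ?_⟩
        intro p hp hle
        have h1 := hlc p hp
        have h2 := hct p hp
        omega
      by_cases hex : ∃ p ∈ sel, u = S.l (c p)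
      · obtain ⟨p, hp, hup⟩ := hex
        set s := c p with hs
        have hus : u < s := by rw [hup]; exact hlc p hp
        have hst : s < t := hct p hp
        have hints : ∀ q ∈ sel, ¬ (S.l (c q) < s ∧ s < c q) := by
          intro q hq ⟨h1, h2⟩
          by_cases hqp : q = p
          · subst hqp
            exact absurd h2 (lt_irrefl _)
          · rcases hcd q hq p hp hqp with h3 | h3
            · have := hlc p hp
              omega
            · omega
        obtain ⟨ρ, hM, hA⟩ := ih (t - s) (by omega) s (by omega) hints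
        -- the certificate
        have hLeg : Leg S s p.2.1 := ((hF p (hsel hp)).2 s (hcp p hp)).2.2
        rw [leg_iff] at hLeg
        set Q := TT.filter (fun q => q ∉ sel ∧ a q = p) with hQ
        have hFam : Fam S (S.l s) s (trc S.l s Q) := by
          intro q' hq'
          unfold trc at hq'
          rw [Finset.mem_image] at hq'
          obtain ⟨q, hq, rfl⟩ := hq'
          rw [hQ, Finset.mem_filter] at hq
          obtain ⟨hqT, hqs, hqa⟩ := hq
          obtain ⟨_, h2, h3⟩ := hap q hqT hqs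
          rw [hqa] at h3
          refine ⟨⟨fun s' hs' => (hF q hqT).1.sub _ (Finset.mem_filter.1 hs').1,
            fun s' hs' s'' hs'' => (hF q hqT).1.disj _ (Finset.mem_filter.1 hs').1 _
              (Finset.mem_filter.1 hs'').1, h3⟩, fun s' hs' => ?_⟩
          have h4 := (Finset.mem_filter.1 hs')
          exact ⟨h4.2.1, h4.2.2, ((hF q hqT).2 s' h4.1).2.2⟩
        have hcst : costX (img ρ s t u X) + costT (trc S.l s Q) < (1 / 3 : ℝ) ^ p.2.1 := by
          refine lt_of_le_of_lt ?_ (hcost p hp)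
          rw [← hup, ← hs]
          refine add_le_add (costX_img_le ρ hus X) (costT_trc_le _ _ _ fun q hq => ?_)
          rw [hQ, Finset.mem_filter] at hq
          exact (hap q hq.1 hq.2.1).2.1
        obtain ⟨ρ', hM', hK', hA'⟩ := hLeg _ _ hFam hcst
        rw [← hup] at hM'
        refine ⟨_, glue hst.le hM hM', ?_⟩
        intro p' hp' hup'
        by_cases hpp : p' = p
        · subst hpp
          refine ⟨alive_congr (fun v _ h2 => by simp [show v < s from h2]) hA', ?_⟩
          intro q hqT hqs hqa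
          have hq' : (q.1.filter (fun s' => S.l s ≤ S.l s' ∧ s' < s), q.2.1, q.2.2 - 1) ∈
              trc S.l s Q := by
            unfold trc
            rw [Finset.mem_image]
            exact ⟨q, by rw [hQ, Finset.mem_filter]; exact ⟨hqT, hqs, hqa⟩, rfl⟩
          obtain ⟨s', hs', hal⟩ := hK' _ hq'
          have h4 := Finset.mem_filter.1 hs'
          exact ⟨s', h4.1, h4.2.1, alive_congr
            (fun v _ h2 => by simp [show v < s by omega]) hal⟩
        · have hsl : s ≤ S.l (c p') := by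
            rcases hcd p' hp' p hp hpp with h3 | h3
            · have := hlc p' hp'
              have h3' : c p' ≤ S.l s := h3
              omega
            · exact h3
          obtain ⟨h1, h2⟩ := hA p' hp' hsl
          refine ⟨alive_congr (fun v h5 _ => by simp [show ¬ v < s by omega]) h1, ?_⟩
          intro q hqT hqs hqa
          obtain ⟨s', h3, h4, h5⟩ := h2 q hqT hqs hqa
          exact ⟨s', h3, h4, alive_congr (fun v h6 _ => by simp [show ¬ v < s by omega]) h5⟩
      · have hints : ∀ q ∈ sel, ¬ (S.l (c q) < u + 1 ∧ u + 1 < c q) := by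
          intro q hq ⟨h1, h2⟩
          refine hint q hq ⟨?_, by omega⟩
          rcases Nat.lt_or_ge (S.l (c q)) u with h3 | h3
          · exact h3
          · exact absurd ⟨q, hq, by omega⟩ hex
        obtain ⟨ρ, hM, hA⟩ := ih (n - 1) (by omega) (u + 1) (by omega) hints
        obtain ⟨ρ', hM', hρ'⟩ := step hM hX1
        refine ⟨ρ', hM', ?_⟩
        intro p hp hup
        have hup' : u + 1 ≤ S.l (c p) := by
          rcases Nat.eq_or_lt_of_le hup with h3 | h3
          · exact absurd ⟨p, hp, h3⟩ hex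
          · exact h3
        obtain ⟨h1, h2⟩ := hA p hp hup'
        refine ⟨alive_congr (fun v h5 _ => (hρ' v (by omega)).symm) h1, ?_⟩
        intro q hqT hqs hqa
        obtain ⟨s', h3, h4, h5⟩ := h2 q hqT hqs hqa
        exact ⟨s', h3, h4, alive_congr (fun v h6 _ => (hρ' v (by omega)).symm) h5⟩
  obtain ⟨ρ, hM, hA⟩ := key t 0 (by omega) (fun p _ h => by omega)
  refine ⟨ρ, hM, fun p hp => ?_⟩
  by_cases hps : p ∈ sel
  · exact ⟨c p, hcp p hps, (hA p hps (Nat.zero_le _)).1⟩
  · obtain ⟨h1, _⟩ := hap p hp hps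
    obtain ⟨s', h3, _, h5⟩ := (hA (a p) h1 (Nat.zero_le _)).2 p hp hps rfl
    exact ⟨s', h3, h5⟩

end Pool.Agent.Helper86.MT
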