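import Pool.Agent.Helper86.MT.Chain

/-!
# MP_e4e71e_al, block G: members of the neighbourhoods of zero
-/

open Finset

set_option linter.unusedSectionVars false

namespace Pool.Agent.Helper86.MT

namespace Mem

variable {Ω : Type} [Field Ω] {Φ : Frame Ω}

/-- `a + bt i` is not zero if `a` is in `Om i` -/
theorem add_bt_ne (Φ : Frame Ω) {i : ℕ} {a : Ω} (ha : a ∈ Φ.Om i) : a + Φ.bt i ≠ 0 := by
  intro h
  apply Φ.gen i
  have hb : Φ.bt i = algebraMap (Φ.Om i) Ω ⟨-a, neg_mem ha⟩ := by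
    rw [← neg_eq_of_add_eq_zero_right h]
    rfl
  rw [hb]
  exact isAlgebraic_algebraMap _

theorem tr_step (ρ : ℕ → Ω → Option Ω) {r t : ℕ} (h : r < t) (x : Ω) :
    tr ρ r t x = (tr ρ (r + 1) t x).bind (ρ r) := by
  rw [tr_trans ρ (Nat.le_succ r) h x]
  congr 1
  funext y
  rw [tr_succ ρ le_rfl, show tr ρ r r = fun x => some x from funext fun x => tr_self ρ le_rfl x]
  cases ρ r y <;> rfl

/-- the element `1 - v s c² f`, written as `w b` -/
noncomputable def hh (S : Sys Φ) (s : ℕ) : Ω :=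
  ((S.v (S.l s) : Ω) * (S.v s : Ω)) *
    (((S.v (S.l s) : Ω) * (S.v s : Ω))⁻¹ - (S.v (S.l s) : Ω) * (S.f s : Ω))

open Classical in
/-- the tracked elements of the block `s` -/
noncomputable def els (S : Sys Φ) (s : ℕ) : Finset Ω :=
  List.toFinset [(S.v (S.l s) : Ω), (S.v s : Ω), (S.f s : Ω), (S.v (S.l s) : Ω)⁻¹, (S.f s : Ω)⁻¹,
    (S.v (S.l s) : Ω) * (S.f s : Ω), ((S.v (S.l s) : Ω) * (S.f s : Ω))⁻¹,
    (S.v (S.l s) : Ω) * (S.v s : Ω), ((S.v (S.l s) : Ω) * (S.v s : Ω))⁻¹,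
    ((S.v (S.l s) : Ω) * (S.v s : Ω))⁻¹ - (S.v (S.l s) : Ω) * (S.f s : Ω), hh S s]

theorem card_els (S : Sys Φ) (s : ℕ) : (els S s).card ≤ 11 := by
  classical
  unfold els
  exact (List.toFinset_card_le _).trans le_rfl

variable [CharZero Ω]

theorem hh_eq (S : Sys Φ) (s : ℕ) :
    hh S s = ((1 - S.v s * S.v (S.l s) ^ 2 * S.f s : ℤ) : Ω) := by
  have h1 : (S.v (S.l s) : Ω) ≠ 0 := Int.cast_ne_zero.2 (S.v_ne _)
  have h2 : (S.v s : Ω) ≠ 0 := Int.cast_ne_zero.2 (S.v_ne _)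
  unfold hh
  push_cast
  field_simp

theorem core {S : Sys Φ} {u t p s : ℕ} {X : Finset (Ω × ℕ)} {ρ : ℕ → Ω → Option Ω}
    (h : Mod S u t X ρ) (hs : s ∈ S.A) (hst : s < t) (hup : u ≤ p) (hpk : p ≤ S.l s)
    (hX : ∀ x ∈ els S s, ∃ b ≤ p, (x, b) ∈ X) :
    tr ρ (S.l s) t (S.v s : Ω) = some 0 ∧ (∃ a, tr ρ p t (hh S s) = some a) ∧
      (Alive S ρ s → tr ρ p t (hh S s) = some 0) := by
  classical
  have hks : S.l s < s := S.l_lt s hs
  obtain ⟨c, hc⟩ : ∃ c : Ω, c = (S.v (S.l s) : Ω) := ⟨_, rfl⟩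
  obtain ⟨V, hV⟩ : ∃ V : Ω, V = (S.v s : Ω) := ⟨_, rfl⟩
  obtain ⟨f, hf⟩ : ∃ f : Ω, f = (S.f s : Ω) := ⟨_, rfl⟩
  have hc0 : c ≠ 0 := by rw [hc]; exact Int.cast_ne_zero.2 (S.v_ne _)
  have hV0 : V ≠ 0 := by rw [hV]; exact Int.cast_ne_zero.2 (S.v_ne _)
  have hf0 : f ≠ 0 := by rw [hf]; exact Int.cast_ne_zero.2 (S.f_ne s hs)
  have hels : els S s = List.toFinset [c, V, f, c⁻¹, f⁻¹, c * f, (c * f)⁻¹, c * V, (c * V)⁻¹,
      (c * V)⁻¹ - c * f, (c * V) * ((c * V)⁻¹ - c * f)] := by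
    unfold els hh
    rw [← hc, ← hV, ← hf]
  have hhh : hh S s = (c * V) * ((c * V)⁻¹ - c * f) := by
    unfold hh
    rw [← hc, ← hV, ← hf]
  rw [hels] at hX
  have mem : ∀ r, p ≤ r → ∀ x ∈ [c, V, f, c⁻¹, f⁻¹, c * f, (c * f)⁻¹, c * V, (c * V)⁻¹,
      (c * V)⁻¹ - c * f, (c * V) * ((c * V)⁻¹ - c * f)], x ∈ {x | ∃ b ≤ r, (x, b) ∈ X} := by
    intro r hr x hx
    obtain ⟨b, hb, hbX⟩ := hX x (List.mem_toFinset.2 hx)
    exact ⟨b, hb.trans hr, hbX⟩
  have mc : ∀ r, p ≤ r → c ∈ {x | ∃ b ≤ r, (x, b) ∈ X} := fun r hr => mem r hr _ (by simp)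
  have mV : ∀ r, p ≤ r → V ∈ {x | ∃ b ≤ r, (x, b) ∈ X} := fun r hr => mem r hr _ (by simp)
  have mf : ∀ r, p ≤ r → f ∈ {x | ∃ b ≤ r, (x, b) ∈ X} := fun r hr => mem r hr _ (by simp)
  have mci : ∀ r, p ≤ r → c⁻¹ ∈ {x | ∃ b ≤ r, (x, b) ∈ X} := fun r hr => mem r hr _ (by simp)
  have mfi : ∀ r, p ≤ r → f⁻¹ ∈ {x | ∃ b ≤ r, (x, b) ∈ X} := fun r hr => mem r hr _ (by simp)
  have mz : ∀ r, p ≤ r → c * f ∈ {x | ∃ b ≤ r, (x, b) ∈ X} := fun r hr => mem r hr _ (by simp)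
  have mzi : ∀ r, p ≤ r → (c * f)⁻¹ ∈ {x | ∃ b ≤ r, (x, b) ∈ X} :=
    fun r hr => mem r hr _ (by simp)
  have mw : ∀ r, p ≤ r → c * V ∈ {x | ∃ b ≤ r, (x, b) ∈ X} := fun r hr => mem r hr _ (by simp)
  have mg : ∀ r, p ≤ r → (c * V)⁻¹ ∈ {x | ∃ b ≤ r, (x, b) ∈ X} :=
    fun r hr => mem r hr _ (by simp)
  have mb : ∀ r, p ≤ r → (c * V)⁻¹ - c * f ∈ {x | ∃ b ≤ r, (x, b) ∈ X} :=
    fun r hr => mem r hr _ (by simp)
  have mh : ∀ r, p ≤ r → (c * V) * ((c * V)⁻¹ - c * f) ∈ {x | ∃ b ≤ r, (x, b) ∈ X} :=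
    fun r hr => mem r hr _ (by simp)
  have hw0 : c * V ≠ 0 := mul_ne_zero hc0 hV0
  have hz0 : c * f ≠ 0 := mul_ne_zero hc0 hf0
  have hps : p ≤ s := hpk.trans hks.le
  -- the level `s`
  have hPs := h.isPl (hup.trans hps)
  have hVs : tr ρ s t V = some ((c * (c * f + Φ.bt 0))⁻¹) := by
    obtain ⟨b, hb, hbX⟩ := mV s hps
    rw [hV] at hbX ⊢
    rw [h.tr_var (hup.trans hps) hst hbX hb, target, if_pos hs, ← hc, ← hf]
  have hcs : tr ρ s t c = some c := by
    have h1 := hPs.const (S.v (S.l s)) (S.v_le _ _ hks) (by rw [← hc]; exact mc s hps)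
    rwa [← hc] at h1
  have hfs : tr ρ s t f = some f := by
    have h1 := hPs.const (S.f s) (S.f_le s hs) (by rw [← hf]; exact mf s hps)
    rwa [← hf] at h1
  have hzs : tr ρ s t (c * f) = some (c * f) :=
    hPs.mul c (mc s hps) f (mf s hps) _ (mz s hps) rfl c f hcs hfs
  have hcOm : c * f ∈ Φ.Om 0 := by
    rw [hc, hf]
    exact mul_mem (intCast_mem _ _) (intCast_mem _ _)
  have hcf0 : c * f + Φ.bt 0 ≠ 0 := add_bt_ne Φ hcOm
  have hws : tr ρ s t (c * V) = some ((c * f + Φ.bt 0)⁻¹) := by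
    rw [hPs.mul c (mc s hps) V (mV s hps) _ (mw s hps) rfl _ _ hcs hVs]
    congr 1
    field_simp
  have hgs : tr ρ s t (c * V)⁻¹ = some (c * f + Φ.bt 0) := by
    rcases hPs.inv _ (mw s hps) _ (mg s hps) (mul_inv_cancel₀ hw0) with h1 | h1 | ⟨a, a', h1, h2, h3⟩
    · rw [hws] at h1
      exact absurd h1.1 (by simp)
    · rw [hws] at h1
      exact absurd (Option.some_injective _ h1.1) (inv_ne_zero hcf0)
    · rw [hws] at h1
      have h4 : (c * f + Φ.bt 0)⁻¹ = a := Option.some_injective _ h1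
      rw [h2]
      congr 1
      rw [← h4, inv_mul_eq_one₀ hcf0] at h3
      exact h3.symm
  have hbs : tr ρ s t ((c * V)⁻¹ - c * f) = some (Φ.bt 0) := by
    rw [hPs.sub _ (mz s hps) _ (mb s hps) _ (mg s hps) (by ring) _ _ hzs hgs]
    congr 1
    ring
  -- lower levels
  have hQ : ∀ r, p ≤ r → r ≤ s → ∃ i, tr ρ r t ((c * V)⁻¹ - c * f) = some (Φ.bt i) ∧
      (tr ρ r t (c * f) = none ∨ ∃ a ∈ Φ.Om i, tr ρ r t (c * f) = some a) := by
    intro r hpr hrs
    refine Nat.decreasingInduction' (P := fun r => ∃ i,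
      tr ρ r t ((c * V)⁻¹ - c * f) = some (Φ.bt i) ∧
      (tr ρ r t (c * f) = none ∨ ∃ a ∈ Φ.Om i, tr ρ r t (c * f) = some a)) ?_ hrs
      ⟨0, hbs, Or.inr ⟨_, hcOm, hzs⟩⟩
    rintro k hk hrk ⟨i, h1, h2⟩
    have hkt : k < t := hk.trans hst
    obtain ⟨σ, h3, h4⟩ := (h.pl k (hup.trans (hpr.trans hrk)) hkt).filt
    refine ⟨σ i, ?_, ?_⟩
    · rw [tr_step ρ hkt, h1]
      obtain ⟨b, hb, hbX⟩ := mb k (hpr.trans hrk)
      exact h4 i ⟨_, hbX, hb, h1⟩
    · rw [tr_step ρ hkt]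
      rcases h2 with h2 | ⟨a, ha, h2⟩
      · rw [h2]
        exact Or.inl rfl
      · rw [h2]
        obtain ⟨b, hb, hbX⟩ := mz k (hpr.trans hrk)
        have h5 := h3 i a ⟨_, hbX, hb, h2⟩ ha
        rcases h6 : ρ k a with _ | a'
        · exact Or.inl h6
        · exact Or.inr ⟨a', h5 a' h6, h6⟩
  -- the element `w` is finite, and zero if `z` is infinite
  have hW : ∀ r, p ≤ r → r ≤ s → (∃ a, tr ρ r t (c * V) = some a) ∧
      (tr ρ r t (c * f) = none → tr ρ r t (c * V) = some 0) := by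
    intro r hpr hrs
    obtain ⟨i, h1, h2⟩ := hQ r hpr hrs
    have hP := h.isPl (hup.trans hpr)
    have hzero : tr ρ r t (c * f) = none → tr ρ r t (c * V) = some 0 := by
      intro h3
      rcases hP.inv _ (mw r hpr) _ (mg r hpr) (mul_inv_cancel₀ hw0) with
        h4 | h4 | ⟨a, a', h4, h5, h6⟩
      · exfalso
        have h7 := hP.sub _ (mb r hpr) _ (mz r hpr) _ (mg r hpr) (by ring) _ _ h1 h4.2
        rw [h3] at h7
        simp at h7
      · exact h4.1
      · exfalso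
        have h7 := hP.sub _ (mb r hpr) _ (mz r hpr) _ (mg r hpr) (by ring) _ _ h1 h5
        rw [h3] at h7
        simp at h7
    refine ⟨?_, hzero⟩
    rcases h2 with h2 | ⟨a, ha, h2⟩
    · exact ⟨0, hzero h2⟩
    · have h3 := hP.add _ (mz r hpr) _ (mb r hpr) _ (mg r hpr) (by ring) _ _ h2 h1
      rcases hP.inv _ (mw r hpr) _ (mg r hpr) (mul_inv_cancel₀ hw0) with
        h4 | h4 | ⟨a, a', h4, h5, h6⟩
      · rw [h3] at h4
        exact absurd (Option.some_injective _ h4.2) (add_bt_ne Φ ha)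
      · exact ⟨0, h4.1⟩
      · exact ⟨a, h4⟩
  have hPk := h.isPl (hup.trans hpk)
  have hcik : tr ρ (S.l s) t c⁻¹ = some 0 := by
    obtain ⟨b, hb, hbX⟩ := mc _ hpk
    have h1 : tr ρ (S.l s) t c = none := by
      rw [hc] at hbX ⊢
      rw [h.tr_var (hup.trans hpk) (hks.trans hst) hbX hb, target, if_neg (S.l_notin s hs)]
    rcases hPk.inv _ (mc _ hpk) _ (mci _ hpk) (mul_inv_cancel₀ hc0) with
      h4 | h4 | ⟨a, a', h4, h5, h6⟩
    · exact h4.2
    · rw [h1] at h4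
      exact absurd h4.1 (by simp)
    · rw [h1] at h4
      exact absurd h4 (by simp)
  refine ⟨?_, ?_, ?_⟩
  · obtain ⟨⟨a, ha⟩, -⟩ := hW _ hpk hks.le
    have h1 := hPk.mul _ (mw _ hpk) _ (mci _ hpk) _ (mV _ hpk) (by field_simp) _ _ ha hcik
    rw [← hV, h1, mul_zero]
  · obtain ⟨⟨a, ha⟩, -⟩ := hW p le_rfl hps
    obtain ⟨i, h1, -⟩ := hQ p le_rfl hps
    rw [hhh]
    exact ⟨_, (h.isPl hup).mul _ (mw _ le_rfl) _ (mb _ le_rfl) _ (mh _ le_rfl) rfl _ _ ha h1⟩
  · intro hal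
    have hfk : tr ρ (S.l s) t f ≠ some 0 := by
      intro h1
      apply hal
      rw [tr_trans ρ hks.le hst.le, hfs] at h1
      rw [← hf]
      exact h1
    have hfik : ∃ a, tr ρ (S.l s) t f⁻¹ = some a := by
      rcases hPk.inv _ (mf _ hpk) _ (mfi _ hpk) (mul_inv_cancel₀ hf0) with
        h4 | h4 | ⟨a, a', h4, h5, h6⟩
      · exact ⟨0, h4.2⟩
      · exact absurd h4.1 hfk
      · exact ⟨a', h5⟩
    obtain ⟨φ, hφ⟩ := hfik
    have hzi : tr ρ (S.l s) t (c * f)⁻¹ = some 0 := by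
      rw [hPk.mul _ (mci _ hpk) _ (mfi _ hpk) _ (mzi _ hpk) (by field_simp) _ _ hcik hφ, zero_mul]
    have hz : tr ρ (S.l s) t (c * f) = none := by
      rcases hPk.inv _ (mz _ hpk) _ (mzi _ hpk) (mul_inv_cancel₀ hz0) with
        h4 | h4 | ⟨a, a', h4, h5, h6⟩
      · exact h4.1
      · rw [hzi] at h4
        exact absurd h4.2 (by simp)
      · rw [hzi] at h5
        have h7 : (0 : Ω) = a' := Option.some_injective _ h5
        rw [← h7, mul_zero] at h6
        exact absurd h6 zero_ne_one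
    have hw := (hW _ hpk hks.le).2 hz
    obtain ⟨i, h1, -⟩ := hQ _ hpk hks.le
    have hh0 : tr ρ (S.l s) t ((c * V) * ((c * V)⁻¹ - c * f)) = some 0 := by
      rw [hPk.mul _ (mw _ hpk) _ (mb _ hpk) _ (mh _ hpk) rfl _ _ hw h1, zero_mul]
    obtain ⟨b, hb, hbX⟩ := mh p le_rfl
    rw [hhh]
    exact h.tr_zero hbX hup hb hpk hh0

theorem e_pos (b : ℕ) : 0 < e b := by
  unfold e
  positivity

theorem costX_le (X : Finset (Ω × ℕ)) (p : ℕ) (hX : ∀ q ∈ X, q.2 = p) :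
    costX X ≤ X.card * e p := by
  unfold costX
  rw [← nsmul_eq_mul]
  exact Finset.sum_le_card_nsmul _ _ _ fun q hq => by rw [hX q hq]

end Mem

open Mem

section GJ

variable {Ω : Type} [Field Ω] [CharZero Ω] {Φ : Frame Ω} (S : Sys Φ)

/-- **G1** -/
theorem v_mem_U {s : ℕ} (hs : s ∈ S.A) : S.v s ∈ U S (S.l s) := by
  classical
  have hks := S.l_lt s hs
  refine ⟨s + 1, (els S s).image (fun x => (x, S.l s)), ∅, by omega, ?_, ?_, ?_, ?_⟩
  · intro p hp
    exact absurd hp (by simp)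
  · have h1 : costX ((els S s).image (fun x => (x, S.l s))) ≤ 11 * e (S.l s) := by
      refine (costX_le _ (S.l s) ?_).trans ?_
      · intro q hq
        rw [mem_image] at hq
        obtain ⟨x, -, rfl⟩ := hq
        rfl
      · refine mul_le_mul_of_nonneg_right ?_ (e_pos _).le
        exact_mod_cast card_image_le.trans (card_els S s)
    have h2 : costT ∅ = 0 := by
      unfold costT
      simp
    rw [h2, add_zero]
    refine h1.trans_lt ?_
    unfold e
    rw [pow_add]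
    have h3 : (1 / 4 : ℝ) ^ (S.l s) ≤ (1 / 3 : ℝ) ^ (S.l s) :=
      pow_le_pow_left₀ (by norm_num) (by norm_num) _
    have h4 : (0 : ℝ) < (1 / 3 : ℝ) ^ (S.l s) := by positivity
    nlinarith
  · rw [mem_image]
    refine ⟨_, ?_, rfl⟩
    unfold els
    simp
  · intro ρ hρ _
    refine (core hρ hs (Nat.lt_succ_self s) le_rfl le_rfl ?_).1
    intro x hx
    exact ⟨S.l s, le_rfl, mem_image_of_mem _ hx⟩

/-- **G2** -/
theorem prod_mem_U (r m : ℕ) : ∃ P : ℕ, ∀ (T : Finset ℕ) (j : ℕ), T.card = r →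
    Tup S (T, j, m + 1) → (∀ s ∈ T, Leg S s j ∧ P ≤ S.l s) →
    ∏ s ∈ T, (1 - S.v s * S.v (S.l s) ^ 2 * S.f s) ∈ U S m := by
  classical
  -- the choice of `P`
  obtain ⟨P, hmP, hP⟩ : ∃ P : ℕ, m ≤ P ∧ ((r * 11 + 2 ^ r : ℕ) : ℝ) * e P < (1 / 3 : ℝ) ^ m / 2 := by
    have h1 : Filter.Tendsto (fun P : ℕ => ((r * 11 + 2 ^ r : ℕ) : ℝ) * e P) Filter.atTop
        (nhds (((r * 11 + 2 ^ r : ℕ) : ℝ) * 0)) := by
      refine Filter.Tendsto.const_mul _ ?_
      unfold e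
      exact (tendsto_pow_atTop_nhds_zero_of_lt_one (by norm_num) (by norm_num)).comp
        (Filter.tendsto_add_atTop_nat 3)
    rw [mul_zero] at h1
    have h2 : (0 : ℝ) < (1 / 3 : ℝ) ^ m / 2 := by positivity
    obtain ⟨P, h3, h4⟩ := ((Filter.eventually_ge_atTop m).and
      (h1.eventually (gt_mem_nhds h2))).exists
    exact ⟨P, h3, h4⟩
  refine ⟨P, ?_⟩
  intro T j hT hTup hleg
  set X : Finset (Ω × ℕ) := insert (∏ s ∈ T, hh S s, m)
    ((T.biUnion fun s => (els S s).image fun x => (x, P)) ∪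
      T.powerset.image fun Q => (∏ s ∈ Q, hh S s, P)) with hXdef
  have hprod : ((∏ s ∈ T, (1 - S.v s * S.v (S.l s) ^ 2 * S.f s) : ℤ) : Ω) = ∏ s ∈ T, hh S s := by
    rw [Int.cast_prod]
    exact prod_congr rfl fun s _ => (hh_eq S s).symm
  refine ⟨max m (T.sup id) + 1, X, {(T, j, m + 1)}, ?_, ?_, ?_, ?_, ?_⟩
  · have := le_max_left m (T.sup id)
    omega
  · intro p hp
    rw [mem_singleton] at hp
    subst hp
    refine ⟨hTup, fun s hs => ⟨hmP.trans (hleg s hs).2, ?_, (hleg s hs).1⟩⟩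
    have h1 : s ≤ T.sup id := le_sup (f := id) hs
    have := le_max_right m (T.sup id)
    omega
  · have h1 : costT {(T, j, m + 1)} = (1 / 3 : ℝ) ^ (m + 1) := by
      unfold costT
      rw [sum_singleton]
    have h2 : costX X ≤ e m + ((r * 11 + 2 ^ r : ℕ) : ℝ) * e P := by
      have h3 : costX X ≤ e m + costX ((T.biUnion fun s => (els S s).image fun x => (x, P)) ∪
          T.powerset.image fun Q => (∏ s ∈ Q, hh S s, P)) := by
        rw [hXdef]
        unfold costX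
        by_cases hin : (∏ s ∈ T, hh S s, m) ∈
            ((T.biUnion fun s => (els S s).image fun x => (x, P)) ∪
              T.powerset.image fun Q => (∏ s ∈ Q, hh S s, P))
        · rw [insert_eq_of_mem hin]
          have := (e_pos m).le
          linarith
        · rw [sum_insert hin]
      refine h3.trans (add_le_add_right ((costX_le _ P ?_).trans ?_) _)
      · intro q hq
        rw [mem_union] at hq
        rcases hq with hq | hq
        · rw [mem_biUnion] at hq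
          obtain ⟨s, -, hq⟩ := hq
          rw [mem_image] at hq
          obtain ⟨x, -, rfl⟩ := hq
          rfl
        · rw [mem_image] at hq
          obtain ⟨Q, -, rfl⟩ := hq
          rfl
      · refine mul_le_mul_of_nonneg_right ?_ (e_pos _).le
        have h4 : ((T.biUnion fun s => (els S s).image fun x => (x, P)) ∪
            T.powerset.image fun Q => (∏ s ∈ Q, hh S s, P)).card ≤ r * 11 + 2 ^ r := by
          refine (card_union_le _ _).trans (add_le_add ?_ ?_)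
          · rw [← hT]
            refine card_biUnion_le_card_mul _ _ _ fun s _ => ?_
            exact card_image_le.trans (card_els S s)
          · refine card_image_le.trans ?_
            rw [card_powerset, hT]
        exact_mod_cast h4
    rw [h1]
    have h5 : e m ≤ (1 / 3 : ℝ) ^ m / 64 := by
      unfold e
      rw [pow_add]
      have h3 : (1 / 4 : ℝ) ^ m ≤ (1 / 3 : ℝ) ^ m :=
        pow_le_pow_left₀ (by norm_num) (by norm_num) _
      linarith
    have h6 : (0 : ℝ) < (1 / 3 : ℝ) ^ m := by positivity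
    have h7 : (1 / 3 : ℝ) ^ (m + 1) = (1 / 3 : ℝ) ^ m / 3 := by
      rw [pow_succ]
      ring
    rw [h7]
    linarith
  · rw [hprod, hXdef]
    exact mem_insert_self _ _
  · intro ρ hρ hkill
    rw [hprod]
    have hcore : ∀ s ∈ T, _ := fun s hs => core hρ (hTup.sub s hs)
      (by
        have h1 : s ≤ T.sup id := le_sup (f := id) hs
        have := le_max_right m (T.sup id)
        omega : s < max m (T.sup id) + 1) hmP (hleg s hs).2
      (fun x hx => ⟨P, le_rfl, by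
        rw [hXdef]
        refine mem_insert_of_mem (mem_union_left _ ?_)
        rw [mem_biUnion]
        exact ⟨s, hs, mem_image_of_mem _ hx⟩⟩)
    have hPl := hρ.isPl hmP
    have memQ : ∀ Q, Q ⊆ T → ∏ s ∈ Q, hh S s ∈ {x | ∃ b ≤ P, (x, b) ∈ X} := by
      intro Q hQ
      refine ⟨P, le_rfl, ?_⟩
      rw [hXdef]
      refine mem_insert_of_mem (mem_union_right _ ?_)
      rw [mem_image]
      exact ⟨Q, mem_powerset.2 hQ, rfl⟩
    have memh : ∀ s ∈ T, hh S s ∈ {x | ∃ b ≤ P, (x, b) ∈ X} := by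
      intro s hs
      have := memQ {s} (singleton_subset_iff.2 hs)
      rwa [prod_singleton] at this
    have hfin : ∀ Q, Q ⊆ T → ∃ a, tr ρ P (max m (T.sup id) + 1) (∏ s ∈ Q, hh S s) = some a := by
      intro Q
      induction Q using Finset.induction_on with
      | empty =>
        intro hQ
        have h1 := memQ ∅ hQ
        rw [prod_empty] at h1 ⊢
        have h2 := hPl.const 1 (by
          show |(1 : ℤ)| ≤ (S.H P : ℤ)
          rw [abs_one]
          exact_mod_cast S.H_pos P) (by rw [Int.cast_one]; exact h1)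
        rw [Int.cast_one] at h2
        exact ⟨_, h2⟩
      | insert s Q hsQ ih =>
        intro hQ
        obtain ⟨a, ha⟩ := ih ((subset_insert _ _).trans hQ)
        have hs : s ∈ T := hQ (mem_insert_self _ _)
        obtain ⟨a', ha'⟩ := (hcore s hs).2.1
        refine ⟨_, hPl.mul _ (memh s hs) _ (memQ Q ((subset_insert _ _).trans hQ)) _
          (memQ _ hQ) (prod_insert hsQ).symm _ _ ha' ha⟩
    obtain ⟨s, hs, hal⟩ := hkill (T, j, m + 1) (mem_singleton_self _)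
    have hs0 := (hcore s hs).2.2 hal
    obtain ⟨a, ha⟩ := hfin (T.erase s) (erase_subset _ _)
    have h1 := hPl.mul _ (memh s hs) _ (memQ _ (erase_subset _ _)) _ (memQ T subset_rfl)
      (mul_prod_erase T _ hs) _ _ hs0 ha
    rw [zero_mul] at h1
    refine hρ.tr_zero (b := m) ?_ le_rfl le_rfl hmP h1
    rw [hXdef]
    exact mem_insert_self _ _

end GJ

end Pool.Agent.Helper86.MT
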