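import Pool.Agent.Helper86.MT.OneBlock

/-!
# Existence of the system of blocks (block I)
-/

namespace Pool.Agent.Helper86.MT

open Finset

namespace SysEx

/-- the blocks with a type -/
def A : Set ℕ := {s | s % 2 = 1}

/-- the level of a block -/
def l (s : ℕ) : ℕ := 2 * (Nat.unpair (s / 2)).2

theorem l_lt {s : ℕ} (hs : s ∈ A) : l s < s := by
  have h1 : s % 2 = 1 := hs
  have h2 := Nat.unpair_right_le (s / 2)
  unfold l
  omega

theorem l_notin (s : ℕ) : l s ∉ A := by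
  intro h
  have h1 : l s % 2 = 1 := h
  unfold l at h1
  omega

/-- the bounds -/
def Hf (f : ℕ → ℤ) (v : ℕ → ℕ) (s : ℕ) : ℕ :=
  1 + ∑ u ∈ range s, v u + ∑ u ∈ range (s + 1), (f u).natAbs

theorem Hf_mono (f : ℕ → ℤ) (v : ℕ → ℕ) {s t : ℕ} (h : s ≤ t) : Hf f v s ≤ Hf f v t := by
  unfold Hf
  have h1 : ∑ u ∈ range s, v u ≤ ∑ u ∈ range t, v u :=
    sum_le_sum_of_subset (range_subset_range.2 h)
  have h2 : ∑ u ∈ range (s + 1), (f u).natAbs ≤ ∑ u ∈ range (t + 1), (f u).natAbs :=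
    sum_le_sum_of_subset (range_subset_range.2 (by omega))
  omega

theorem v_le (f : ℕ → ℤ) (v : ℕ → ℕ) {s t : ℕ} (h : s < t) : v s ≤ Hf f v t := by
  unfold Hf
  have h1 : v s ≤ ∑ u ∈ range t, v u :=
    single_le_sum (f := v) (fun _ _ => Nat.zero_le _) (mem_range.2 h)
  omega

theorem f_le (f : ℕ → ℤ) (v : ℕ → ℕ) (s : ℕ) : (f s).natAbs ≤ Hf f v s := by
  unfold Hf
  have h1 : (f s).natAbs ≤ ∑ u ∈ range (s + 1), (f u).natAbs :=
    single_le_sum (f := fun u => (f u).natAbs) (fun _ _ => Nat.zero_le _)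
      (mem_range.2 (Nat.lt_succ_self s))
  omega

/-- the recursion -/
def wr (F : ℕ → (ℕ → ℕ) → ℕ) : ℕ → ℕ → ℕ
  | 0 => fun _ => 0
  | s + 1 => Function.update (wr F s) s (F s (wr F s))

theorem wr_eq (F : ℕ → (ℕ → ℕ) → ℕ) {u s : ℕ} (h : u < s) : wr F s u = wr F (u + 1) u := by
  induction s with
  | zero => omega
  | succ s ih =>
    rcases Nat.lt_succ_iff_lt_or_eq.1 h with h1 | rfl
    · have : wr F (s + 1) u = wr F s u := by
        simp only [wr]
        rw [Function.update_of_ne h1.ne]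
      rw [this, ih h1]
    · rfl

end SysEx

open SysEx

theorem exists_sys {Ω : Type} [Field Ω] [CharZero Ω] (Φ : Frame Ω) : Nonempty (Sys Φ) := by
  classical
  have : Nonempty {z : ℤ // z ≠ 0} := ⟨⟨1, one_ne_zero⟩⟩
  obtain ⟨g, hg⟩ := exists_surjective_nat {z : ℤ // z ≠ 0}
  let f : ℕ → ℤ := fun s => (g (Nat.unpair (s / 2)).1).1
  have htg : ∀ (s : ℕ) (v : ℕ → ℤ), ∀ y, target Φ A l f v s = some y → y ∈ Φ.Om 1 := by
    intro s v y hy
    unfold target at hy
    split_ifs at hy with h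
    rw [← Option.some.inj hy]
    have hb : Φ.bt 0 ∈ Φ.Om 1 := Φ.mem 0
    exact (Φ.Om 1).inv_mem ((Φ.Om 1).mul_mem (intCast_mem _ _) ((Φ.Om 1).add_mem
      ((Φ.Om 1).mul_mem (intCast_mem _ _) (intCast_mem _ _)) hb))
  have hex : ∀ (s : ℕ) (w : ℕ → ℕ), ∃ v0 : ℕ, ∀ v : ℕ, v0 ≤ v → ∀ Y : Finset Ω, Y.card ≤ Nb s →
      ∃ ρ : Ω → Option Ω, IsPl Φ (Fin' (Hf f w s)) Y ρ ∧
        ((v : Ω) ∈ Y → ρ (v : Ω) = target Φ A l f (fun u => (w u : ℤ)) s) := fun s w =>
    exists_pl Φ (Nb s) (Hf f w s) _ (htg s _)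
  choose V0 hV0 using hex
  let F : ℕ → (ℕ → ℕ) → ℕ := fun s w => s.factorial * (V0 s w + 1)
  let v : ℕ → ℕ := fun s => wr F (s + 1) s
  have hv : ∀ s, v s = s.factorial * (V0 s (wr F s) + 1) := by
    intro s
    change wr F (s + 1) s = _
    simp only [wr]
    rw [Function.update_self]
  have hvw : ∀ s u, u < s → wr F s u = v u := fun s u h => wr_eq F h
  have hpos : ∀ s, 0 < v s := fun s => by
    rw [hv]
    exact Nat.mul_pos (Nat.factorial_pos s) (Nat.succ_pos _)
  have hge : ∀ s, V0 s (wr F s) ≤ v s := fun s => by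
    rw [hv]
    have := Nat.factorial_pos s
    nlinarith
  have hH : ∀ s, Hf f (wr F s) s = Hf f v s := fun s => by
    unfold Hf
    rw [sum_congr rfl fun u hu => hvw s u (mem_range.1 hu)]
  have htgt : ∀ s, target Φ A l f (fun u => (wr F s u : ℤ)) s =
      target Φ A l f (fun u => (v u : ℤ)) s := by
    intro s
    unfold target
    split_ifs with h
    · simp only [hvw s (l s) (l_lt h)]
    · rfl
  refine ⟨{
    A := A
    l := l
    f := f
    v := fun s => (v s : ℤ)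
    H := Hf f v
    l_lt := fun s hs => l_lt hs
    l_notin := fun s _ => l_notin s
    f_ne := fun s _ => (g _).2
    v_ne := fun s => by
      have := hpos s
      simp only [ne_eq, Nat.cast_eq_zero]
      omega
    H_pos := fun s => by unfold Hf; omega
    H_mono := fun s t h => Hf_mono f v h
    v_le := fun s t h => by
      have := SysEx.v_le f v h
      rw [abs_of_nonneg (Int.natCast_nonneg _)]
      exact_mod_cast this
    f_le := fun s _ => by
      have := SysEx.f_le f v s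
      rw [Int.abs_eq_natAbs]
      exact_mod_cast this
    v_dvd := fun n s h1 h2 => by
      have h3 : n ∣ v s := by
        rw [hv]
        exact Dvd.dvd.mul_right (Nat.dvd_factorial h1 h2) _
      exact_mod_cast h3
    exists_c := fun n => ⟨2 * n, by omega, by
      intro h
      have h1 : (2 * n) % 2 = 1 := h
      omega⟩
    exists_a := ?_
    pl := ?_ }⟩
  · intro k hk z hz
    obtain ⟨a, ha⟩ := hg ⟨z, hz⟩
    have hk' : k % 2 = 0 := by
      have : ¬ k % 2 = 1 := hk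
      omega
    have e1 : (2 * Nat.pair a (k / 2) + 1) / 2 = Nat.pair a (k / 2) := by omega
    refine ⟨2 * Nat.pair a (k / 2) + 1, ?_, ?_, ?_⟩
    · change (2 * Nat.pair a (k / 2) + 1) % 2 = 1
      omega
    · unfold l
      rw [e1, Nat.unpair_pair]
      simp only
      omega
    · change (g (Nat.unpair ((2 * Nat.pair a (k / 2) + 1) / 2)).1).1 = z
      rw [e1, Nat.unpair_pair, ha]
  · intro s Y hY
    obtain ⟨ρ, h1, h2⟩ := hV0 s (wr F s) (v s) (hge s) Y hY
    refine ⟨ρ, ?_, fun h => ?_⟩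
    · rw [← hH s]
      exact h1
    · have e1 : (((v s : ℕ) : ℤ) : Ω) = ((v s : ℕ) : Ω) := Int.cast_natCast _
      rw [e1] at h ⊢
      rw [h2 h, htgt s]

end Pool.Agent.Helper86.MT
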