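import Mathlib

/-!
# Block H: the topological part

A sequence of sets `U j` of integers with the properties below is a basis of neighbourhoods of zero
of a minimal Hausdorff ring topology without proper closed ideals.
-/

open Finset Filter Topology

namespace Pool.Agent.Helper86.MT

namespace TopAux

/-- Dependent choice of a sequence of pairs. -/
lemma exists_seq {R : Type*} (d : ℕ → R → ℕ) (Q : ℕ → R → Prop)
    (h : ∀ n, ∃ k g, n ≤ k ∧ Q k g) :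
    ∃ (k : ℕ → ℕ) (g : ℕ → R), (∀ i, Q (k i) (g i)) ∧ ∀ i, d (k i) (g i) ≤ k (i + 1) := by
  choose K G hK hQ using h
  let n : ℕ → ℕ := fun i => Nat.rec 0 (fun _ m => d (K m) (G m)) i
  exact ⟨fun i => K (n i), fun i => G (n i), fun i => hQ _, fun i => hK (n (i + 1))⟩

lemma exists_sq {R : Type*} [TopologicalSpace R] [Zero R] {f : R × R → R} (hf : Continuous f)
    (h0 : f (0, 0) = 0) {V : Set R} (hV : V ∈ 𝓝 (0 : R)) :
    ∃ W ∈ 𝓝 (0 : R), ∀ a ∈ W, ∀ b ∈ W, f (a, b) ∈ V := by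
  have h1 : f ⁻¹' V ∈ 𝓝 ((0, 0) : R × R) := hf.continuousAt.preimage_mem_nhds (by rwa [h0])
  rw [nhds_prod_eq, mem_prod_self_iff] at h1
  obtain ⟨W, hW, h2⟩ := h1
  exact ⟨W, hW, fun a ha b hb => h2 ⟨ha, hb⟩⟩

lemma prod_nhds {R : Type*} [CommRing R] [TopologicalSpace R] [IsTopologicalRing R] (r : ℕ) :
    ∀ V ∈ 𝓝 (0 : R), ∃ W ∈ 𝓝 (0 : R), ∀ y : ℕ → R, (∀ i < r, y i ∈ W) →
      1 - ∏ i ∈ range r, (1 - y i) ∈ V := by
  induction r with
  | zero =>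
    intro V hV
    refine ⟨V, hV, fun y _ => ?_⟩
    rw [range_zero, prod_empty, sub_self]
    exact mem_of_mem_nhds hV
  | succ r ih =>
    intro V hV
    obtain ⟨A, hA, h1⟩ := exists_sq (f := fun p : R × R => p.1 + p.2 - p.1 * p.2)
      (by fun_prop) (by simp) hV
    obtain ⟨W, hW, h2⟩ := ih A hA
    refine ⟨W ∩ A, inter_mem hW hA, fun y hy => ?_⟩
    have h3 := h1 _ (h2 y fun i hi => (hy i (by omega)).1) _ (hy r (by omega)).2
    rw [prod_range_succ]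
    convert h3 using 1
    ring

/-- The main argument. -/
lemma nhds_of_prod {R : Type*} [CommRing R] [Nontrivial R] [TopologicalSpace R]
    [IsTopologicalRing R] [T2Space R] (U : ℕ → Set R) (C : Set ℕ) (c : ℕ → R) (w : ℕ → R → R)
    (d : ℕ → R → ℕ) (h0 : ∀ j, (0 : R) ∈ U j) (hanti : Antitone U)
    (hC : ∀ n, ∃ k, n ≤ k ∧ k ∈ C) (hw : ∀ k ∈ C, ∀ g : R, g ≠ 0 → w k g ∈ U k)
    (ht : ∀ V ∈ 𝓝 (0 : R), ∃ m, U m ⊆ V) (j : ℕ)
    (hP : ∀ m, ∃ r P : ℕ, ∀ (k : ℕ → ℕ) (g : ℕ → R),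
      (∀ i < r, k i ∈ C ∧ P ≤ k i ∧ g i ≠ 0 ∧ g i ∉ U j) →
      (∀ i, i + 1 < r → d (k i) (g i) ≤ k (i + 1)) →
      ∏ i ∈ range r, (1 - w (k i) (g i) * c (k i) ^ 2 * g i) ∈ U m) :
    U j ∈ 𝓝 (0 : R) := by
  by_contra hj
  have hV0 : ({1}ᶜ : Set R) ∈ 𝓝 (0 : R) := isOpen_compl_singleton.mem_nhds (by simp)
  obtain ⟨V1, hV1, hV1'⟩ := exists_sq (f := fun p : R × R => p.1 + p.2) (by fun_prop)
    (by simp) hV0
  obtain ⟨m, hm⟩ := ht V1 hV1
  obtain ⟨r, P, hrP⟩ := hP m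
  obtain ⟨V, hV, hV'⟩ := prod_nhds r V1 hV1
  obtain ⟨W, hW, hW'⟩ := exists_sq (f := fun p : R × R => p.1 * p.2) (by fun_prop)
    (by simp) hV
  obtain ⟨p, hp⟩ := ht W hW
  -- the sequences
  obtain ⟨k, g, h1, h2⟩ := exists_seq d
    (fun k g => (k ∈ C ∧ max p P ≤ k) ∧ g ≠ 0 ∧ g ∉ U j ∧ c k ^ 2 * g ∈ W) (by
      intro n
      obtain ⟨k, hk, hkC⟩ := hC (max n (max p P))
      have h1 : (fun g : R => c k ^ 2 * g) ⁻¹' W ∈ 𝓝 (0 : R) := by
        have hc : Continuous (fun g : R => c k ^ 2 * g) := by fun_prop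
        exact hc.continuousAt.preimage_mem_nhds (by simpa using hW)
      have h2 : ¬ ((fun g : R => c k ^ 2 * g) ⁻¹' W ⊆ U j) := fun h => hj (mem_of_superset h1 h)
      obtain ⟨g, hg1, hg2⟩ := Set.not_subset.mp h2
      refine ⟨k, g, le_trans (le_max_left _ _) hk, ⟨hkC, le_trans (le_max_right _ _) hk⟩, ?_,
        hg2, hg1⟩
      rintro rfl
      exact hg2 (h0 j))
  have h3 := hrP k g (fun i _ => ⟨(h1 i).1.1, le_trans (le_max_right _ _) (h1 i).1.2,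
    (h1 i).2.1, (h1 i).2.2.1⟩) (fun i _ => h2 i)
  have h4 := hV' (fun i => w (k i) (g i) * c (k i) ^ 2 * g i) (fun i _ => by
    have h5 : w (k i) (g i) ∈ W := hp (hanti (le_trans (le_max_left _ _) (h1 i).1.2)
      (hw _ (h1 i).1.1 _ (h1 i).2.1))
    have h6 := hW' _ h5 _ (h1 i).2.2.2
    rw [mul_assoc]
    exact h6)
  have h7 := hV1' _ h4 _ (hm h3)
  rw [sub_add_cancel] at h7
  exact h7 rfl

lemma one_mem_closure {R : Type*} [CommRing R] [TopologicalSpace R] [IsTopologicalRing R]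
    {I : Set R} (h : ∀ V ∈ 𝓝 (0 : R), ∃ g ∈ V, 1 - g ∈ I) : (1 : R) ∈ closure I := by
  rw [mem_closure_iff_nhds]
  intro V hV
  have h3 : (fun z : R => 1 - z) ⁻¹' V ∈ 𝓝 (0 : R) := by
    have hc : Continuous (fun z : R => 1 - z) := by fun_prop
    exact hc.continuousAt.preimage_mem_nhds (by simpa using hV)
  obtain ⟨g, hg, hgI⟩ := h _ h3
  exact ⟨1 - g, hg, hgI⟩

variable {U : ℕ → Set ℤ}

lemma anti (h0 : ∀ j, (0 : ℤ) ∈ U j) (hsub : ∀ j x y, x ∈ U (j + 1) → y ∈ U (j + 1) → x - y ∈ U j) :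
    Antitone U := by
  apply antitone_nat_of_succ_le
  intro j x hx
  have := hsub j x 0 hx (h0 _)
  rwa [sub_zero] at this

lemma neg_mem (h0 : ∀ j, (0 : ℤ) ∈ U j)
    (hsub : ∀ j x y, x ∈ U (j + 1) → y ∈ U (j + 1) → x - y ∈ U j) {j : ℕ} {x : ℤ}
    (hx : x ∈ U (j + 1)) : -x ∈ U j := by
  have := hsub j 0 x (h0 _) hx
  rwa [zero_sub] at this

lemma add_mem (h0 : ∀ j, (0 : ℤ) ∈ U j)
    (hsub : ∀ j x y, x ∈ U (j + 1) → y ∈ U (j + 1) → x - y ∈ U j) {j : ℕ} {x y : ℤ}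
    (hx : x ∈ U (j + 1)) (hy : y ∈ U (j + 2)) : x + y ∈ U j := by
  have := hsub j x (-y) hx (neg_mem h0 hsub hy)
  rwa [sub_neg_eq_add] at this

lemma nat_mul_mem (h0 : ∀ j, (0 : ℤ) ∈ U j)
    (hsub : ∀ j x y, x ∈ U (j + 1) → y ∈ U (j + 1) → x - y ∈ U j) (n : ℕ) :
    ∀ {j : ℕ} {x : ℤ}, x ∈ U (j + 2 * n) → (n : ℤ) * x ∈ U j := by
  induction n with
  | zero =>
    intro j x _
    rw [Nat.cast_zero, zero_mul]
    exact h0 j
  | succ n ih =>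
    intro j x hx
    have ha := anti h0 hsub
    have h1 : (n : ℤ) * x ∈ U (j + 1) := ih (ha (by omega) hx)
    have h2 := add_mem h0 hsub h1 (ha (by omega : j + 2 ≤ j + 2 * (n + 1)) hx)
    have h3 : ((n + 1 : ℕ) : ℤ) * x = n * x + x := by push_cast; ring
    rwa [h3]

lemma int_mul_mem (h0 : ∀ j, (0 : ℤ) ∈ U j)
    (hsub : ∀ j x y, x ∈ U (j + 1) → y ∈ U (j + 1) → x - y ∈ U j) (n : ℤ) {j : ℕ} {x : ℤ}
    (hx : x ∈ U (j + 1 + 2 * n.natAbs)) : n * x ∈ U j := by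
  rcases Int.natAbs_eq n with h | h
  · rw [h]
    exact nat_mul_mem h0 hsub _ (anti h0 hsub (by omega) hx)
  · rw [h, neg_mul]
    exact neg_mem h0 hsub (nat_mul_mem h0 hsub _ hx)

/-- The filter basis. -/
def basis (h0 : ∀ j, (0 : ℤ) ∈ U j)
    (hsub : ∀ j x y, x ∈ U (j + 1) → y ∈ U (j + 1) → x - y ∈ U j)
    (hmul : ∀ j x y, x ∈ U (j + 1) → y ∈ U (j + 1) → x * y ∈ U j) : RingFilterBasis ℤ where
  sets := Set.range U
  nonempty := ⟨U 0, 0, rfl⟩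
  inter_sets := by
    rintro _ _ ⟨i, rfl⟩ ⟨j, rfl⟩
    exact ⟨U (max i j), ⟨_, rfl⟩, Set.subset_inter (anti h0 hsub (le_max_left _ _))
      (anti h0 hsub (le_max_right _ _))⟩
  zero' := by
    rintro _ ⟨i, rfl⟩
    exact h0 i
  add' := by
    rintro _ ⟨i, rfl⟩
    refine ⟨U (i + 2), ⟨_, rfl⟩, ?_⟩
    rintro _ ⟨x, hx, y, hy, rfl⟩
    exact add_mem h0 hsub (anti h0 hsub (by omega) hx) hy
  neg' := by
    rintro _ ⟨i, rfl⟩
    exact ⟨U (i + 1), ⟨_, rfl⟩, fun x hx => neg_mem h0 hsub hx⟩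
  conj' := by
    intro x0 V hV
    refine ⟨V, hV, fun x hx => ?_⟩
    change x0 + x + -x0 ∈ V
    have : x0 + x + -x0 = x := by ring
    rwa [this]
  mul' := by
    rintro _ ⟨i, rfl⟩
    refine ⟨U (i + 1), ⟨_, rfl⟩, ?_⟩
    rintro _ ⟨x, hx, y, hy, rfl⟩
    exact hmul i x y hx hy
  mul_left' := by
    rintro x0 _ ⟨i, rfl⟩
    exact ⟨U (i + 1 + 2 * x0.natAbs), ⟨_, rfl⟩, fun x hx => int_mul_mem h0 hsub x0 hx⟩
  mul_right' := by
    rintro x0 _ ⟨i, rfl⟩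
    refine ⟨U (i + 1 + 2 * x0.natAbs), ⟨_, rfl⟩, fun x hx => ?_⟩
    change x * x0 ∈ U i
    rw [mul_comm]
    exact int_mul_mem h0 hsub x0 hx

end TopAux

open TopAux

theorem exists_topology (U : ℕ → Set ℤ) (C : Set ℕ) (c : ℕ → ℤ) (w : ℕ → ℤ → ℤ)
    (d : ℕ → ℤ → ℕ) (h0 : ∀ j, (0 : ℤ) ∈ U j)
    (hsub : ∀ j x y, x ∈ U (j + 1) → y ∈ U (j + 1) → x - y ∈ U j)
    (hmul : ∀ j x y, x ∈ U (j + 1) → y ∈ U (j + 1) → x * y ∈ U j) (h1 : (1 : ℤ) ∉ U 0)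
    (hC : ∀ n, ∃ k, n ≤ k ∧ k ∈ C)
    (hw : ∀ k ∈ C, ∀ g : ℤ, g ≠ 0 → w k g ∈ U k)
    (hdvd : ∀ n : ℕ, 1 ≤ n → ∀ k ∈ C, n ≤ k → ∀ g : ℤ, g ≠ 0 → (n : ℤ) ∣ w k g)
    (hP : ∀ j m, ∃ r P : ℕ, ∀ (k : ℕ → ℕ) (g : ℕ → ℤ),
      (∀ i < r, k i ∈ C ∧ P ≤ k i ∧ g i ≠ 0 ∧ g i ∉ U j) →
      (∀ i, i + 1 < r → d (k i) (g i) ≤ k (i + 1)) →
      ∏ i ∈ range r, (1 - w (k i) (g i) * c (k i) ^ 2 * g i) ∈ U m) :
    ∃ t : RingTopology ℤ,
      @T2Space ℤ t.toTopologicalSpace ∧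
      (∀ s : RingTopology ℤ, @T2Space ℤ s.toTopologicalSpace →
        t.toTopologicalSpace ≤ s.toTopologicalSpace → s = t) ∧
      (∀ I : Ideal ℤ, @IsClosed ℤ t.toTopologicalSpace (I : Set ℤ) → I = ⊥ ∨ I = ⊤) := by
  have ha := anti h0 hsub
  -- elements congruent to one
  have hone : ∀ n : ℕ, 1 ≤ n → ∀ j, ∃ g ∈ U j, (n : ℤ) ∣ g - 1 := by
    intro n hn j
    obtain ⟨r, P, hrP⟩ := hP 0 j
    obtain ⟨k, g, h2, h3⟩ := exists_seq d (fun k g => (k ∈ C ∧ max n P ≤ k) ∧ g = 1) (by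
      intro a
      obtain ⟨k, hk, hkC⟩ := hC (max a (max n P))
      exact ⟨k, 1, le_trans (le_max_left _ _) hk, ⟨hkC, le_trans (le_max_right _ _) hk⟩, rfl⟩)
    refine ⟨_, hrP k g (fun i _ => ⟨(h2 i).1.1, le_trans (le_max_right _ _) (h2 i).1.2,
      by rw [(h2 i).2]; exact one_ne_zero, by rw [(h2 i).2]; exact h1⟩) (fun i _ => h3 i), ?_⟩
    -- the congruence
    have h4 : ∀ i, (n : ℤ) ∣ (1 - w (k i) (g i) * c (k i) ^ 2 * g i) - 1 := by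
      intro i
      have h5 : (n : ℤ) ∣ w (k i) (g i) := hdvd n hn _ (h2 i).1.1
        (le_trans (le_max_left _ _) (h2 i).1.2) _ (by rw [(h2 i).2]; exact one_ne_zero)
      have h6 : (1 - w (k i) (g i) * c (k i) ^ 2 * g i) - 1 =
        w (k i) (g i) * (-(c (k i) ^ 2 * g i)) := by ring
      rw [h6]
      exact h5.mul_right _
    have h5 : ∀ i, (1 - w (k i) (g i) * c (k i) ^ 2 * g i) ≡ 1 [ZMOD n] := fun i =>
      (Int.modEq_iff_dvd.mpr (by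
        have := h4 i
        rw [← dvd_neg, neg_sub] at this
        exact this))
    have h6 : ∏ i ∈ range r, (1 - w (k i) (g i) * c (k i) ^ 2 * g i) ≡ 1 [ZMOD n] := by
      have := Int.ModEq.prod (s := range r) (n := (n : ℤ))
        (f := fun i => 1 - w (k i) (g i) * c (k i) ^ 2 * g i) (g := fun _ => 1)
        (fun i _ => h5 i)
      simpa using this
    have h7 := Int.modEq_iff_dvd.mp h6.symm
    exact h7
  set B := basis h0 hsub hmul with hB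
  set t : RingTopology ℤ := @RingTopology.mk ℤ _ B.topology B.isTopologicalRing with htdef
  have hbasis : @HasBasis ℤ (Set ℤ) (@nhds ℤ t.toTopologicalSpace 0) (fun V => V ∈ Set.range U)
    id := B.toAddGroupFilterBasis.nhds_zero_hasBasis
  have hmem : ∀ j, U j ∈ @nhds ℤ t.toTopologicalSpace 0 := fun j =>
    hbasis.mem_iff.mpr ⟨U j, ⟨j, rfl⟩, subset_rfl⟩
  have hsmall : ∀ V ∈ @nhds ℤ t.toTopologicalSpace 0, ∃ m, U m ⊆ V := by
    intro V hV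
    obtain ⟨_, ⟨m, rfl⟩, hm⟩ := hbasis.mem_iff.mp hV
    exact ⟨m, hm⟩
  have hT2 : @T2Space ℤ t.toTopologicalSpace := by
    rw [@AddGroupFilterBasis.t2Space_iff_sInter_subset ℤ _ t.toTopologicalSpace
      B.toAddGroupFilterBasis rfl]
    intro x hx
    have hx' : ∀ j, x ∈ U j := fun j => hx (U j) ⟨j, rfl⟩
    by_contra hx0
    have hx0' : x ≠ 0 := hx0
    obtain ⟨g, hg, hdg⟩ := hone x.natAbs (Int.natAbs_pos.mpr hx0') 1
    obtain ⟨y, hy⟩ : x ∣ g - 1 := by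
      rwa [Int.natCast_natAbs, abs_dvd] at hdg
    have h2 : y * x ∈ U 1 := int_mul_mem h0 hsub y (hx' _)
    have h3 := hsub 0 _ _ hg h2
    have h4 : g - y * x = 1 := by linarith [mul_comm x y]
    rw [h4] at h3
    exact h1 h3
  refine ⟨t, hT2, ?_, ?_⟩
  · -- minimality
    intro s hs hts
    have h2 : ∀ V ∈ @nhds ℤ s.toTopologicalSpace 0, ∃ m, U m ⊆ V := fun V hV =>
      hsmall V (nhds_mono hts hV)
    have h3 : ∀ j, U j ∈ @nhds ℤ s.toTopologicalSpace 0 := fun j =>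
      @nhds_of_prod ℤ _ _ s.toTopologicalSpace s.toIsTopologicalRing hs U C c w d h0 ha hC hw h2
        j (hP j)
    apply RingTopology.toTopologicalSpace_injective
    have hs' := s.toIsTopologicalRing
    have ht' := t.toIsTopologicalRing
    refine IsTopologicalAddGroup.ext
      (@IsTopologicalRing.to_topologicalAddGroup ℤ _ s.toTopologicalSpace hs')
      (@IsTopologicalRing.to_topologicalAddGroup ℤ _ t.toTopologicalSpace ht') ?_
    apply le_antisymm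
    · intro V hV
      obtain ⟨m, hm⟩ := hsmall V hV
      exact mem_of_superset (h3 m) hm
    · exact nhds_mono hts
  · -- closed ideals
    intro I hI
    by_cases hI0 : I = ⊥
    · exact Or.inl hI0
    right
    obtain ⟨x, hxI, hx0⟩ := Submodule.exists_mem_ne_zero_of_ne_bot hI0
    rw [Ideal.eq_top_iff_one]
    have h2 : (1 : ℤ) ∈ @closure ℤ t.toTopologicalSpace (I : Set ℤ) := by
      apply @one_mem_closure ℤ _ t.toTopologicalSpace t.toIsTopologicalRing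
      intro V hV
      obtain ⟨m, hm⟩ := hsmall _ hV
      obtain ⟨g, hg, hdg⟩ := hone x.natAbs (Int.natAbs_pos.mpr hx0) m
      refine ⟨g, hm hg, ?_⟩
      have h4 : x ∣ 1 - g := by
        rw [Int.natCast_natAbs, abs_dvd] at hdg
        rw [← dvd_neg, neg_sub]
        exact hdg
      exact I.mem_of_dvd h4 hxI
    rwa [@IsClosed.closure_eq ℤ t.toTopologicalSpace _ hI] at h2

end Pool.Agent.Helper86.MT
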