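import Pool.Agent.Helper86.MT.Chain
import Pool.Agent.Helper86.MT.Good

/-!
# MP_e4e71e_al, block J: elementary properties of the neighbourhoods of zero
-/

open Finset

set_option linter.unusedSectionVars false

namespace Pool.Agent.Helper86.MT

namespace UBase

variable {Ω : Type}

theorem e_pos (b : ℕ) : 0 < e b := by unfold e; positivity

theorem e_lt (j : ℕ) : e j < (1 / 3 : ℝ) ^ (j + 1) := by
  unfold e
  have h1 : (1 / 4 : ℝ) ^ (j + 3) ≤ (1 / 4 : ℝ) ^ (j + 1) :=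
    pow_le_pow_of_le_one (by norm_num) (by norm_num) (by omega)
  have h2 : (1 / 4 : ℝ) ^ (j + 1) < (1 / 3 : ℝ) ^ (j + 1) :=
    pow_lt_pow_left₀ (by norm_num) (by norm_num) (by omega)
  exact h1.trans_lt h2

theorem third (j : ℕ) : (1 / 3 : ℝ) ^ (j + 1) = (1 / 3 : ℝ) ^ j / 3 := by
  rw [pow_succ]; ring

theorem third_pos (j : ℕ) : 0 < (1 / 3 : ℝ) ^ j := by positivity

open Classical in
theorem costX_insert (p : Ω × ℕ) (X : Finset (Ω × ℕ)) :
    costX (insert p X) ≤ e p.2 + costX X := by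
  unfold costX
  by_cases hp : p ∈ X
  · rw [insert_eq_of_mem hp]
    have := e_pos p.2
    linarith
  · rw [sum_insert hp]

open Classical in
theorem costX_union (X Y : Finset (Ω × ℕ)) : costX (X ∪ Y) ≤ costX X + costX Y := by
  unfold costX
  rw [← sum_union_inter]
  have : 0 ≤ ∑ p ∈ X ∩ Y, e p.2 := sum_nonneg fun p _ => (e_pos _).le
  linarith

theorem costT_union (X Y : Finset (Finset ℕ × ℕ × ℕ)) :
    costT (X ∪ Y) ≤ costT X + costT Y := by
  unfold costT
  rw [← sum_union_inter]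
  have : 0 ≤ ∑ p ∈ X ∩ Y, (1 / 3 : ℝ) ^ p.2.2 := sum_nonneg fun p _ => by positivity
  linarith

end UBase

open UBase

section

variable {Ω : Type} [Field Ω] {Φ : Frame Ω} {S : Sys Φ}

theorem Fam.mono {u u' t t' : ℕ} {TT : Finset (Finset ℕ × ℕ × ℕ)} (h : Fam S u' t' TT)
    (hu : u ≤ u') (ht : t' ≤ t) : Fam S u t TT := fun p hp =>
  ⟨(h p hp).1, fun s hs => ⟨hu.trans ((h p hp).2 s hs).1, ((h p hp).2 s hs).2.1.trans_le ht,
    ((h p hp).2 s hs).2.2⟩⟩

theorem Fam.union {u t : ℕ} {TT TT' : Finset (Finset ℕ × ℕ × ℕ)} (h : Fam S u t TT)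
    (h' : Fam S u t TT') : Fam S u t (TT ∪ TT') := by
  intro p hp
  rcases mem_union.1 hp with hp | hp
  · exact h p hp
  · exact h' p hp

/-- a certificate remains valid below larger models -/
theorem UBase.cert_use {j t t' : ℕ} {X X' : Finset (Ω × ℕ)} {TT TT' : Finset (Finset ℕ × ℕ × ℕ)}
    {x : Ω} (hj : j < t) (hF : Fam S j t TT)
    (hcert : ∀ ρ, Mod S j t X ρ → Kill S ρ TT → tr ρ j t x = some 0)
    {ρ : ℕ → Ω → Option Ω} {u : ℕ} (hu : u ≤ j) (ht : t ≤ t') (hX : X ⊆ X') (hT : TT ⊆ TT')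
    (hρ : Mod S u t' X' ρ) (hK : Kill S ρ TT') : tr ρ j t' x = some 0 := by
  obtain ⟨ρ', h1, h2, h3⟩ := (hρ.mono hu hX).merge hj ht
  have h4 : Kill S ρ' TT := by
    intro p hp
    obtain ⟨s, hs, hs'⟩ := hK p (hT hp)
    refine ⟨s, hs, ?_⟩
    unfold Alive at hs' ⊢
    rw [h3 s ((hF p hp).2 s hs).2.1]
    exact hs'
  rw [← h2]
  exact hcert ρ' h1 h4

end

section GJ

variable {Ω : Type} [Field Ω] [CharZero Ω] {Φ : Frame Ω} (S : Sys Φ)

theorem zero_mem_U (j : ℕ) : (0 : ℤ) ∈ U S j := by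
  classical
  refine ⟨j + 1, {(((0 : ℤ) : Ω), j)}, ∅, Nat.lt_succ_self j, ?_, ?_, ?_, ?_⟩
  · intro p hp
    simp at hp
  · have h1 := e_lt j
    have h2 := third j
    have h3 := third_pos j
    simp only [costX, costT, sum_singleton, sum_empty, add_zero]
    linarith
  · exact mem_singleton_self _
  · intro ρ hρ _
    have := hρ.tr_const (w := j) (b := j) le_rfl (n := 0) (by simp) (mem_singleton_self _) le_rfl
    simpa using this

theorem one_notMem_U : (1 : ℤ) ∉ U S 0 := by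
  rintro ⟨t, X, TT, ht, hF, hc, hX, h⟩
  rw [pow_zero] at hc
  obtain ⟨ρ, hρ, hK⟩ := good S t X TT hF hc
  have h1 := h ρ hρ hK
  have h2 := hρ.tr_const (w := 0) (b := 0) le_rfl (n := 1)
    (by simpa using S.H_pos 0) hX le_rfl
  rw [h1] at h2
  simp at h2

/-- common part of `sub_mem_U` and `mul_mem_U` -/
theorem UBase.op_mem {j : ℕ} {x y z : ℤ} (hx : x ∈ U S (j + 1)) (hy : y ∈ U S (j + 1))
    (hz : ∀ (F : Set ℤ) (Y : Set Ω) (ρ : Ω → Option Ω), IsPl Φ F Y ρ → (x : Ω) ∈ Y →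
      (y : Ω) ∈ Y → (z : Ω) ∈ Y → ρ (x : Ω) = some 0 → ρ (y : Ω) = some 0 →
      ρ (z : Ω) = some 0) : z ∈ U S j := by
  classical
  obtain ⟨t, X, TT, ht, hF, hc, hX, h⟩ := hx
  obtain ⟨t', X', TT', ht', hF', hc', hX', h'⟩ := hy
  refine ⟨max t t', insert ((z : Ω), j) (X ∪ X'), TT ∪ TT', ?_, ?_, ?_, ?_, ?_⟩
  · exact (Nat.lt_of_succ_lt ht).trans_le (le_max_left _ _)
  · exact (hF.mono (Nat.le_succ j) (le_max_left _ _)).union
      (hF'.mono (Nat.le_succ j) (le_max_right _ _))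
  · have h1 := costX_insert ((z : Ω), j) (X ∪ X')
    have h2 := costX_union X X'
    have h3 := costT_union TT TT'
    have h4 := e_lt j
    have h5 := third j
    simp only at h1
    linarith
  · exact mem_insert_self _ _
  · intro ρ hρ hK
    have h1 : tr ρ (j + 1) (max t t') (x : Ω) = some 0 :=
      cert_use ht hF h (Nat.le_succ j) (le_max_left _ _)
        (subset_union_left.trans (subset_insert _ _)) subset_union_left hρ hK
    have h2 : tr ρ (j + 1) (max t t') (y : Ω) = some 0 :=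
      cert_use ht' hF' h' (Nat.le_succ j) (le_max_right _ _)
        (subset_union_right.trans (subset_insert _ _)) subset_union_right hρ hK
    have h3 : tr ρ (j + 1) (max t t') (z : Ω) = some 0 := by
      refine hz _ _ _ (hρ.isPl (Nat.le_succ j)) ?_ ?_ ?_ h1 h2
      · exact ⟨j + 1, le_rfl, mem_insert_of_mem (mem_union_left _ hX)⟩
      · exact ⟨j + 1, le_rfl, mem_insert_of_mem (mem_union_right _ hX')⟩
      · exact ⟨j, Nat.le_succ j, mem_insert_self _ _⟩
    exact hρ.tr_zero (b := j) (mem_insert_self _ _) le_rfl le_rfl (Nat.le_succ j) h3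

theorem sub_mem_U {j : ℕ} {x y : ℤ} (hx : x ∈ U S (j + 1)) (hy : y ∈ U S (j + 1)) :
    x - y ∈ U S j := by
  refine op_mem S hx hy fun F Y ρ hρ h1 h2 h3 h4 h5 => ?_
  have := hρ.sub (y : Ω) h2 ((x - y : ℤ) : Ω) h3 (x : Ω) h1 (by push_cast; ring) 0 0 h5 h4
  simpa using this

theorem mul_mem_U {j : ℕ} {x y : ℤ} (hx : x ∈ U S (j + 1)) (hy : y ∈ U S (j + 1)) :
    x * y ∈ U S j := by
  refine op_mem S hx hy fun F Y ρ hρ h1 h2 h3 h4 h5 => ?_
  have := hρ.mul (x : Ω) h1 (y : Ω) h2 ((x * y : ℤ) : Ω) h3 (by push_cast; ring) 0 0 h4 h5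
  simpa using this

theorem leg_of_notMem_U {j s : ℕ} (hs : s ∈ S.A) (hj : j ≤ S.l s) (hf : S.f s ∉ U S j) :
    Leg S s (j + 1) := by
  classical
  rw [leg_iff]
  intro X TT hF hc
  by_contra hcon
  push Not at hcon
  apply hf
  have hls := S.l_lt s hs
  refine ⟨s, insert ((S.f s : Ω), j) X, TT, by omega, hF.mono hj le_rfl, ?_, ?_, ?_⟩
  · have h1 := costX_insert ((S.f s : Ω), j) X
    have h4 := e_lt j
    have h5 := third j
    have h6 := third_pos j
    simp only at h1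
    linarith
  · exact mem_insert_self _ _
  · intro ρ hρ hK
    have h1 := hcon ρ (hρ.mono hj (subset_insert _ _)) hK
    have h2 : tr ρ (S.l s) s (S.f s : Ω) = some 0 := by
      unfold Alive at h1
      exact not_not.1 h1
    exact hρ.tr_zero (b := j) (mem_insert_self _ _) le_rfl le_rfl hj h2

end GJ

end Pool.Agent.Helper86.MT
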