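import Pool.Agent.Helper86.MT.FrameEx
import Pool.Agent.Helper86.MT.SysEx
import Pool.Agent.Helper86.MT.UBase
import Pool.Agent.Helper86.MT.Mem
import Pool.Agent.Helper86.MT.Top

/-!
# A minimal ring topology on `ℤ` without proper nonzero closed ideals: assembly
-/

open Finset

namespace Pool.Agent.Helper86.MT

theorem main : ∃ t : RingTopology ℤ,
      @T2Space ℤ t.toTopologicalSpace ∧
      (∀ s : RingTopology ℤ, @T2Space ℤ s.toTopologicalSpace →
        t.toTopologicalSpace ≤ s.toTopologicalSpace → s = t) ∧
      (∀ I : Ideal ℤ, @IsClosed ℤ t.toTopologicalSpace (I : Set ℤ) → I = ⊥ ∨ I = ⊤) := by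
  classical
  obtain ⟨Ω, _, _, ⟨Φ⟩⟩ := exists_frame
  obtain ⟨S⟩ := exists_sys Φ
  have hsel : ∀ k g, ∃ s, k ∉ S.A → g ≠ 0 → s ∈ S.A ∧ S.l s = k ∧ S.f s = g := by
    intro k g
    by_cases hk : k ∈ S.A
    · exact ⟨0, fun h => absurd hk h⟩
    by_cases hg : g = 0
    · exact ⟨0, fun _ h => absurd hg h⟩
    obtain ⟨s, h1, h2, h3⟩ := S.exists_a k hk g hg
    exact ⟨s, fun _ _ => ⟨h1, h2, h3⟩⟩
  choose d hd using hsel
  refine exists_topology (U S) {k | k ∉ S.A} S.v (fun k g => S.v (d k g)) d
    (zero_mem_U S) (fun j x y => sub_mem_U S) (fun j x y => mul_mem_U S) (one_notMem_U S)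
    S.exists_c ?_ ?_ ?_
  · intro k hk g hg
    obtain ⟨h1, h2, h3⟩ := hd k g hk hg
    have := v_mem_U S h1
    rwa [h2] at this
  · intro n hn k hk hnk g hg
    obtain ⟨h1, h2, h3⟩ := hd k g hk hg
    refine S.v_dvd n _ hn ?_
    have := S.l_lt _ h1
    omega
  · intro j m
    obtain ⟨P, hP⟩ := prod_mem_U S (3 ^ (j + 1) * R (m + 1)) m
    refine ⟨3 ^ (j + 1) * R (m + 1), max P j, ?_⟩
    intro k g h1 h2
    set r := 3 ^ (j + 1) * R (m + 1) with hr
    set s : ℕ → ℕ := fun i => d (k i) (g i) with hs
    have hsp : ∀ i < r, s i ∈ S.A ∧ S.l (s i) = k i ∧ S.f (s i) = g i := fun i hi =>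
      hd _ _ (h1 i hi).1 (h1 i hi).2.2.1
    have hlt : ∀ i, i + 1 < r → s i < s (i + 1) := fun i hi => by
      have h3 := h2 i hi
      have h4 := hsp (i + 1) hi
      have h5 := S.l_lt _ h4.1
      rw [h4.2.1] at h5
      exact lt_of_le_of_lt h3 h5
    have hmono : ∀ i i', i < i' → i' < r → s i ≤ k i' := by
      intro i i' hii
      induction i', hii using Nat.le_induction with
      | base => intro hi; exact h2 i hi
      | succ n hn ih =>
        intro hr'
        have h3 := ih (by omega)
        have h4 : k n < s n := by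
          have h5 := hsp n (by omega)
          have h6 := S.l_lt _ h5.1
          rwa [h5.2.1] at h6
        exact h3.trans (h4.le.trans (h2 n hr'))
    have hmono' : ∀ i i', i < i' → i' < r → s i < s i' := fun i i' h h' => by
      have h5 := hsp i' h'
      have h6 := S.l_lt _ h5.1
      rw [h5.2.1] at h6
      exact lt_of_le_of_lt (hmono i i' h h') h6
    have hinj : Set.InjOn s (range r) := by
      intro i hi i' hi' h
      simp only [coe_range, Set.mem_Iio] at hi hi'
      rcases lt_trichotomy i i' with h' | h' | h'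
      · exact absurd h (hmono' i i' h' hi').ne
      · exact h'
      · exact absurd h (hmono' i' i h' hi).ne'
    have hcard : ((range r).image s).card = r := by
      rw [card_image_of_injOn hinj, card_range]
    have key := hP ((range r).image s) (j + 1) hcard ?_ ?_
    · rw [prod_image hinj] at key
      convert key using 1
      refine prod_congr rfl fun i hi => ?_
      rw [mem_range] at hi
      rw [(hsp i hi).2.1, (hsp i hi).2.2]
    · refine ⟨?_, ?_, ?_⟩
      · simp only [mem_image, mem_range, forall_exists_index, and_imp, forall_apply_eq_imp_iff₂]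
        exact fun i hi => (hsp i hi).1
      · simp only [mem_image, mem_range, forall_exists_index, and_imp, forall_apply_eq_imp_iff₂]
        intro i hi i' hi' hlt'
        rw [(hsp i' hi').2.1]
        rcases lt_trichotomy i i' with h' | h' | h'
        · exact hmono i i' h' hi'
        · subst h'; exact absurd hlt' (lt_irrefl _)
        · exact absurd hlt' (hmono' i' i h' hi).asymm
      · exact hcard.ge
    · simp only [mem_image, mem_range, forall_exists_index, and_imp, forall_apply_eq_imp_iff₂]
      intro i hi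
      obtain ⟨h3, h4, h5⟩ := hsp i hi
      obtain ⟨h6, h7, h8, h9⟩ := h1 i hi
      refine ⟨leg_of_notMem_U S h3 (by rw [h4]; exact (le_max_right _ _).trans h7)
        (by rwa [h5]), by rw [h4]; exact (le_max_left _ _).trans h7⟩

end Pool.Agent.Helper86.MT
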