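import Pool.Agent.Helper86.MT.Ext

/-!
# Extension of places (block A2)
-/

namespace Pool.Agent.Helper86.MT

open Polynomial

open ExtAux in
/-- **A1'** (Lang). A homomorphism from a subring of a field to an algebraically closed field
extends to a valuation ring; the elements with a nonzero value are units. -/
theorem exists_extension_unit {K E : Type} [Field K] [Field E] [IsAlgClosed E] (A : Subring K)
    (φ : A →+* E) : ∃ (B : Subring K) (ψ : B →+* E), A ≤ B ∧
      (∀ (x : A) (y : B), (x : K) = y → ψ y = φ x) ∧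
      (∀ x : K, x ∉ B → x⁻¹ ∈ B) ∧ ∀ y : B, ψ y ≠ 0 → (y : K)⁻¹ ∈ B := by
  let G0 : Subring (K × E) := (A.subtype.prod φ).range
  have hG0 : Fun G0 := by
    rintro e ⟨a, ha⟩
    have h1 : (a : K) = 0 := congrArg Prod.fst ha
    have h2 : φ a = e := congrArg Prod.snd ha
    have h3 : a = 0 := Subtype.ext h1
    rw [← h2, h3, map_zero]
  obtain ⟨G, hle, hG⟩ := zorn_le_nonempty₀ {G : Subring (K × E) | Fun G} (by
    intro c hc hchain y hy
    have hdir : DirectedOn (· ≤ ·) c := hchain.directedOn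
    refine ⟨sSup c, ?_, fun z hz => le_sSup hz⟩
    intro e he
    rw [Subring.mem_sSup_of_directedOn ⟨y, hy⟩ hdir] at he
    obtain ⟨g, hg, hg'⟩ := he
    exact hc hg e hg') G0 hG0
  have hG : Maximal Fun G := hG
  have hinj := pa_inj hG.prop
  let eq : G ≃+* (pa G).range := RingEquiv.ofBijective (pa G).rangeRestrict
    ⟨fun a b h => hinj (congrArg Subtype.val h), (pa G).rangeRestrict_surjective⟩
  have heq : ∀ (g : G) (y : (pa G).range), pa G g = y → eq.symm y = g := by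
    intro g y h
    rw [RingEquiv.symm_apply_eq]
    exact Subtype.ext h.symm
  refine ⟨(pa G).range, (pb G).comp eq.symm.toRingHom, ?_, ?_, ?_, ?_⟩
  · intro a ha
    exact ⟨⟨(a, φ ⟨a, ha⟩), hle ⟨⟨a, ha⟩, rfl⟩⟩, rfl⟩
  · intro x y hxy
    have h1 : ((x : K), φ x) ∈ G := hle ⟨x, rfl⟩
    have h2 : eq.symm y = ⟨((x : K), φ x), h1⟩ := heq _ _ hxy
    show pb G (eq.symm y) = _
    rw [h2]; rfl
  · intro x hx
    exact val_ring hG hx
  · intro y hy
    obtain ⟨g, hg⟩ := y.2
    have h1 : eq.symm y = g := heq _ _ hg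
    have h2 : pb G g ≠ 0 := by rw [← h1]; exact hy
    have h3 := ExtAux.inv_mem hG (y := pa G g) (c := pb G g) g.2 h2
    rw [hg] at h3
    exact ⟨⟨_, h3⟩, rfl⟩

/-- `P` is a place on the subfield `L` of `K` with values in the subfield `E` of `Ω` -/
structure Place {K Ω : Type} [Field K] [Field Ω] (L : Subfield K) (E : Subfield Ω)
    (P : K → Option Ω) : Prop where
  val : ∀ x ∈ L, ∀ a, P x = some a → a ∈ E
  one : P 1 = some 1
  add : ∀ x ∈ L, ∀ y ∈ L, ∀ a b, P x = some a → P y = some b → P (x + y) = some (a + b)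
  mul : ∀ x ∈ L, ∀ y ∈ L, ∀ a b, P x = some a → P y = some b → P (x * y) = some (a * b)
  inv : ∀ x ∈ L, P x = none → P x⁻¹ = some 0

namespace Place

variable {K Ω : Type} [Field K] [Field Ω] {L : Subfield K} {E : Subfield Ω} {P : K → Option Ω}

theorem map_zero (hP : Place L E P) : P 0 = some 0 := by
  cases h : P 0 with
  | none =>
    have h1 := hP.inv 0 L.zero_mem h
    rw [inv_zero, h] at h1
    exact h1
  | some a =>
    have h1 := hP.add 0 L.zero_mem 0 L.zero_mem a a h h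
    rw [add_zero, h] at h1
    have h2 : a = a + a := Option.some.inj h1
    have h3 : a = 0 := by
      have := congrArg (fun z => z - a) h2
      simpa using this.symm
    rw [h3]

theorem map_neg_one (hP : Place L E P) : P (-1) = some (-1) := by
  have hm : (-1 : K) ∈ L := L.neg_mem L.one_mem
  cases h : P (-1) with
  | none =>
    have h1 := hP.inv (-1) hm h
    rw [inv_neg, inv_one, h] at h1
    exact absurd h1 (by simp)
  | some a =>
    have h1 := hP.add (-1) hm 1 L.one_mem a 1 h hP.one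
    rw [neg_add_cancel, hP.map_zero] at h1
    have h2 : a = -1 := eq_neg_of_add_eq_zero_left (Option.some.inj h1).symm
    rw [h2]

theorem map_neg (hP : Place L E P) {x a} (hx : x ∈ L) (h : P x = some a) :
    P (-x) = some (-a) := by
  have h1 := hP.mul (-1) (L.neg_mem L.one_mem) x hx (-1) a hP.map_neg_one h
  rwa [neg_one_mul, neg_one_mul] at h1

/-- the ring of the elements with a finite value -/
def ring (hP : Place L E P) : Subring K where
  carrier := {x | x ∈ L ∧ ∃ a, P x = some a}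
  zero_mem' := ⟨L.zero_mem, 0, hP.map_zero⟩
  one_mem' := ⟨L.one_mem, 1, hP.one⟩
  add_mem' := by
    rintro x y ⟨hx, a, ha⟩ ⟨hy, b, hb⟩
    exact ⟨L.add_mem hx hy, a + b, hP.add x hx y hy a b ha hb⟩
  mul_mem' := by
    rintro x y ⟨hx, a, ha⟩ ⟨hy, b, hb⟩
    exact ⟨L.mul_mem hx hy, a * b, hP.mul x hx y hy a b ha hb⟩
  neg_mem' := by
    rintro x ⟨hx, a, ha⟩
    exact ⟨L.neg_mem hx, -a, hP.map_neg hx ha⟩

/-- the value -/
noncomputable def v (hP : Place L E P) (x : hP.ring) : Ω := x.2.2.choose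

theorem v_spec (hP : Place L E P) (x : hP.ring) : P x = some (hP.v x) := x.2.2.choose_spec

theorem v_eq (hP : Place L E P) (x : hP.ring) {a : Ω} (h : P x = some a) : hP.v x = a := by
  have := hP.v_spec x
  rw [h] at this
  exact (Option.some.inj this).symm

/-- the value as a homomorphism -/
noncomputable def hom (hP : Place L E P) {E' : Subfield Ω} (hE : E ≤ E') : hP.ring →+* E' where
  toFun x := ⟨hP.v x, hE (hP.val _ x.2.1 _ (hP.v_spec x))⟩
  map_one' := Subtype.ext (hP.v_eq 1 hP.one)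
  map_zero' := Subtype.ext (hP.v_eq 0 hP.map_zero)
  map_add' x y := Subtype.ext (hP.v_eq (x + y)
    (hP.add _ x.2.1 _ y.2.1 _ _ (hP.v_spec x) (hP.v_spec y)))
  map_mul' x y := Subtype.ext (hP.v_eq (x * y)
    (hP.mul _ x.2.1 _ y.2.1 _ _ (hP.v_spec x) (hP.v_spec y)))

end Place

open Classical in
/-- **A2** -/
theorem place_extend {K Ω : Type} [Field K] [Field Ω] (L L' : Subfield K) (hL : L ≤ L')
    (E E' : Subfield Ω) (hE : E ≤ E') [IsAlgClosed E'] (P : K → Option Ω) (hP : Place L E P)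
    (τ : K) (hτ : τ ∈ L') (htr : Transcendental L τ) (b : Ω) (hb : b ∈ E') :
    ∃ P' : K → Option Ω, Place L' E' P' ∧ (∀ x ∈ L, P' x = P x) ∧ P' τ = some b := by
  let B := hP.ring
  let φ : B →+* E' := hP.hom hE
  let ι : B →+* L := ⟨⟨⟨fun x => ⟨x.1, x.2.1⟩, rfl⟩, fun _ _ => rfl⟩, rfl, fun _ _ => rfl⟩
  let f : B[X] →+* K := eval₂RingHom B.subtype τ
  have hfinj : Function.Injective f := by
    rw [injective_iff_map_eq_zero]
    intro p hp
    have h1 : aeval τ (p.map ι) = f p := by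
      change eval₂ (algebraMap L K) τ (p.map ι) = eval₂ B.subtype τ p
      rw [eval₂_map]
      rfl
    rw [hp] at h1
    have h2 : p.map ι = 0 := (transcendental_iff.1 htr) _ h1
    have hι : Function.Injective ι := by
      intro x y h
      exact Subtype.ext (congrArg (fun z : L => (z : K)) h)
    exact (Polynomial.map_eq_zero_iff hι).1 h2
  let e : B[X] ≃+* f.range := RingEquiv.ofBijective f.rangeRestrict
    ⟨fun x y h => hfinj (congrArg Subtype.val h), f.rangeRestrict_surjective⟩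
  let g : B[X] →+* E' := eval₂RingHom φ ⟨b, hb⟩
  obtain ⟨B', ψ, h1, h2, h3, h4⟩ := exists_extension_unit f.range (g.comp e.symm.toRingHom)
  have hmem : ∀ p, f p ∈ B' := fun p => h1 ⟨p, rfl⟩
  have key : ∀ p, ψ ⟨f p, hmem p⟩ = g p := by
    intro p
    rw [h2 ⟨f p, p, rfl⟩ ⟨f p, hmem p⟩ rfl]
    change g (e.symm ⟨f p, p, rfl⟩) = g p
    have : (⟨f p, p, rfl⟩ : f.range) = e p := rfl
    rw [this, RingEquiv.symm_apply_apply]
  refine ⟨fun x => if h : x ∈ B' then some (ψ ⟨x, h⟩ : Ω) else none,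
    ⟨?_, ?_, ?_, ?_, ?_⟩, ?_, ?_⟩
  · intro x _ a ha
    split_ifs at ha with h
    have := Option.some.inj ha
    rw [← this]
    exact (ψ ⟨x, h⟩).2
  · rw [dif_pos B'.one_mem]
    have : (⟨1, B'.one_mem⟩ : B') = 1 := rfl
    rw [this, map_one]
    rfl
  · intro x _ y _ a c ha hc
    split_ifs at ha hc with h h'
    rw [dif_pos (B'.add_mem h h')]
    have e1 : (⟨x + y, B'.add_mem h h'⟩ : B') = ⟨x, h⟩ + ⟨y, h'⟩ := rfl
    rw [e1, map_add, ← Option.some.inj ha, ← Option.some.inj hc]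
    rfl
  · intro x _ y _ a c ha hc
    split_ifs at ha hc with h h'
    rw [dif_pos (B'.mul_mem h h')]
    have e1 : (⟨x * y, B'.mul_mem h h'⟩ : B') = ⟨x, h⟩ * ⟨y, h'⟩ := rfl
    rw [e1, map_mul, ← Option.some.inj ha, ← Option.some.inj hc]
    rfl
  · intro x _ hx
    split_ifs at hx with h
    have h5 := h3 x h
    rw [dif_pos h5]
    have h6 : ψ ⟨x⁻¹, h5⟩ = 0 := by
      by_contra hne
      exact h (by simpa using h4 ⟨x⁻¹, h5⟩ hne)
    rw [h6]
    rfl
  · intro x hx
    cases hPx : P x with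
    | some a =>
      have hxB : x ∈ B := ⟨hx, a, hPx⟩
      have e1 : f (C ⟨x, hxB⟩) = x := eval₂_C _ _
      have e2 : x ∈ B' := by
        have := hmem (C ⟨x, hxB⟩)
        rwa [e1] at this
      have e3 : (⟨x, e2⟩ : B') = ⟨f (C ⟨x, hxB⟩), hmem _⟩ := Subtype.ext e1.symm
      have e4 : g (C ⟨x, hxB⟩) = φ ⟨x, hxB⟩ := eval₂_C _ _
      simp only [dif_pos e2]
      rw [e3, key, e4]
      exact congrArg some (hP.v_eq ⟨x, hxB⟩ hPx)
    | none =>
      have hx0 : x ≠ 0 := by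
        rintro rfl
        rw [hP.map_zero] at hPx
        exact absurd hPx (by simp)
      have h5 := hP.inv x hx hPx
      have hxB : x⁻¹ ∈ B := ⟨L.inv_mem hx, 0, h5⟩
      have e1 : f (C ⟨x⁻¹, hxB⟩) = x⁻¹ := eval₂_C _ _
      have e2 : x⁻¹ ∈ B' := by
        have := hmem (C ⟨x⁻¹, hxB⟩)
        rwa [e1] at this
      have e3 : (⟨x⁻¹, e2⟩ : B') = ⟨f (C ⟨x⁻¹, hxB⟩), hmem _⟩ := Subtype.ext e1.symm
      have e4 : g (C ⟨x⁻¹, hxB⟩) = φ ⟨x⁻¹, hxB⟩ := eval₂_C _ _
      have e5 : φ ⟨x⁻¹, hxB⟩ = 0 := Subtype.ext (hP.v_eq ⟨x⁻¹, hxB⟩ h5)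
      have e6 : ψ ⟨x⁻¹, e2⟩ = 0 := by rw [e3, key, e4, e5]
      refine dif_neg fun h => ?_
      have e7 : (⟨x, h⟩ : B') * ⟨x⁻¹, e2⟩ = 1 := Subtype.ext (mul_inv_cancel₀ hx0)
      have e8 := congrArg ψ e7
      rw [map_mul, e6, mul_zero, map_one] at e8
      exact zero_ne_one e8
  · have e1 : f X = τ := eval₂_X _ _
    have e2 : τ ∈ B' := by
      have := hmem X
      rwa [e1] at this
    have e3 : (⟨τ, e2⟩ : B') = ⟨f X, hmem _⟩ := Subtype.ext e1.symm
    have e4 : g X = ⟨b, hb⟩ := eval₂_X _ _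
    simp only [dif_pos e2]
    rw [e3, key, e4]

end Pool.Agent.Helper86.MT
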