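import Pool.Agent.Helper86.MT.Defs
import Pool.Agent.Helper86.MT.PlaceExt

/-!
# MP_e4e71e_al, block C: the partial places of one block

An ultraproduct argument: a sequence of counterexamples gives a finite set in an ultrapower of `Ω`,
on which a place is constructed by extension along the tower; it induces partial places for almost
all members of the sequence.
-/

open Finset Filter Polynomial

namespace Pool.Agent.Helper86.MT

namespace OneBlock

/-! ### Places on subfields -/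

section Place

variable {K Ω : Type} [Field K] [Field Ω] {L : Subfield K} {E : Subfield Ω} {P : K → Option Ω}

theorem P_zero (hP : Place L E P) : P 0 = some 0 := by
  cases h : P 0 with
  | none =>
    have := hP.inv 0 L.zero_mem h
    rw [inv_zero, h] at this
    exact absurd this (by simp)
  | some a =>
    have h2 := hP.add 0 L.zero_mem 0 L.zero_mem a a h h
    rw [add_zero, h] at h2
    have h3 : a = a + a := Option.some.inj h2
    have h4 : a = 0 := by
      have : a + 0 = a + a := by rw [add_zero]; exact h3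
      exact (add_left_cancel this).symm
    rw [h4]

theorem P_neg_one (hP : Place L E P) : P (-1) = some (-1) := by
  have hm : (-1 : K) ∈ L := L.neg_mem L.one_mem
  cases h : P (-1) with
  | none =>
    have := hP.inv (-1) hm h
    rw [inv_neg, inv_one, h] at this
    exact absurd this (by simp)
  | some a =>
    have h2 := hP.add 1 L.one_mem (-1) hm 1 a hP.one h
    rw [add_neg_cancel, P_zero hP] at h2
    have h3 : (0 : Ω) = 1 + a := Option.some.inj h2
    have h4 : a = -1 := by linear_combination -h3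
    rw [h4]

theorem P_neg (hP : Place L E P) {x : K} (hx : x ∈ L) {a : Ω} (h : P x = some a) :
    P (-x) = some (-a) := by
  have := hP.mul (-1) (L.neg_mem L.one_mem) x hx (-1) a (P_neg_one hP) h
  simpa using this

theorem P_sub (hP : Place L E P) {x y : K} (hx : x ∈ L) (hy : y ∈ L) {a b : Ω}
    (h : P x = some a) (h' : P y = some b) : P (x - y) = some (a - b) := by
  have := hP.add x hx (-y) (L.neg_mem hy) a (-b) h (P_neg hP hy h')
  simpa [sub_eq_add_neg] using this

theorem P_nat (hP : Place L E P) (n : ℕ) : P (n : K) = some (n : Ω) := by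
  induction n with
  | zero => simpa using P_zero hP
  | succ n ih =>
    have := hP.add (n : K) (natCast_mem L n) 1 L.one_mem _ _ ih hP.one
    simpa using this

theorem P_int (hP : Place L E P) (n : ℤ) : P (n : K) = some (n : Ω) := by
  obtain ⟨m, rfl | rfl⟩ := n.eq_nat_or_neg
  · simpa using P_nat hP m
  · have := P_neg hP (natCast_mem L m) (P_nat hP m)
    simpa using this

theorem P_inv (hP : Place L E P) {x y : K} (hx : x ∈ L) (hy : y ∈ L) (h : x * y = 1) :
    (P x = none ∧ P y = some 0) ∨ (P x = some 0 ∧ P y = none) ∨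
      ∃ a b, P x = some a ∧ P y = some b ∧ a * b = 1 := by
  have hyx : x⁻¹ = y := inv_eq_of_mul_eq_one_right h
  have hxy : y⁻¹ = x := inv_eq_of_mul_eq_one_left h
  cases h1 : P x with
  | none =>
    left
    have := hP.inv x hx h1
    rw [hyx] at this
    exact ⟨rfl, this⟩
  | some a =>
    cases h2 : P y with
    | none =>
      right; left
      have := hP.inv y hy h2
      rw [hxy, h1] at this
      exact ⟨this, rfl⟩
    | some b =>
      right; right
      refine ⟨a, b, rfl, rfl, ?_⟩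
      have := hP.mul x hx y hy a b h1 h2
      rw [h, hP.one] at this
      exact (Option.some.inj this).symm

end Place

/-! ### The ultrapower -/

/-- the ultrafilter -/
noncomputable abbrev UF : Ultrafilter ℕ := hyperfilter ℕ

/-- the ultrapower -/
abbrev KK (Ω : Type) : Type := Germ (UF : Filter ℕ) Ω

theorem ev (p : ℕ → Prop) :
    ∀ᶠ n in (UF : Filter ℕ), (p n ↔ ∀ᶠ m in (UF : Filter ℕ), p m) := by
  by_cases h : ∀ᶠ m in (UF : Filter ℕ), p m
  · filter_upwards [h] with n hn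
    exact ⟨fun _ => h, fun _ => hn⟩
  · have h' : ∀ᶠ m in (UF : Filter ℕ), ¬ p m := by
      rwa [← Ultrafilter.eventually_not] at h
    filter_upwards [h'] with n hn
    exact ⟨fun h2 => absurd h2 hn, fun h2 => absurd h2 h⟩

variable {Ω : Type} [Field Ω] (Φ : Frame Ω)

/-- the tower of subfields of the ultrapower -/
def OmG (κ : Germ (UF : Filter ℕ) ℕ) : Subfield (KK Ω) where
  carrier := {x | ∃ (f : ℕ → Ω) (k : ℕ → ℕ), (f : KK Ω) = x ∧ (k : Germ (UF : Filter ℕ) ℕ) = κ ∧
    ∀ᶠ n in (UF : Filter ℕ), f n ∈ Φ.Om (k n)}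
  mul_mem' := by
    rintro _ _ ⟨f, k, rfl, rfl, hf⟩ ⟨f', k', rfl, hk, hf'⟩
    refine ⟨f * f', k, rfl, rfl, ?_⟩
    filter_upwards [hf, hf', Germ.coe_eq.1 hk] with n h1 h2 h3
    rw [h3] at h2
    exact mul_mem h1 h2
  one_mem' := by
    induction κ using Germ.inductionOn with
    | _ k => exact ⟨1, k, rfl, rfl, Eventually.of_forall fun n => one_mem _⟩
  add_mem' := by
    rintro _ _ ⟨f, k, rfl, rfl, hf⟩ ⟨f', k', rfl, hk, hf'⟩
    refine ⟨f + f', k, rfl, rfl, ?_⟩
    filter_upwards [hf, hf', Germ.coe_eq.1 hk] with n h1 h2 h3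
    rw [h3] at h2
    exact add_mem h1 h2
  zero_mem' := by
    induction κ using Germ.inductionOn with
    | _ k => exact ⟨0, k, rfl, rfl, Eventually.of_forall fun n => zero_mem _⟩
  neg_mem' := by
    rintro _ ⟨f, k, rfl, rfl, hf⟩
    refine ⟨-f, k, rfl, rfl, ?_⟩
    filter_upwards [hf] with n h1
    exact neg_mem h1
  inv_mem' := by
    rintro _ ⟨f, k, rfl, rfl, hf⟩
    refine ⟨f⁻¹, k, rfl, rfl, ?_⟩
    filter_upwards [hf] with n h1
    exact inv_mem h1

theorem mem_OmG_coe (f : ℕ → Ω) (k : ℕ → ℕ) :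
    (f : KK Ω) ∈ OmG Φ (k : Germ (UF : Filter ℕ) ℕ) ↔ ∀ᶠ n in (UF : Filter ℕ), f n ∈ Φ.Om (k n) := by
  constructor
  · rintro ⟨f', k', hf, hk, h⟩
    filter_upwards [Germ.coe_eq.1 hf, Germ.coe_eq.1 hk, h] with n h1 h2 h3
    rwa [h1, h2] at h3
  · intro h
    exact ⟨f, k, rfl, rfl, h⟩

/-- the generic elements of the ultrapower -/
noncomputable def btG (κ : Germ (UF : Filter ℕ) ℕ) : KK Ω := κ.map Φ.bt

theorem btG_coe (k : ℕ → ℕ) :
    btG Φ (k : Germ (UF : Filter ℕ) ℕ) = ((fun n => Φ.bt (k n) : ℕ → Ω) : KK Ω) := rfl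

theorem OmG_mono {κ κ' : Germ (UF : Filter ℕ) ℕ} (h : κ ≤ κ') : OmG Φ κ ≤ OmG Φ κ' := by
  induction κ using Germ.inductionOn with
  | _ k =>
  induction κ' using Germ.inductionOn with
  | _ k' =>
  intro x hx
  induction x using Germ.inductionOn with
  | _ f =>
  rw [mem_OmG_coe] at hx ⊢
  filter_upwards [hx, Germ.coe_le.1 h] with n h1 h2
  exact Φ.mono _ _ h2 h1

theorem btG_mem {κ κ' : Germ (UF : Filter ℕ) ℕ} (h : κ < κ') : btG Φ κ ∈ OmG Φ κ' := by
  induction κ using Germ.inductionOn with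
  | _ k =>
  induction κ' using Germ.inductionOn with
  | _ k' =>
  rw [btG_coe, mem_OmG_coe]
  filter_upwards [Germ.coe_lt.1 h] with n h1
  exact Φ.mono _ _ h1 (Φ.mem _)

theorem coeffs_zero {L : Subfield Ω} {τ : Ω} (h : Transcendental L τ) (d : ℕ) (c : ℕ → Ω)
    (hc : ∀ i ≤ d, c i ∈ L) (h0 : ∑ i ∈ range (d + 1), c i * τ ^ i = 0) : ∀ i ≤ d, c i = 0 := by
  classical
  let c' : ℕ → L := fun i => if hi : i ≤ d then ⟨c i, hc i hi⟩ else 0
  have hc' : ∀ i ≤ d, (c' i : Ω) = c i := fun i hi => by simp [c', hi]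
  let p : L[X] := ∑ i ∈ range (d + 1), monomial i (c' i)
  have hp : aeval τ p = 0 := by
    rw [← h0]
    simp only [p, map_sum, aeval_monomial]
    refine sum_congr rfl fun i hi => ?_
    have hi' : i ≤ d := by simpa [Nat.lt_succ_iff] using hi
    rw [← hc' i hi']
    rfl
  have hp0 : p = 0 := by
    by_contra hne
    exact h ⟨p, hne, hp⟩
  intro i hi
  have : p.coeff i = c' i := by
    simp only [p, finsetSum_coeff, coeff_monomial]
    rw [sum_ite_eq']
    simp [hi]
  rw [hp0, Polynomial.coeff_zero] at this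
  rw [← hc' i hi, ← this]
  rfl

theorem coe_sum (s : Finset ℕ) (f : ℕ → ℕ → Ω) :
    ((fun n => ∑ i ∈ s, f i n : ℕ → Ω) : KK Ω) = ∑ i ∈ s, ((f i : ℕ → Ω) : KK Ω) := by
  classical
  induction s using Finset.induction_on with
  | empty => simp; rfl
  | insert a s ha ih =>
    rw [sum_insert ha, ← ih]
    simp only [sum_insert ha]
    rfl

theorem trans_aux {L : Subfield (KK Ω)} {τ : ℕ → Ω}
    (hL : ∀ (d : ℕ) (c : ℕ → ℕ → Ω), (∀ i, ((c i : ℕ → Ω) : KK Ω) ∈ L) →
      (∀ᶠ n in (UF : Filter ℕ), ∑ i ∈ range (d + 1), c i n * τ n ^ i = 0) →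
      ∀ᶠ n in (UF : Filter ℕ), c d n = 0) : Transcendental L (τ : KK Ω) := by
  rintro ⟨p, hp, hp0⟩
  have hex : ∀ i, ∃ f : ℕ → Ω, (f : KK Ω) = (p.coeff i : KK Ω) := fun i =>
    ⟨_, Quotient.out_eq _⟩
  choose c hc using hex
  have h1 := hL p.natDegree c (fun i => by rw [hc]; exact (p.coeff i).2) ?_
  · apply hp
    rw [← leadingCoeff_eq_zero, leadingCoeff]
    apply Subtype.ext
    rw [← hc]
    exact Germ.coe_eq.2 h1
  · have h2 : ((fun n => ∑ i ∈ range (p.natDegree + 1), c i n * τ n ^ i : ℕ → Ω) : KK Ω) =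
        ((0 : ℕ → Ω) : KK Ω) := by
      rw [coe_sum _ fun i n => c i n * τ n ^ i]
      rw [aeval_eq_sum_range] at hp0
      change _ = (0 : KK Ω)
      rw [← hp0]
      refine sum_congr rfl fun i _ => ?_
      rw [Subfield.smul_def, smul_eq_mul, ← hc]
      rfl
    exact Germ.coe_eq.1 h2

theorem btG_gen (κ : Germ (UF : Filter ℕ) ℕ) : Transcendental (OmG Φ κ) (btG Φ κ) := by
  induction κ using Germ.inductionOn with
  | _ k =>
  rw [btG_coe]
  apply trans_aux
  intro d c hc h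
  have h2 : ∀ᶠ n in (UF : Filter ℕ), ∀ i ∈ range (d + 1), c i n ∈ Φ.Om (k n) := by
    rw [eventually_all_finset]
    intro i _
    exact (mem_OmG_coe Φ _ _).1 (hc i)
  filter_upwards [h, h2] with n h3 h4
  exact coeffs_zero (Φ.gen (k n)) d (fun i => c i n)
    (fun i hi => h4 i (by simpa [Nat.lt_succ_iff] using hi)) h3 d le_rfl

theorem fin_trans (τ : ℕ → Ω) (hτ : ∀ x, {n | τ n = x}.Finite) (L : Subfield (KK Ω))
    (hL : ∀ x ∈ L, ∃ a : Ω, ((fun _ => a : ℕ → Ω) : KK Ω) = x) :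
    Transcendental L (τ : KK Ω) := by
  classical
  apply trans_aux
  intro d c hc h
  have hex : ∀ i, ∃ a : Ω, ∀ᶠ n in (UF : Filter ℕ), a = c i n := fun i => by
    obtain ⟨a, ha⟩ := hL _ (hc i)
    exact ⟨a, Germ.coe_eq.1 ha⟩
  choose a ha using hex
  have h2 : ∀ᶠ n in (UF : Filter ℕ), ∀ i ∈ range (d + 1), a i = c i n := by
    rw [eventually_all_finset]
    exact fun i _ => ha i
  let p : Polynomial Ω := ∑ i ∈ range (d + 1), monomial i (a i)
  have hp : p.coeff d = a d := by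
    simp only [p, finsetSum_coeff, coeff_monomial]
    rw [sum_ite_eq']
    simp
  have h3 : ∀ᶠ n in (UF : Filter ℕ), p.IsRoot (τ n) := by
    filter_upwards [h, h2] with n h3 h4
    rw [IsRoot, ← h3]
    simp only [p, eval_finsetSum, eval_monomial]
    exact sum_congr rfl fun i hi => by rw [h4 i hi]
  have h4 : p = 0 := by
    by_contra hne
    have hfin : {n | p.IsRoot (τ n)}.Finite := by
      have : {n | p.IsRoot (τ n)} ⊆ ⋃ x ∈ (p.roots.toFinset : Set Ω), {n | τ n = x} := by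
        intro n hn
        simp only [Set.mem_iUnion]
        refine ⟨τ n, ?_, rfl⟩
        simp only [Finset.mem_coe, Multiset.mem_toFinset]
        exact (mem_roots hne).2 hn
      exact ((Finset.finite_toSet _).biUnion fun x _ => hτ x).subset this
    exact hfin.compl_mem_hyperfilter |> fun h5 => by
      have h6 := inter_mem h3 h5
      have h7 : {n | p.IsRoot (τ n)} ∩ {n | p.IsRoot (τ n)}ᶜ = ∅ := Set.inter_compl_self _
      rw [show ({x | p.IsRoot (τ x)} ∩ {n | p.IsRoot (τ n)}ᶜ : Set ℕ) = ∅ from h7] at h6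
      exact empty_notMem _ h6
  have h5 : a d = 0 := by rw [← hp, h4, Polynomial.coeff_zero]
  filter_upwards [ha d] with n h6
  rw [← h6, h5]

/-- the constants -/
noncomputable def cst : Ω →+* KK Ω where
  toFun a := ((fun _ => a : ℕ → Ω) : KK Ω)
  map_one' := rfl
  map_mul' _ _ := rfl
  map_zero' := rfl
  map_add' _ _ := rfl

theorem fib [CharZero Ω] {v : ℕ → ℕ} (hv : ∀ n, n ≤ v n) (x : Ω) : {n | (v n : Ω) = x}.Finite := by
  rcases Set.eq_empty_or_nonempty {n | (v n : Ω) = x} with h | ⟨n0, h0⟩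
  · rw [h]; exact Set.finite_empty
  · refine (Set.finite_Iic (v n0)).subset ?_
    intro n hn
    have h1 : (v n : Ω) = v n0 := by
      rw [Set.mem_ofPred_eq] at hn h0
      rw [hn, h0]
    have h2 : v n = v n0 := Nat.cast_injective h1
    rw [Set.mem_Iic, ← h2]
    exact hv n

open Classical in
theorem base [CharZero Ω] {v : ℕ → ℕ} (hv : ∀ n, n ≤ v n) (tg : Option Ω)
    (htg : ∀ y, tg = some y → y ∈ Φ.Om 1) :
    ∃ P : KK Ω → Option Ω, Place (⊤ : Subfield (KK Ω)) (Φ.Om 1) P ∧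
      P ((fun n => (v n : Ω) : ℕ → Ω) : KK Ω) = tg := by
  have := Φ.closed 1
  let L0 : Subfield (KK Ω) := (Φ.Om 1).map cst
  let P0 : KK Ω → Option Ω := fun x => if h : ∃ a ∈ Φ.Om 1, cst a = x then some h.choose else none
  have hinj : Function.Injective (cst : Ω →+* KK Ω) := RingHom.injective _
  have hP0 : ∀ a ∈ Φ.Om 1, P0 (cst a) = some a := by
    intro a ha
    have h : ∃ a' ∈ Φ.Om 1, cst a' = cst a := ⟨a, ha, rfl⟩
    simp only [P0, dif_pos h]
    rw [hinj h.choose_spec.2]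
  have hL0 : ∀ x ∈ L0, ∃ a ∈ Φ.Om 1, cst a = x := by
    intro x hx
    obtain ⟨a, ha, h⟩ := Subfield.mem_map.1 hx
    exact ⟨a, ha, h⟩
  have hpl : Place L0 (Φ.Om 1) P0 := by
    refine ⟨?_, ?_, ?_, ?_, ?_⟩
    · intro x hx a ha
      obtain ⟨b, hb, rfl⟩ := hL0 x hx
      rw [hP0 b hb] at ha
      rwa [← Option.some.inj ha]
    · have := hP0 1 (Φ.Om 1).one_mem
      rwa [map_one] at this
    · intro x hx y hy a b ha hb
      obtain ⟨a', ha', rfl⟩ := hL0 x hx
      obtain ⟨b', hb', rfl⟩ := hL0 y hy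
      rw [hP0 _ ha'] at ha
      rw [hP0 _ hb'] at hb
      rw [← map_add, hP0 _ (add_mem ha' hb'), Option.some.inj ha, Option.some.inj hb]
    · intro x hx y hy a b ha hb
      obtain ⟨a', ha', rfl⟩ := hL0 x hx
      obtain ⟨b', hb', rfl⟩ := hL0 y hy
      rw [hP0 _ ha'] at ha
      rw [hP0 _ hb'] at hb
      rw [← map_mul, hP0 _ (mul_mem ha' hb'), Option.some.inj ha, Option.some.inj hb]
    · intro x hx h
      obtain ⟨a', ha', rfl⟩ := hL0 x hx
      rw [hP0 _ ha'] at h
      exact absurd h (by simp)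
  have hcst : ∀ x ∈ L0, ∃ a : Ω, ((fun _ => a : ℕ → Ω) : KK Ω) = x := fun x hx => by
    obtain ⟨a, _, h⟩ := hL0 x hx
    exact ⟨a, h⟩
  cases htg' : tg with
  | some y =>
    obtain ⟨P, h1, h2, h3⟩ := place_extend L0 ⊤ le_top (Φ.Om 1) (Φ.Om 1) le_rfl P0 hpl
      ((fun n => (v n : Ω) : ℕ → Ω) : KK Ω) (Subfield.mem_top _) (fin_trans _ (fib hv) L0 hcst) y
      (htg y htg')
    exact ⟨P, h1, h3⟩
  | none =>
    have hfib : ∀ x : Ω, {n | (v n : Ω)⁻¹ = x}.Finite := fun x => by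
      have := fib hv x⁻¹
      refine this.subset fun n hn => ?_
      rw [Set.mem_ofPred_eq] at hn ⊢
      rw [← hn, inv_inv]
    obtain ⟨P, h1, h2, h3⟩ := place_extend L0 ⊤ le_top (Φ.Om 1) (Φ.Om 1) le_rfl P0 hpl
      ((fun n => (v n : Ω)⁻¹ : ℕ → Ω) : KK Ω) (Subfield.mem_top _)
      (fin_trans _ hfib L0 hcst) 0 (Φ.Om 1).zero_mem
    refine ⟨P, h1, ?_⟩
    have h4 : ((fun n => (v n : Ω)⁻¹ : ℕ → Ω) : KK Ω) * ((fun n => (v n : Ω) : ℕ → Ω) : KK Ω) = 1 := by
      refine Germ.coe_eq.2 ?_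
      have h5 : ∀ᶠ n in (UF : Filter ℕ), n ∉ ({0} : Set ℕ) :=
        (Set.finite_singleton 0).compl_mem_hyperfilter
      filter_upwards [h5] with n hn
      have h6 : (v n : Ω) ≠ 0 := by
        have := hv n
        have h7 : n ≠ 0 := hn
        exact_mod_cast (by omega : v n ≠ 0)
      exact inv_mul_cancel₀ h6
    rcases P_inv h1 (Subfield.mem_top _) (Subfield.mem_top _) h4 with h | h | ⟨a, b, ha, hb, hab⟩
    · rw [h3] at h
      exact absurd h.1 (by simp)
    · exact h.2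
    · rw [h3] at ha
      rw [← Option.some.inj ha, zero_mul] at hab
      exact absurd hab zero_ne_one

theorem tower [CharZero Ω] {v : ℕ → ℕ} (hv : ∀ n, n ≤ v n) (tg : Option Ω)
    (htg : ∀ y, tg = some y → y ∈ Φ.Om 1) (Gam : Finset (Germ (UF : Filter ℕ) ℕ)) :
    ∃ (G : ℕ) (g : Germ (UF : Filter ℕ) ℕ → ℕ) (P : KK Ω → Option Ω),
      Place (⊤ : Subfield (KK Ω)) (Φ.Om G) P ∧ P ((fun n => (v n : Ω) : ℕ → Ω) : KK Ω) = tg ∧
      ∀ κ ∈ Gam, (∀ x ∈ OmG Φ κ, ∀ a, P x = some a → a ∈ Φ.Om (g κ)) ∧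
        P (btG Φ κ) = some (Φ.bt (g κ)) := by
  classical
  induction Gam using Finset.induction_on_max with
  | empty =>
    obtain ⟨P, h1, h2⟩ := base Φ hv tg htg
    exact ⟨1, fun _ => 0, P, h1, h2, by simp⟩
  | insert κ s hκ ih =>
    obtain ⟨G, g, P, h1, h2, h3⟩ := ih
    have := Φ.closed (G + 1)
    have hpl : Place (OmG Φ κ) (Φ.Om G) P :=
      ⟨fun x _ => h1.val x (Subfield.mem_top _), h1.one,
        fun x _ y _ => h1.add x (Subfield.mem_top _) y (Subfield.mem_top _),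
        fun x _ y _ => h1.mul x (Subfield.mem_top _) y (Subfield.mem_top _),
        fun x _ => h1.inv x (Subfield.mem_top _)⟩
    obtain ⟨P', h4, h5, h6⟩ := place_extend (OmG Φ κ) ⊤ le_top (Φ.Om G) (Φ.Om (G + 1))
      (Φ.mono _ _ (Nat.le_succ G)) P hpl (btG Φ κ) (Subfield.mem_top _) (btG_gen Φ κ) (Φ.bt G)
      (Φ.mem G)
    refine ⟨G + 1, Function.update g κ G, P', h4, ?_, ?_⟩
    · rw [h5 _ ?_, h2]
      induction κ using Germ.inductionOn with
      | _ k =>
      rw [mem_OmG_coe]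
      exact Eventually.of_forall fun n => natCast_mem _ _
    · intro κ' hκ'
      rcases Finset.mem_insert.1 hκ' with rfl | hs
      · rw [Function.update_self]
        refine ⟨fun x hx a ha => ?_, h6⟩
        rw [h5 x hx] at ha
        exact h1.val x (Subfield.mem_top _) a ha
      · have hlt := hκ κ' hs
        rw [Function.update_of_ne hlt.ne]
        obtain ⟨h7, h8⟩ := h3 κ' hs
        refine ⟨fun x hx a ha => ?_, ?_⟩
        · rw [h5 x (OmG_mono Φ hlt.le hx)] at ha
          exact h7 x hx a ha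
        · rw [h5 _ (btG_mem Φ hlt)]
          exact h8

theorem bt_inj {i j : ℕ} (h : Φ.bt i = Φ.bt j) : i = j := by
  have key : ∀ i j, i < j → Φ.bt i ≠ Φ.bt j := by
    intro i j hij h
    have h1 : Φ.bt j ∈ Φ.Om j := by
      rw [← h]
      exact Φ.mono _ _ hij (Φ.mem i)
    exact Φ.gen j (isAlgebraic_algebraMap (R := Φ.Om j) (A := Ω) ⟨Φ.bt j, h1⟩)
  rcases lt_trichotomy i j with h' | h' | h'
  · exact absurd h (key i j h')
  · exact h'
  · exact absurd h.symm (key j i h')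

end OneBlock

open OneBlock in
/-- **C** -/
theorem exists_pl {Ω : Type} [Field Ω] [CharZero Ω] (Φ : Frame Ω) (N H : ℕ) (tg : Option Ω)
    (htg : ∀ y, tg = some y → y ∈ Φ.Om 1) :
    ∃ v0 : ℕ, ∀ v : ℕ, v0 ≤ v → ∀ Y : Finset Ω, Y.card ≤ N →
      ∃ ρ : Ω → Option Ω, IsPl Φ (Fin' H) Y ρ ∧ ((v : Ω) ∈ Y → ρ (v : Ω) = tg) := by
  classical
  by_contra hcon
  push Not at hcon
  choose v hv Y hY hno using hcon
  -- enumeration of the sets
  have henum : ∀ n, ∃ y : Fin (N + 1) → Ω, ∀ x ∈ Y n, ∃ i, y i = x := by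
    intro n
    have hc := hY n
    refine ⟨fun i => (Y n).toList.getD i 0, fun x hx => ?_⟩
    rw [← mem_toList] at hx
    obtain ⟨i, hi, h⟩ := List.getElem_of_mem hx
    have hlen : (Y n).toList.length ≤ N := by rwa [length_toList]
    refine ⟨⟨i, by omega⟩, ?_⟩
    simp only [List.getD_eq_getElem?_getD, List.getElem?_eq_getElem hi, Option.getD_some, h]
  choose y hy using henum
  -- the indices of the generic elements
  let k : Fin (N + 1) → ℕ → ℕ := fun j n => if h : ∃ i, y n j = Φ.bt i then h.choose else 0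
  have hk : ∀ n j i, y n j = Φ.bt i → i = k j n := by
    intro n j i h
    have hex : ∃ i, y n j = Φ.bt i := ⟨i, h⟩
    have h2 : k j n = hex.choose := by simp only [k, dif_pos hex]
    rw [h2]
    apply bt_inj Φ
    rw [← h]
    exact hex.choose_spec
  let κ : Fin (N + 1) → Germ (UF : Filter ℕ) ℕ := fun j => (k j : Germ (UF : Filter ℕ) ℕ)
  obtain ⟨G, g, P, hP, hPv, hPG⟩ := tower Φ hv tg htg (univ.image κ)
  let ys : Fin (N + 1) → KK Ω := fun j => ((fun n => y n j : ℕ → Ω) : KK Ω)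
  let vs : KK Ω := ((fun n => (v n : Ω) : ℕ → Ω) : KK Ω)
  have e1 : ∀ᶠ n in (UF : Filter ℕ), ∀ i j, (y n i = y n j ↔ ys i = ys j) := by
    simp only [eventually_all]
    intro i j
    exact (ev fun n => y n i = y n j).mono fun n h => h.trans Germ.coe_eq.symm
  have e2 : ∀ᶠ n in (UF : Filter ℕ), ∀ i j l, (y n i + y n j = y n l ↔ ys i + ys j = ys l) := by
    simp only [eventually_all]
    intro i j l
    exact (ev fun n => y n i + y n j = y n l).mono fun n h => h.trans Germ.coe_eq.symm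
  have e3 : ∀ᶠ n in (UF : Filter ℕ), ∀ i j l, (y n i * y n j = y n l ↔ ys i * ys j = ys l) := by
    simp only [eventually_all]
    intro i j l
    exact (ev fun n => y n i * y n j = y n l).mono fun n h => h.trans Germ.coe_eq.symm
  have e4 : ∀ᶠ n in (UF : Filter ℕ), ∀ i j, (y n i * y n j = 1 ↔ ys i * ys j = 1) := by
    simp only [eventually_all]
    intro i j
    exact (ev fun n => y n i * y n j = 1).mono fun n h => h.trans Germ.coe_eq.symm
  have hint : ∀ c : ℤ, ((c : KK Ω)) = ((fun _ => (c : Ω) : ℕ → Ω) : KK Ω) := by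
    intro c
    have : (cst : Ω →+* KK Ω) (c : Ω) = (c : KK Ω) := map_intCast _ _
    rw [← this]
    rfl
  have e5 : ∀ᶠ n in (UF : Filter ℕ), ∀ c ∈ Finset.Icc (-(H : ℤ)) H, ∀ i,
      (y n i = (c : Ω) ↔ ys i = (c : KK Ω)) := by
    rw [eventually_all_finset]
    intro c _
    simp only [eventually_all]
    intro i
    rw [hint c]
    exact (ev fun n => y n i = (c : Ω)).mono fun n h => h.trans Germ.coe_eq.symm
  have e6 : ∀ᶠ n in (UF : Filter ℕ), ∀ i, (y n i = (v n : Ω) ↔ ys i = vs) := by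
    simp only [eventually_all]
    intro i
    exact (ev fun n => y n i = (v n : Ω)).mono fun n h => h.trans Germ.coe_eq.symm
  have e7 : ∀ᶠ n in (UF : Filter ℕ), ∀ i j, (y n i = Φ.bt (k j n) ↔ ys i = btG Φ (κ j)) := by
    simp only [eventually_all]
    intro i j
    exact (ev fun n => y n i = Φ.bt (k j n)).mono fun n h => h.trans Germ.coe_eq.symm
  have e8 : ∀ᶠ n in (UF : Filter ℕ), ∀ i j, (y n i ∈ Φ.Om (k j n) ↔ ys i ∈ OmG Φ (κ j)) := by
    simp only [eventually_all]
    intro i j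
    exact (ev fun n => y n i ∈ Φ.Om (k j n)).mono fun n h => h.trans (mem_OmG_coe Φ _ _).symm
  have e9 : ∀ᶠ n in (UF : Filter ℕ), ∀ i j, (k i n = k j n ↔ κ i = κ j) := by
    simp only [eventually_all]
    intro i j
    exact (ev fun n => k i n = k j n).mono fun n h => h.trans Germ.coe_eq.symm
  obtain ⟨n, f1, f2, f3, f4, f5, f6, f7, f8, f9⟩ :=
    (e1.and (e2.and (e3.and (e4.and (e5.and (e6.and (e7.and (e8.and e9)))))))).exists
  -- the partial place
  let ρ : Ω → Option Ω := fun x => if h : ∃ i, y n i = x then P (ys h.choose) else none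
  have hρ : ∀ i, ρ (y n i) = P (ys i) := by
    intro i
    have hex : ∃ j, y n j = y n i := ⟨i, rfl⟩
    simp only [ρ, dif_pos hex]
    rw [(f1 _ _).1 hex.choose_spec]
  have hT : ∀ x : KK Ω, x ∈ (⊤ : Subfield (KK Ω)) := fun x => Subfield.mem_top x
  suffices hpl : IsPl Φ (Fin' H) (Y n) ρ by
    obtain ⟨hmem, hne⟩ := hno n ρ hpl
    apply hne
    obtain ⟨i, hi⟩ := hy n _ hmem
    rw [← hi, hρ, (f6 i).1 hi]
    exact hPv
  refine ⟨?_, ?_, ?_, ?_, ?_, ?_⟩
  · intro x hx x' hx' z hz h a b ha hb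
    obtain ⟨i, rfl⟩ := hy n x hx
    obtain ⟨j, rfl⟩ := hy n x' hx'
    obtain ⟨l, rfl⟩ := hy n z hz
    rw [hρ] at ha hb ⊢
    rw [← (f2 i j l).1 h]
    exact hP.add _ (hT _) _ (hT _) a b ha hb
  · intro x hx x' hx' z hz h a b ha hb
    obtain ⟨i, rfl⟩ := hy n x hx
    obtain ⟨j, rfl⟩ := hy n x' hx'
    obtain ⟨l, rfl⟩ := hy n z hz
    rw [hρ] at ha hb ⊢
    have h1 := (f2 i j l).1 h
    have h2 : ys j = ys l - ys i := by rw [← h1]; ring
    rw [h2]
    exact P_sub hP (hT _) (hT _) hb ha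
  · intro x hx x' hx' z hz h a b ha hb
    obtain ⟨i, rfl⟩ := hy n x hx
    obtain ⟨j, rfl⟩ := hy n x' hx'
    obtain ⟨l, rfl⟩ := hy n z hz
    rw [hρ] at ha hb ⊢
    rw [← (f3 i j l).1 h]
    exact hP.mul _ (hT _) _ (hT _) a b ha hb
  · intro x hx x' hx' h
    obtain ⟨i, rfl⟩ := hy n x hx
    obtain ⟨j, rfl⟩ := hy n x' hx'
    rw [hρ, hρ]
    exact P_inv hP (hT _) (hT _) ((f4 i j).1 h)
  · intro c hc hcY
    obtain ⟨i, hi⟩ := hy n _ hcY
    have hc' : c ∈ Finset.Icc (-(H : ℤ)) H := by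
      rw [Finset.mem_Icc]
      exact abs_le.1 hc
    rw [← hi, hρ, (f5 c hc' i).1 hi, P_int hP, hi]
  · refine ⟨fun i => if h : ∃ j, i = k j n then g (κ h.choose) else G, ?_, ?_⟩
    · intro i x hx hxi a ha
      obtain ⟨l, rfl⟩ := hy n x hx
      rw [hρ] at ha
      by_cases h : ∃ j, i = k j n
      · simp only [dif_pos h]
        have h2 := h.choose_spec
        rw [h2] at hxi
        exact (hPG (κ h.choose) (mem_image_of_mem _ (mem_univ _))).1 _ ((f8 l h.choose).1 hxi) a ha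
      · simp only [dif_neg h]
        exact hP.val _ (hT _) a ha
    · intro i hi
      obtain ⟨j, hj⟩ := hy n _ hi
      have h1 := hk n j i hj
      have h : ∃ j, i = k j n := ⟨j, h1⟩
      simp only [dif_pos h]
      have h2 := h.choose_spec
      have h3 : κ h.choose = κ j := (f9 _ _).1 (h2.symm.trans h1)
      rw [h3, ← hj, hρ, (f7 j j).1 (by rw [hj, h1])]
      exact (hPG (κ j) (mem_image_of_mem _ (mem_univ _))).2

end Pool.Agent.Helper86.MT
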