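import Pool.Agent.Helper86.MT.Defs

/-!
# Block E: the selection lemma
-/

open Finset

namespace Pool.Agent.Helper86.MT

namespace Sel

/-- the members of the tuple `q` whose intervals are inside the interval of `s` -/
def ins (l : ℕ → ℕ) (s : ℕ) (q : Finset ℕ × ℕ × ℕ) : Finset ℕ :=
  q.1.filter fun s' => l s ≤ l s' ∧ s' < s

/-- the mass of the interval of `s` -/
noncomputable def mass (l : ℕ → ℕ) (μ : ℕ → ℝ) (TT : Finset (Finset ℕ × ℕ × ℕ)) (s : ℕ) : ℝ :=
  ∑ u ∈ Ico (l s) s, μ u + ∑ q ∈ TT, (1 / 3 : ℝ) ^ q.2.2 * ((ins l s q).card / q.1.card)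

lemma sum_mass_le (l : ℕ → ℕ) (TT : Finset (Finset ℕ × ℕ × ℕ))
    (hl : ∀ p ∈ TT, ∀ s ∈ p.1, l s < s) (μ : ℕ → ℝ) (hμ : ∀ u, 0 ≤ μ u) (t : ℕ)
    (F : Finset ℕ) (hF : ∀ s ∈ F, s < t)
    (hd : ∀ s ∈ F, ∀ s' ∈ F, s ≠ s' → s ≤ l s' ∨ s' ≤ l s) :
    ∑ s ∈ F, mass l μ TT s ≤ ∑ u ∈ range t, μ u + costT TT := by
  classical
  unfold mass costT
  rw [sum_add_distrib]
  apply add_le_add
  · rw [← sum_biUnion]
    · apply sum_le_sum_of_subset_of_nonneg
      · intro u hu
        rw [mem_biUnion] at hu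
        obtain ⟨s, hs, hu⟩ := hu
        rw [mem_Ico] at hu
        rw [mem_range]
        exact hu.2.trans (hF s hs)
      · intro u _ _
        exact hμ u
    · intro s hs s' hs' hne
      rw [Function.onFun, disjoint_left]
      intro u hu hu'
      rw [mem_Ico] at hu hu'
      rcases hd s hs s' hs' hne with h | h <;> omega
  · rw [sum_comm]
    apply sum_le_sum
    intro q hq
    rw [← mul_sum, ← sum_div]
    have h1 : (∑ s ∈ F, ((ins l s q).card : ℝ)) ≤ q.1.card := by
      have h2 : ∑ s ∈ F, (ins l s q).card = (F.biUnion fun s => ins l s q).card := by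
        rw [card_biUnion]
        intro s hs s' hs' hne
        rw [Function.onFun, disjoint_left]
        intro u hu hu'
        unfold ins at hu hu'
        rw [mem_filter] at hu hu'
        have := hl q hq u hu.1
        rcases hd s hs s' hs' hne with h | h <;> omega
      have h3 : (F.biUnion fun s => ins l s q).card ≤ q.1.card := by
        apply card_le_card
        rw [biUnion_subset]
        intro s _
        exact filter_subset _ _
      rw [← h2] at h3
      exact_mod_cast h3
    have h4 : (∑ s ∈ F, ((ins l s q).card : ℝ)) / q.1.card ≤ 1 :=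
      div_le_one_of_le₀ h1 (Nat.cast_nonneg _)
    calc (1 / 3 : ℝ) ^ q.2.2 * ((∑ s ∈ F, ((ins l s q).card : ℝ)) / q.1.card)
        ≤ (1 / 3 : ℝ) ^ q.2.2 * 1 := mul_le_mul_of_nonneg_left h4 (by positivity)
      _ = (1 / 3 : ℝ) ^ q.2.2 := mul_one _

lemma card_lt (TT : Finset (Finset ℕ × ℕ × ℕ)) (hc : costT TT < 1) (m : ℕ)
    (s : Finset (Finset ℕ × ℕ × ℕ)) (hs : s ⊆ TT) (hm : ∀ q ∈ s, q.2.2 ≤ m) : s.card < 3 ^ m := by
  have h1 : (s.card : ℝ) * (1 / 3 : ℝ) ^ m ≤ ∑ q ∈ s, (1 / 3 : ℝ) ^ q.2.2 := by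
    rw [← nsmul_eq_mul]
    apply card_nsmul_le_sum
    intro q hq
    exact pow_le_pow_of_le_one (by norm_num) (by norm_num) (hm q hq)
  have h2 : ∑ q ∈ s, (1 / 3 : ℝ) ^ q.2.2 ≤ costT TT :=
    sum_le_sum_of_subset_of_nonneg hs fun _ _ _ => by positivity
  have h3 : (s.card : ℝ) * (1 / 3 : ℝ) ^ m < 1 := lt_of_le_of_lt (h1.trans h2) hc
  rw [one_div, inv_pow, ← div_eq_mul_inv, div_lt_one (by positivity)] at h3
  exact_mod_cast h3

lemma R_eq (m : ℕ) : R m = 2 ^ (9 * 3 ^ m) := by
  unfold R
  congr 1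
  rw [pow_add]
  ring

lemma R_big (m : ℕ) : 8 * 3 ^ m ≤ R m := by
  rw [R_eq]
  have h1 : 3 ^ m < 2 ^ (3 ^ m) := Nat.lt_two_pow_self
  have h2 : 1 ≤ 3 ^ m := Nat.one_le_pow _ _ (by norm_num)
  calc 8 * 3 ^ m ≤ 2 ^ 3 * 2 ^ (3 ^ m) := by
        have : (2 : ℕ) ^ 3 = 8 := by norm_num
        rw [this]
        exact Nat.mul_le_mul_left _ h1.le
    _ = 2 ^ (3 + 3 ^ m) := by rw [pow_add]
    _ ≤ 2 ^ (9 * 3 ^ m) := Nat.pow_le_pow_right (by norm_num) (by omega)

lemma R_big' (m k : ℕ) (hk : k < 3 ^ m) : 48 * 2 ^ k < R m := by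
  rw [R_eq]
  calc 48 * 2 ^ k < 2 ^ 6 * 2 ^ k := by
        have : (2 : ℕ) ^ 6 = 64 := by norm_num
        rw [this]
        exact Nat.mul_lt_mul_of_pos_right (by norm_num) (by positivity)
    _ = 2 ^ (6 + k) := by rw [pow_add]
    _ ≤ 2 ^ (9 * 3 ^ m) := Nat.pow_le_pow_right (by norm_num) (by omega)

lemma R_trunc (m k j N I : ℕ) (hm : 1 ≤ m) (hk : k < 3 ^ m) (hN : 3 ^ j * R m ≤ N)
    (hI : N ≤ 2 ^ (k + 2) * I) : 3 ^ j * R (m - 1) ≤ I := by
  obtain ⟨n, rfl⟩ : ∃ n, m = n + 1 := ⟨m - 1, by omega⟩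
  rw [Nat.add_sub_cancel]
  have h1 : 3 ^ j * R (n + 1) ≤ 2 ^ (k + 2) * I := hN.trans hI
  have h2 : 2 ^ (k + 2) * R n ≤ R (n + 1) := by
    rw [R_eq, R_eq, ← pow_add]
    apply Nat.pow_le_pow_right (by norm_num)
    have : 1 ≤ 3 ^ n := Nat.one_le_pow _ _ (by norm_num)
    rw [pow_succ] at hk ⊢
    omega
  have h3 : 2 ^ (k + 2) * (3 ^ j * R n) ≤ 2 ^ (k + 2) * I := by
    calc 2 ^ (k + 2) * (3 ^ j * R n) = 3 ^ j * (2 ^ (k + 2) * R n) := by ring
      _ ≤ 3 ^ j * R (n + 1) := Nat.mul_le_mul_left _ h2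
      _ ≤ _ := h1
  exact Nat.le_of_mul_le_mul_left h3 (by positivity)

/-- `∑ 2^-(k+2) ≤ 1/2` over distinct indices -/
lemma sum_half {ι : Type*} (sel : Finset ι) (κ : ι → ℕ)
    (hinj : ∀ p ∈ sel, ∀ q ∈ sel, κ p = κ q → p = q) :
    ∑ p ∈ sel, (1 / 2 : ℝ) ^ (κ p + 2) ≤ 1 / 2 := by
  classical
  have h1 : ∑ p ∈ sel, (1 / 2 : ℝ) ^ (κ p + 2) = ∑ k ∈ sel.image κ, (1 / 2 : ℝ) ^ (k + 2) := by
    rw [sum_image]
    intro p hp q hq h
    exact hinj p hp q hq h
  rw [h1]
  have h2 : Summable fun k : ℕ => (1 / 2 : ℝ) ^ (k + 2) := by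
    have := (summable_geometric_of_lt_one (r := (1 / 2 : ℝ)) (by norm_num) (by norm_num)).mul_right
      ((1 / 2 : ℝ) ^ 2)
    refine this.congr fun k => ?_
    rw [pow_add]
  have h3 : ∑' k : ℕ, (1 / 2 : ℝ) ^ (k + 2) = 1 / 2 := by
    have : ∀ k : ℕ, (1 / 2 : ℝ) ^ (k + 2) = (1 / 2 : ℝ) ^ k * (1 / 4) := by
      intro k; rw [pow_add]; norm_num
    rw [tsum_congr this, tsum_mul_right, tsum_geometric_of_lt_one (by norm_num) (by norm_num)]
    norm_num
  exact (h2.sum_le_tsum _ fun _ _ => by positivity).trans h3.le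

end Sel

open Sel

theorem selection (A : Set ℕ) (l : ℕ → ℕ) (hl : ∀ s ∈ A, l s < s)
    (TT : Finset (Finset ℕ × ℕ × ℕ)) (hsub : ∀ p ∈ TT, ∀ s ∈ p.1, s ∈ A)
    (hdisj : ∀ p ∈ TT, ∀ s ∈ p.1, ∀ s' ∈ p.1, s < s' → s ≤ l s')
    (hbig : ∀ p ∈ TT, 3 ^ p.2.1 * R p.2.2 ≤ p.1.card)
    (μ : ℕ → ℝ) (hμ : ∀ u, 0 ≤ μ u) (t : ℕ) (ht : ∀ p ∈ TT, ∀ s ∈ p.1, s < t)
    (hcost : ∑ u ∈ range t, μ u + costT TT < 1) :
    ∃ (sel : Finset (Finset ℕ × ℕ × ℕ)) (c : Finset ℕ × ℕ × ℕ → ℕ)
      (a : Finset ℕ × ℕ × ℕ → Finset ℕ × ℕ × ℕ),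
      sel ⊆ TT ∧ (∀ p ∈ sel, c p ∈ p.1) ∧
      (∀ p ∈ sel, ∀ q ∈ sel, p ≠ q → c p ≤ l (c q) ∨ c q ≤ l (c p)) ∧
      (∀ p ∈ TT, p ∉ sel → a p ∈ sel ∧ 1 ≤ p.2.2 ∧
        3 ^ p.2.1 * R (p.2.2 - 1) ≤
          (p.1.filter fun s => l (c (a p)) ≤ l s ∧ s < c (a p)).card) ∧
      ∀ p ∈ sel, 4 / 3 * ∑ u ∈ Ico (l (c p)) (c p), μ u +
        3 * ∑ q ∈ TT.filter (fun q => q ∉ sel ∧ a q = p), (1 / 3 : ℝ) ^ q.2.2 <
          (1 / 3 : ℝ) ^ p.2.1 := by
  classical
  have hcT : costT TT < 1 :=
    lt_of_le_of_lt (le_add_of_nonneg_left (sum_nonneg fun u _ => hμ u)) hcost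
  have hl' : ∀ p ∈ TT, ∀ s ∈ p.1, l s < s := fun p hp s hs => hl s (hsub p hp s hs)
  have hm1 : ∀ p ∈ TT, 1 ≤ p.2.2 := by
    intro p hp
    by_contra h
    have h0 : p.2.2 = 0 := by omega
    have := card_lt TT hcT 0 {p} (by simpa using hp) (by simp [h0])
    simp at this
  have hcard8 : ∀ p ∈ TT, 8 * 3 ^ p.2.2 ≤ p.1.card := by
    intro p hp
    have h1 : 1 * R p.2.2 ≤ 3 ^ p.2.1 * R p.2.2 :=
      Nat.mul_le_mul_right _ (Nat.one_le_pow _ _ (by norm_num))
    have h2 := R_big p.2.2
    have h3 := hbig p hp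
    omega
  have hcard0 : ∀ p ∈ TT, 0 < p.1.card := by
    intro p hp
    have := hcard8 p hp
    have h1 : 1 ≤ 3 ^ p.2.2 := Nat.one_le_pow _ _ (by norm_num)
    omega
  -- the induction
  have main : ∀ s' : Finset (Finset ℕ × ℕ × ℕ), s' ⊆ TT →
      ∃ (sel : Finset (Finset ℕ × ℕ × ℕ)) (c : Finset ℕ × ℕ × ℕ → ℕ)
        (a : Finset ℕ × ℕ × ℕ → Finset ℕ × ℕ × ℕ) (κ : Finset ℕ × ℕ × ℕ → ℕ),
        sel ⊆ s' ∧ (∀ p ∈ sel, c p ∈ p.1) ∧
        (∀ p ∈ sel, ∀ q ∈ sel, p ≠ q → c p ≤ l (c q) ∨ c q ≤ l (c p)) ∧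
        (∀ p ∈ sel, κ p < s'.card) ∧ (∀ p ∈ sel, κ p < 3 ^ p.2.2) ∧
        (∀ p ∈ sel, ∀ q ∈ sel, κ p = κ q → p = q) ∧
        (∀ p ∈ sel, mass l μ TT (c p) ≤ 4 / p.1.card) ∧
        ∀ q ∈ s', q ∉ sel → a q ∈ sel ∧ κ (a q) < 3 ^ q.2.2 ∧
          q.1.card ≤ 2 ^ (κ (a q) + 2) * (ins l (c (a q)) q).card := by
    intro s'
    induction s' using Finset.induction_on_max_value (fun q : Finset ℕ × ℕ × ℕ => q.2.2) with
    | empty =>
      intro _
      exact ⟨∅, fun _ => 0, id, fun _ => 0, by simp, by simp, by simp, by simp, by simp, by simp,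
        by simp, by simp⟩
    | insert T s' hT hmax ih =>
      intro hsT
      have hTT : T ∈ TT := hsT (mem_insert_self _ _)
      have hs'T : s' ⊆ TT := fun q hq => hsT (mem_insert_of_mem hq)
      obtain ⟨sel, c, a, κ, hsel, hc, hcd, hκ1, hκ2, hκinj, hmass, ha⟩ := ih hs'T
      have hK : s'.card + 1 < 3 ^ T.2.2 := by
        have h1 := card_lt TT hcT T.2.2 (insert T s') hsT (by
          intro q hq
          rcases mem_insert.1 hq with h | h
          · rw [h]
          · exact hmax q h)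
        rwa [card_insert_of_notMem hT] at h1
      have hselT : T ∉ sel := fun h => hT (hsel h)
      by_cases hcase : T.1.card ≤ 2 * ∑ p ∈ sel, (ins l (c p) T).card
      · -- `T` is attached to a selected tuple
        have hN : (0 : ℝ) < T.1.card := by exact_mod_cast hcard0 T hTT
        have hne : sel.Nonempty := by
          rw [nonempty_iff_ne_empty]
          rintro rfl
          have := hcard0 T hTT
          simp only [sum_empty, mul_zero] at hcase
          omega
        have h1 : ∑ p ∈ sel, (1 / 2 : ℝ) ^ (κ p + 2) ≤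
            ∑ p ∈ sel, ((ins l (c p) T).card : ℝ) / T.1.card := by
          refine (sum_half sel κ hκinj).trans ?_
          rw [← sum_div, le_div_iff₀ hN]
          have : (T.1.card : ℝ) ≤ 2 * ∑ p ∈ sel, ((ins l (c p) T).card : ℝ) := by
            exact_mod_cast hcase
          linarith
        obtain ⟨p, hp, hpT⟩ := exists_le_of_sum_le hne h1
        have hpT' : T.1.card ≤ 2 ^ (κ p + 2) * (ins l (c p) T).card := by
          rw [le_div_iff₀ hN, one_div, inv_pow, inv_mul_le_iff₀ (by positivity)] at hpT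
          exact_mod_cast hpT
        have hpm : p.2.2 ≤ T.2.2 := hmax p (hsel hp)
        refine ⟨sel, c, Function.update a T p, κ, hsel.trans (subset_insert _ _), hc, hcd, ?_,
          hκ2, hκinj, hmass, ?_⟩
        · intro q hq
          rw [card_insert_of_notMem hT]
          exact (hκ1 q hq).trans (Nat.lt_succ_self _)
        · intro q hq hqs
          by_cases hqT : q = T
          · subst hqT
            rw [Function.update_self]
            exact ⟨hp, (hκ2 p hp).trans_le (Nat.pow_le_pow_right (by norm_num) hpm), hpT'⟩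
          · rw [Function.update_of_ne hqT]
            rcases mem_insert.1 hq with h | h
            · exact absurd h hqT
            · exact ha q h hqs
      · -- `T` is selected
        push Not at hcase
        set F : Finset ℕ := T.1.filter fun s => ∀ p ∈ sel, s ≤ l (c p) ∨ c p ≤ l s with hF
        have hone : ∀ x : ℕ, (T.1.filter fun s => l s ≤ x ∧ x < s).card ≤ 1 := by
          intro x
          rw [card_le_one]
          intro s hs s' hs'
          rw [mem_filter] at hs hs'
          rcases lt_trichotomy s s' with h | h | h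
          · have := hdisj T hTT s hs.1 s' hs'.1 h
            omega
          · exact h
          · have := hdisj T hTT s' hs'.1 s hs.1 h
            omega
        have hcover : T.1 ⊆ F ∪ (sel.biUnion fun p => ins l (c p) T) ∪
            (sel.biUnion fun p => T.1.filter fun s => l s ≤ l (c p) ∧ l (c p) < s) ∪
            (sel.biUnion fun p => T.1.filter fun s => l s ≤ c p - 1 ∧ c p - 1 < s) := by
          intro s hs
          by_cases hsF : s ∈ F
          · simp only [mem_union]
            exact Or.inl (Or.inl (Or.inl hsF))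
          · rw [hF, mem_filter] at hsF
            push Not at hsF
            obtain ⟨p, hp, h1, h2⟩ := hsF hs
            simp only [mem_union, mem_biUnion]
            by_cases h3 : l s < l (c p)
            · exact Or.inl (Or.inr ⟨p, hp, mem_filter.2 ⟨hs, h3.le, h1⟩⟩)
            · by_cases h4 : s < c p
              · exact Or.inl (Or.inl (Or.inr ⟨p, hp, mem_filter.2 ⟨hs, by omega, h4⟩⟩))
              · exact Or.inr ⟨p, hp, mem_filter.2 ⟨hs, by omega, by omega⟩⟩
        have hcount : T.1.card ≤ F.card + ∑ p ∈ sel, (ins l (c p) T).card + sel.card +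
            sel.card := by
          refine (card_le_card hcover).trans ?_
          refine (card_union_le _ _).trans (Nat.add_le_add ?_ ?_)
          · refine (card_union_le _ _).trans (Nat.add_le_add ?_ ?_)
            · refine (card_union_le _ _).trans (Nat.add_le_add le_rfl ?_)
              exact card_biUnion_le
            · refine card_biUnion_le.trans ?_
              rw [card_eq_sum_ones]
              exact sum_le_sum fun p _ => hone _
          · refine card_biUnion_le.trans ?_
            rw [card_eq_sum_ones]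
            exact sum_le_sum fun p _ => hone _
        have hFcard : T.1.card ≤ 4 * F.card := by
          have h1 : sel.card ≤ s'.card := card_le_card hsel
          have h2 := hcard8 T hTT
          omega
        have hFne : 0 < F.card := by
          have := hcard0 T hTT
          omega
        have hFT : F ⊆ T.1 := filter_subset _ _
        have hsum : ∑ s ∈ F, mass l μ TT s < 1 := by
          refine lt_of_le_of_lt (sum_mass_le l TT hl' μ hμ t F (fun s hs => ht T hTT s (hFT hs))
            ?_) hcost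
          intro s hs s' hs' hne
          rcases lt_or_gt_of_ne hne with h | h
          · exact Or.inl (hdisj T hTT s (hFT hs) s' (hFT hs') h)
          · exact Or.inr (hdisj T hTT s' (hFT hs') s (hFT hs) h)
        have hN : (0 : ℝ) < T.1.card := by exact_mod_cast hcard0 T hTT
        obtain ⟨s0, hs0, hs0m⟩ : ∃ s0 ∈ F, mass l μ TT s0 ≤ 4 / T.1.card := by
          by_contra hcon
          push Not at hcon
          have h1 : (F.card : ℝ) * (4 / T.1.card) ≤ ∑ s ∈ F, mass l μ TT s := by
            rw [← nsmul_eq_mul]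
            exact card_nsmul_le_sum _ _ _ fun s hs => (hcon s hs).le
          have h2 : (1 : ℝ) ≤ F.card * (4 / T.1.card) := by
            rw [← mul_div_assoc, le_div_iff₀ hN]
            have : (T.1.card : ℝ) ≤ 4 * F.card := by exact_mod_cast hFcard
            linarith
          linarith
        have hs0F := (mem_filter.1 hs0).2
        have hs0T := hFT hs0
        have hneT : ∀ p ∈ sel, p ≠ T := fun p hp h => hselT (h ▸ hp)
        refine ⟨insert T sel, Function.update c T s0, a, Function.update κ T s'.card,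
          insert_subset_insert _ hsel, ?_, ?_, ?_, ?_, ?_, ?_, ?_⟩
        · intro p hp
          rcases mem_insert.1 hp with h | h
          · subst h
            rw [Function.update_self]
            exact hs0T
          · rw [Function.update_of_ne (hneT p h)]
            exact hc p h
        · intro p hp q hq hpq
          rcases mem_insert.1 hp with h | h
          · rcases mem_insert.1 hq with h' | h'
            · exact absurd (h.trans h'.symm) hpq
            · rw [h, Function.update_self, Function.update_of_ne (hneT q h')]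
              exact hs0F q h'
          · rcases mem_insert.1 hq with h' | h'
            · rw [h', Function.update_self, Function.update_of_ne (hneT p h)]
              exact (hs0F p h).symm
            · rw [Function.update_of_ne (hneT p h), Function.update_of_ne (hneT q h')]
              exact hcd p h q h' hpq
        · intro p hp
          rw [card_insert_of_notMem hT]
          rcases mem_insert.1 hp with h | h
          · rw [h, Function.update_self]
            exact Nat.lt_succ_self _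
          · rw [Function.update_of_ne (hneT p h)]
            exact (hκ1 p h).trans (Nat.lt_succ_self _)
        · intro p hp
          rcases mem_insert.1 hp with h | h
          · rw [h, Function.update_self]
            omega
          · rw [Function.update_of_ne (hneT p h)]
            exact hκ2 p h
        · intro p hp q hq hpq
          rcases mem_insert.1 hp with h | h
          · rcases mem_insert.1 hq with h' | h'
            · exact h.trans h'.symm
            · rw [h, Function.update_self, Function.update_of_ne (hneT q h')] at hpq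
              exact absurd hpq.symm (hκ1 q h').ne
          · rcases mem_insert.1 hq with h' | h'
            · rw [h', Function.update_self, Function.update_of_ne (hneT p h)] at hpq
              exact absurd hpq (hκ1 p h).ne
            · rw [Function.update_of_ne (hneT p h), Function.update_of_ne (hneT q h')] at hpq
              exact hκinj p h q h' hpq
        · intro p hp
          rcases mem_insert.1 hp with h | h
          · rw [h, Function.update_self]
            exact hs0m
          · rw [Function.update_of_ne (hneT p h)]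
            exact hmass p h
        · intro q hq hqs
          have hqT : q ≠ T := fun h => hqs (h ▸ mem_insert_self _ _)
          have hqs' : q ∉ sel := fun h => hqs (mem_insert_of_mem h)
          rcases mem_insert.1 hq with h | h
          · exact absurd h hqT
          · obtain ⟨h1, h2, h3⟩ := ha q h hqs'
            rw [Function.update_of_ne (hneT _ h1), Function.update_of_ne (hneT _ h1)]
            exact ⟨mem_insert_of_mem h1, h2, h3⟩
  obtain ⟨sel, c, a, κ, hsel, hc, hcd, -, hκ2, -, hmass, ha⟩ := main TT le_rfl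
  refine ⟨sel, c, a, hsel, hc, hcd, ?_, ?_⟩
  · intro p hp hps
    obtain ⟨h1, h2, h3⟩ := ha p hp hps
    exact ⟨h1, hm1 p hp, R_trunc p.2.2 (κ (a p)) p.2.1 p.1.card _ (hm1 p hp) h2 (hbig p hp) h3⟩
  · intro p hp
    set M : ℝ := ∑ u ∈ Ico (l (c p)) (c p), μ u with hM
    set Q : ℝ := ∑ q ∈ TT, (1 / 3 : ℝ) ^ q.2.2 * ((ins l (c p) q).card / q.1.card) with hQ
    have hM0 : 0 ≤ M := sum_nonneg fun u _ => hμ u
    have hQ0 : 0 ≤ Q := sum_nonneg fun q _ => by positivity
    have hMQ : M + Q ≤ 4 / p.1.card := hmass p hp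
    set k := κ p with hk
    have h1 : ∑ q ∈ TT.filter (fun q => q ∉ sel ∧ a q = p), (1 / 3 : ℝ) ^ q.2.2 ≤
        2 ^ (k + 2) * Q := by
      rw [hQ, mul_sum]
      calc ∑ q ∈ TT.filter (fun q => q ∉ sel ∧ a q = p), (1 / 3 : ℝ) ^ q.2.2
          ≤ ∑ q ∈ TT.filter (fun q => q ∉ sel ∧ a q = p),
            2 ^ (k + 2) * ((1 / 3 : ℝ) ^ q.2.2 * ((ins l (c p) q).card / q.1.card)) := by
            apply sum_le_sum
            intro q hq
            obtain ⟨hq1, hq2, hq3⟩ := mem_filter.1 hq
            obtain ⟨_, _, h3⟩ := ha q hq1 hq2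
            rw [hq3] at h3
            have hN : (0 : ℝ) < q.1.card := by exact_mod_cast hcard0 q hq1
            have h4 : (q.1.card : ℝ) ≤ 2 ^ (k + 2) * (ins l (c p) q).card := by
              exact_mod_cast h3
            have h5 : (1 : ℝ) ≤ 2 ^ (k + 2) * ((ins l (c p) q).card / q.1.card) := by
              rw [← mul_div_assoc, le_div_iff₀ hN, one_mul]
              exact h4
            calc (1 / 3 : ℝ) ^ q.2.2 = (1 / 3 : ℝ) ^ q.2.2 * 1 := (mul_one _).symm
              _ ≤ (1 / 3 : ℝ) ^ q.2.2 * (2 ^ (k + 2) * ((ins l (c p) q).card / q.1.card)) :=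
                mul_le_mul_of_nonneg_left h5 (by positivity)
              _ = _ := by ring
        _ ≤ _ := sum_le_sum_of_subset_of_nonneg (filter_subset _ _) fun q _ _ => by positivity
    have h2k : (1 : ℝ) ≤ 2 ^ k := one_le_pow₀ (by norm_num)
    have h2 : 4 / 3 * M + 3 * ∑ q ∈ TT.filter (fun q => q ∉ sel ∧ a q = p),
        (1 / 3 : ℝ) ^ q.2.2 ≤ 12 * 2 ^ k * (4 / p.1.card) := by
      calc 4 / 3 * M + 3 * ∑ q ∈ TT.filter (fun q => q ∉ sel ∧ a q = p), (1 / 3 : ℝ) ^ q.2.2
          ≤ 4 / 3 * M + 3 * (2 ^ (k + 2) * Q) := by linarith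
        _ ≤ 12 * 2 ^ k * (M + Q) := by
          rw [pow_add]
          nlinarith
        _ ≤ _ := mul_le_mul_of_nonneg_left hMQ (by positivity)
    refine lt_of_le_of_lt h2 ?_
    have hN : (0 : ℝ) < p.1.card := by exact_mod_cast hcard0 p (hsel hp)
    have h3 := R_big' p.2.2 k (hκ2 p hp)
    have h4 := hbig p (hsel hp)
    have h5 : 3 ^ p.2.1 * (48 * 2 ^ k) < p.1.card :=
      lt_of_lt_of_le (Nat.mul_lt_mul_of_pos_left h3 (by positivity)) h4
    have h6 : (3 : ℝ) ^ p.2.1 * (48 * 2 ^ k) < p.1.card := by exact_mod_cast h5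
    rw [one_div, inv_pow, ← mul_div_assoc, div_lt_iff₀ hN, ← div_eq_inv_mul,
      lt_div_iff₀ (by positivity)]
    linarith

end Pool.Agent.Helper86.MT
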